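import Pool.Agent.Helper87.LS.Geo

/-!
BLOCK LS-L. Recurrence lemma for lattices.

`T A n (u, w) = (e^n A u, e^{-n} A w)` preserves the Lebesgue measure of `ℂ × ℂ` if `det A = 1` (`T_mp`): it is
the product of `u ↦ e^n A u` (multiplies the area by `e^{2n}`) and `w ↦ e^{-n} A w` (multiplies it by
`e^{-2n}`); e.g. `Measure.map_prod_map` with `Real`/`Measure.map_linearMap_addHaar_eq_smul_addHaar`.
It also preserves `cr u w` (`cr (A u) (A w) = det A * cr u w`, `cr_map`).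

`countable`: a discrete subgroup (in the sense of `IsLattice.discrete`) is countable: if
`‖A 1 - B 1‖, ‖A I - B I‖` are small compared with the norm of `A⁻¹` then `A⁻¹ B` is close to `1`, so `A = B`;
hence every point of the set `{(A 1, A I) | A ∈ Γ} ⊆ ℂ × ℂ` is isolated, and a subset of a second
countable space all of whose points are isolated is countable (`Set.countable_of_isolated...`,
`TopologicalSpace` lemmas, discrete topology + second countable).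

`rec_lemma`. Suppose the conclusion fails: (*) `volume {p ∈ A | T γ n p ∈ A} = 0` for all `n ≥ n0` (take
`n0 ≥ 1`) and `γ ∈ Γ`. Shrink `A` (keeping positive measure) so that (**) `T γ 0 p ∉ A` for `p ∈ A`, `γ ∈ Γ`,
`γ ≠ 1`: each `p = (u, w)` with `cr u w > 0` has a neighbourhood `B` with this property (`γ u ≈ u`, `γ w ≈ w`
and `u, w` a basis, so `γ 1 ≈ 1`, `γ I ≈ I`, so `γ = 1` by discreteness), and countably many of these
neighbourhoods cover; one of them meets `A` in positive measure. Now the sets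
`T γ (j n0) '' A`, `γ ∈ Γ`, `j ∈ ℕ`, are pairwise a.e. disjoint (equivalently preimages under the inverse
maps): this is (*) for different `j` and (**) for equal `j`. Let `K` be as in `covolume`. For each `j`:
`A_j = T 1 (j n0) '' A` has volume `volume A` and is covered by the sets `{p | T γ 0 p ∈ K}`, `γ ∈ Γ`, so
`volume A ≤ ∑_γ volume (A_j ∩ {p | T γ 0 p ∈ K}) = ∑_γ volume (T γ (j n0) '' A ∩ K)`.
Summing over `j` and using disjointness, `∞ = ∑_j volume A ≤ volume K < ∞`: contradiction.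
(`tsum_meas_le_meas_iUnion_of_disjoint₀` or `measure_iUnion₀`; `Γ` countable.)
-/

open MeasureTheory Set Filter

namespace Pool.Agent.Helper87.LS

/-- The map `(u, w) ↦ (e^n A u, e^{-n} A w)`. -/
noncomputable def T (A : ℂ ≃ₗ[ℝ] ℂ) (n : ℕ) (p : ℂ × ℂ) : ℂ × ℂ :=
  ((Real.exp (n : ℝ) : ℂ) * A p.1, (Real.exp (-(n : ℝ)) : ℂ) * A p.2)

theorem det_eq_cr97 (A : ℂ →ₗ[ℝ] ℂ) : LinearMap.det A = cr (A 1) (A Complex.I) := by
  rw [← LinearMap.det_toMatrix Complex.basisOneI, Matrix.det_fin_two]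
  simp only [LinearMap.toMatrix_apply, Complex.coe_basisOneI, Complex.coe_basisOneI_repr]
  simp [cr]
  ring

theorem apply_eq97 (A : ℂ →ₗ[ℝ] ℂ) (u : ℂ) :
    A u = (u.re : ℂ) * A 1 + (u.im : ℂ) * A Complex.I := by
  have h : u = u.re • (1 : ℂ) + u.im • Complex.I := by
    apply Complex.ext <;> simp
  conv_lhs => rw [h, map_add, map_smul, map_smul]
  simp only [Complex.real_smul]

theorem cr_map (A : ℂ ≃ₗ[ℝ] ℂ) (u w : ℂ) :
    cr (A u) (A w) = LinearMap.det (A : ℂ →ₗ[ℝ] ℂ) * cr u w := by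
  have hu := apply_eq97 (A : ℂ →ₗ[ℝ] ℂ) u
  have hw := apply_eq97 (A : ℂ →ₗ[ℝ] ℂ) w
  rw [det_eq_cr97]
  simp only [LinearEquiv.coe_coe] at hu hw ⊢
  rw [hu, hw]
  simp only [cr, Complex.add_re, Complex.add_im, Complex.mul_re, Complex.mul_im,
    Complex.ofReal_re, Complex.ofReal_im]
  ring

theorem map_real_mul97 (A : ℂ ≃ₗ[ℝ] ℂ) (r : ℝ) (z : ℂ) : A ((r : ℂ) * z) = (r : ℂ) * A z := by
  rw [← Complex.real_smul, ← Complex.real_smul, map_smul]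

/-- The map `(u, w) ↦ (e^t A u, e^{-t} A w)` for a real `t`. -/
noncomputable def TT97 (A : ℂ ≃ₗ[ℝ] ℂ) (t : ℝ) (p : ℂ × ℂ) : ℂ × ℂ :=
  ((Real.exp t : ℂ) * A p.1, (Real.exp (-t) : ℂ) * A p.2)

theorem T_eq_TT97 (A : ℂ ≃ₗ[ℝ] ℂ) (n : ℕ) : T A n = TT97 A (n : ℝ) := rfl

theorem TT97_comp (A B : ℂ ≃ₗ[ℝ] ℂ) (s t : ℝ) (p : ℂ × ℂ) :
    TT97 A s (TT97 B t p) = TT97 (A * B) (s + t) p := by
  unfold TT97
  simp only [map_real_mul97, LinearEquiv.mul_apply]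
  rw [neg_add, Real.exp_add, Real.exp_add]
  push_cast
  rw [mul_assoc, mul_assoc]

theorem TT97_one (p : ℂ × ℂ) : TT97 1 0 p = p := by
  unfold TT97
  simp

theorem TT97_inv (A : ℂ ≃ₗ[ℝ] ℂ) (t : ℝ) (p : ℂ × ℂ) : TT97 A⁻¹ (-t) (TT97 A t p) = p := by
  rw [TT97_comp, inv_mul_cancel, neg_add_cancel, TT97_one]

theorem TT97_inv' (A : ℂ ≃ₗ[ℝ] ℂ) (t : ℝ) (p : ℂ × ℂ) : TT97 A t (TT97 A⁻¹ (-t) p) = p := by
  rw [TT97_comp, mul_inv_cancel, add_neg_cancel, TT97_one]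

theorem map_vol97 {A : ℂ ≃ₗ[ℝ] ℂ} (hA : LinearMap.det (A : ℂ →ₗ[ℝ] ℂ) = 1) (t : ℝ) :
    Measure.map (fun z : ℂ => (Real.exp t : ℂ) * A z) volume =
      ENNReal.ofReal (Real.exp (-(2 * t))) • (volume : Measure ℂ) := by
  have hf : (fun z : ℂ => (Real.exp t : ℂ) * A z) = ((Real.exp t) • (A : ℂ →ₗ[ℝ] ℂ) : ℂ →ₗ[ℝ] ℂ) := by
    funext z
    rw [LinearMap.smul_apply, Complex.real_smul]
    rfl
  have hdet : LinearMap.det ((Real.exp t) • (A : ℂ →ₗ[ℝ] ℂ) : ℂ →ₗ[ℝ] ℂ) = Real.exp (2 * t) := by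
    rw [LinearMap.det_smul, hA, mul_one, Complex.finrank_real_complex, ← Real.exp_nat_mul]
    norm_num
  rw [hf, Measure.map_linearMap_addHaar_eq_smul_addHaar volume (by rw [hdet]; exact (Real.exp_pos _).ne'),
    hdet, ← Real.exp_neg, abs_of_pos (Real.exp_pos _)]

theorem measurable_scal97 (A : ℂ ≃ₗ[ℝ] ℂ) (t : ℝ) :
    Measurable (fun z : ℂ => (Real.exp t : ℂ) * A z) := by
  have h : Continuous A := (A : ℂ →ₗ[ℝ] ℂ).continuous_of_finiteDimensional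
  exact (continuous_const.mul h).measurable

theorem TT97_mp {A : ℂ ≃ₗ[ℝ] ℂ} (hA : LinearMap.det (A : ℂ →ₗ[ℝ] ℂ) = 1) (t : ℝ) :
    MeasurePreserving (TT97 A t) (volume : Measure (ℂ × ℂ)) volume := by
  have hf := measurable_scal97 A t
  have hg := measurable_scal97 A (-t)
  have hT : TT97 A t = Prod.map (fun z : ℂ => (Real.exp t : ℂ) * A z)
      (fun z : ℂ => (Real.exp (-t) : ℂ) * A z) := rfl
  refine ⟨?_, ?_⟩
  · rw [hT]; exact hf.prodMap hg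
  · rw [hT, Measure.volume_eq_prod, ← Measure.map_prod_map _ _ hf hg, map_vol97 hA, map_vol97 hA]
    rw [Measure.prod_smul_left, Measure.prod_smul_right, smul_smul, ← ENNReal.ofReal_mul (Real.exp_pos _).le,
      ← Real.exp_add]
    have : -(2 * t) + -(2 * -t) = 0 := by ring
    rw [this, Real.exp_zero, ENNReal.ofReal_one, one_smul]

theorem T_mp {A : ℂ ≃ₗ[ℝ] ℂ} (hA : LinearMap.det (A : ℂ →ₗ[ℝ] ℂ) = 1) (n : ℕ) :
    MeasurePreserving (T A n) (volume : Measure (ℂ × ℂ)) volume := by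
  rw [T_eq_TT97]
  exact TT97_mp hA _

theorem IsLattice.countable {Γ : Subgroup (ℂ ≃ₗ[ℝ] ℂ)} (hΓ : IsLattice Γ) :
    (Γ : Set (ℂ ≃ₗ[ℝ] ℂ)).Countable := by
  obtain ⟨ε, hε, hdisc⟩ := hΓ.discrete
  let φ : Γ → ℂ × ℂ := fun A => ((A : ℂ ≃ₗ[ℝ] ℂ) 1, (A : ℂ ≃ₗ[ℝ] ℂ) Complex.I)
  have hsep : ∀ A : Γ, ∃ δ > 0, ∀ B : Γ, dist (φ B) (φ A) < δ → B = A := by
    intro A
    let L : ℂ →L[ℝ] ℂ := LinearMap.toContinuousLinearMap (((A : ℂ ≃ₗ[ℝ] ℂ)⁻¹ : ℂ ≃ₗ[ℝ] ℂ) : ℂ →ₗ[ℝ] ℂ)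
    have hL : ∀ z, L z = ((A : ℂ ≃ₗ[ℝ] ℂ)⁻¹ : ℂ ≃ₗ[ℝ] ℂ) z := fun z => rfl
    refine ⟨ε / (‖L‖ + 1), by positivity, fun B hB => ?_⟩
    rw [Prod.dist_eq, max_lt_iff, dist_eq_norm, dist_eq_norm] at hB
    have hkey : ∀ z : ℂ, ‖(B : ℂ ≃ₗ[ℝ] ℂ) z - (A : ℂ ≃ₗ[ℝ] ℂ) z‖ < ε / (‖L‖ + 1) →
        ‖((A : ℂ ≃ₗ[ℝ] ℂ)⁻¹ * (B : ℂ ≃ₗ[ℝ] ℂ)) z - z‖ < ε := by
      intro z hz
      have h1 : ((A : ℂ ≃ₗ[ℝ] ℂ)⁻¹ * (B : ℂ ≃ₗ[ℝ] ℂ)) z - z =
          L ((B : ℂ ≃ₗ[ℝ] ℂ) z - (A : ℂ ≃ₗ[ℝ] ℂ) z) := by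
        rw [map_sub, hL, hL, LinearEquiv.mul_apply]
        congr 1
        show z = ((A : ℂ ≃ₗ[ℝ] ℂ)⁻¹ * (A : ℂ ≃ₗ[ℝ] ℂ)) z
        rw [inv_mul_cancel]
        rfl
      rw [h1]
      have h2 := L.le_opNorm ((B : ℂ ≃ₗ[ℝ] ℂ) z - (A : ℂ ≃ₗ[ℝ] ℂ) z)
      have h3 : 0 ≤ ‖L‖ := norm_nonneg _
      rw [lt_div_iff₀ (by positivity)] at hz
      have h4 := norm_nonneg ((B : ℂ ≃ₗ[ℝ] ℂ) z - (A : ℂ ≃ₗ[ℝ] ℂ) z)
      nlinarith
    have h5 := hdisc _ (Γ.mul_mem (Γ.inv_mem A.2) B.2) (hkey 1 hB.1) (hkey Complex.I hB.2)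
    apply Subtype.ext
    exact (inv_mul_eq_one.1 h5).symm
  have hinj : Function.Injective φ := by
    intro A B hAB
    obtain ⟨δ, hδ, h⟩ := hsep B
    exact h A (by rw [hAB, dist_self]; exact hδ)
  have hdt : DiscreteTopology (range φ) := by
    refine discreteTopology_iff_isOpen_singleton.2 ?_
    rintro ⟨_, A, rfl⟩
    rw [Metric.isOpen_singleton_iff]
    obtain ⟨δ, hδ, h⟩ := hsep A
    refine ⟨δ, hδ, ?_⟩
    rintro ⟨_, B, rfl⟩ hB
    have := h B hB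
    rw [this]
  have hc : Countable (range φ) := countable_of_Lindelof_of_discrete
  have hc2 : Countable Γ := by
    have e := Equiv.ofInjective φ hinj
    exact e.countable_iff.2 hc
  exact hc2


theorem near_one97 {Γ : Subgroup (ℂ ≃ₗ[ℝ] ℂ)} (hΓ : IsLattice Γ) (N : ℕ) :
    ∃ δ > 0, ∀ p q : ℂ × ℂ, 1 / ((N : ℝ) + 1) ≤ cr p.1 p.2 → ‖p‖ ≤ (N : ℝ) + 1 → dist q p < δ →
      ∀ γ ∈ Γ, TT97 γ 0 p = q → γ = 1 := by
  obtain ⟨ε, hε, hdisc⟩ := hΓ.discrete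
  have hN : (0 : ℝ) < (N : ℝ) + 1 := by positivity
  refine ⟨ε / (2 * ((N : ℝ) + 1) ^ 2), by positivity, ?_⟩
  rintro ⟨u, w⟩ q hc hR hd γ hγ rfl
  simp only [TT97, Real.exp_zero, neg_zero, Complex.ofReal_one, one_mul] at hd
  rw [Prod.dist_eq, max_lt_iff, dist_eq_norm, dist_eq_norm] at hd
  simp only at hd hc
  obtain ⟨hd1, hd2⟩ := hd
  have hu : ‖u‖ ≤ (N : ℝ) + 1 := (norm_fst_le (u, w)).trans hR
  have hw : ‖w‖ ≤ (N : ℝ) + 1 := (norm_snd_le (u, w)).trans hR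
  have hkey : ∀ z : ℂ, ‖z‖ = 1 → ‖γ z - z‖ < ε := by
    intro z hz
    have e1 : ((cr u w : ℝ) : ℂ) * z = ((cr z w : ℝ) : ℂ) * u + ((cr u z : ℝ) : ℂ) * w := by
      apply Complex.ext
      · simp only [cr, Complex.add_re, Complex.mul_re, Complex.ofReal_re, Complex.ofReal_im]
        ring
      · simp only [cr, Complex.add_im, Complex.mul_im, Complex.ofReal_re, Complex.ofReal_im]
        ring
    have e2 : ((cr u w : ℝ) : ℂ) * γ z = ((cr z w : ℝ) : ℂ) * γ u + ((cr u z : ℝ) : ℂ) * γ w := by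
      rw [← map_real_mul97, e1, map_add, map_real_mul97, map_real_mul97]
    have e3 : ((cr u w : ℝ) : ℂ) * (γ z - z) =
        ((cr z w : ℝ) : ℂ) * (γ u - u) + ((cr u z : ℝ) : ℂ) * (γ w - w) := by
      rw [mul_sub, e1, e2]; ring
    have e4 : cr u w * ‖γ z - z‖ ≤ |cr z w| * ‖γ u - u‖ + |cr u z| * ‖γ w - w‖ := by
      have hcpos : 0 < cr u w := lt_of_lt_of_le (by positivity) hc
      have := congrArg norm e3
      rw [norm_mul, Complex.norm_real, Real.norm_eq_abs, abs_of_pos hcpos] at this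
      rw [this]
      refine (norm_add_le _ _).trans ?_
      rw [norm_mul, norm_mul, Complex.norm_real, Complex.norm_real, Real.norm_eq_abs,
        Real.norm_eq_abs]
    have e5 : |cr z w| ≤ (N : ℝ) + 1 := by
      refine (abs_cr_le z w).trans ?_
      rw [hz, one_mul]; exact hw
    have e6 : |cr u z| ≤ (N : ℝ) + 1 := by
      refine (abs_cr_le u z).trans ?_
      rw [hz, mul_one]; exact hu
    have e7 : |cr z w| * ‖γ u - u‖ ≤ ((N : ℝ) + 1) * ‖γ u - u‖ :=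
      mul_le_mul_of_nonneg_right e5 (norm_nonneg _)
    have e8 : |cr u z| * ‖γ w - w‖ ≤ ((N : ℝ) + 1) * ‖γ w - w‖ :=
      mul_le_mul_of_nonneg_right e6 (norm_nonneg _)
    have e9 : 1 / ((N : ℝ) + 1) * ‖γ z - z‖ ≤ cr u w * ‖γ z - z‖ :=
      mul_le_mul_of_nonneg_right hc (norm_nonneg _)
    have e10 : 1 / ((N : ℝ) + 1) * ‖γ z - z‖ <
        ((N : ℝ) + 1) * (ε / (2 * ((N : ℝ) + 1) ^ 2)) + ((N : ℝ) + 1) * (ε / (2 * ((N : ℝ) + 1) ^ 2)) := by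
      have h1 := mul_lt_mul_of_pos_left hd1 hN
      have h2 := mul_lt_mul_of_pos_left hd2 hN
      linarith
    have e11 : ((N : ℝ) + 1) * (ε / (2 * ((N : ℝ) + 1) ^ 2)) +
        ((N : ℝ) + 1) * (ε / (2 * ((N : ℝ) + 1) ^ 2)) = 1 / ((N : ℝ) + 1) * ε := by
      field_simp
      ring
    rw [e11] at e10
    exact lt_of_mul_lt_mul_left e10 (by positivity)
  exact hdisc γ hγ (hkey 1 norm_one) (hkey Complex.I Complex.norm_I)

theorem rec_lemma {Γ : Subgroup (ℂ ≃ₗ[ℝ] ℂ)} (hΓ : IsLattice Γ) {A : Set (ℂ × ℂ)}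
    (hA : MeasurableSet A) (hpos : volume A ≠ 0) (hsub : ∀ p ∈ A, 0 < cr p.1 p.2 ∧ cr p.1 p.2 ≤ 1)
    (n0 : ℕ) : ∃ n ≥ n0, ∃ γ ∈ Γ, volume {p ∈ A | T γ n p ∈ A} ≠ 0 := by
  by_contra hcon
  push Not at hcon
  have hcr : Measurable fun p : ℂ × ℂ => cr p.1 p.2 := continuous_cr.measurable
  -- first shrinking
  have h1 : volume (⋃ N : ℕ, A ∩ {p | 1 / ((N : ℝ) + 1) ≤ cr p.1 p.2 ∧ ‖p‖ ≤ (N : ℝ) + 1}) ≠ 0 := by
    have : A = ⋃ N : ℕ, A ∩ {p | 1 / ((N : ℝ) + 1) ≤ cr p.1 p.2 ∧ ‖p‖ ≤ (N : ℝ) + 1} := by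
      ext p
      simp only [mem_iUnion, mem_inter_iff, Set.mem_ofPred_eq]
      constructor
      · intro hp
        have hc := (hsub p hp).1
        obtain ⟨N1, hN1⟩ := exists_nat_one_div_lt hc
        obtain ⟨N2, hN2⟩ := exists_nat_ge ‖p‖
        refine ⟨max N1 N2, hp, ?_, ?_⟩
        · refine le_trans ?_ hN1.le
          apply one_div_le_one_div_of_le (by positivity)
          have : (N1 : ℝ) ≤ (max N1 N2 : ℕ) := by exact_mod_cast le_max_left _ _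
          linarith
        · have : (N2 : ℝ) ≤ (max N1 N2 : ℕ) := by exact_mod_cast le_max_right _ _
          linarith
      · rintro ⟨_, hp, _⟩
        exact hp
    rw [← this]
    exact hpos
  obtain ⟨N, hN⟩ := exists_measure_pos_of_not_measure_iUnion_null h1
  set A1 : Set (ℂ × ℂ) := A ∩ {p | 1 / ((N : ℝ) + 1) ≤ cr p.1 p.2 ∧ ‖p‖ ≤ (N : ℝ) + 1} with hA1
  have hA1m : MeasurableSet A1 := by
    refine hA.inter ?_
    exact (measurableSet_le measurable_const hcr).inter (measurableSet_le measurable_norm measurable_const)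
  obtain ⟨δ, hδ, hnear⟩ := near_one97 hΓ N
  have h2 : volume (⋃ k : ℕ, A1 ∩ Metric.ball (TopologicalSpace.denseSeq (ℂ × ℂ) k) (δ / 2)) ≠ 0 := by
    have : A1 = ⋃ k : ℕ, A1 ∩ Metric.ball (TopologicalSpace.denseSeq (ℂ × ℂ) k) (δ / 2) := by
      ext p
      simp only [mem_iUnion, mem_inter_iff]
      constructor
      · intro hp
        obtain ⟨k, hk⟩ := (TopologicalSpace.denseRange_denseSeq (ℂ × ℂ)).exists_dist_lt p
          (half_pos hδ)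
        exact ⟨k, hp, hk⟩
      · rintro ⟨_, hp, _⟩
        exact hp
    rw [← this]
    exact hN.ne'
  obtain ⟨k, hk⟩ := exists_measure_pos_of_not_measure_iUnion_null h2
  set A' : Set (ℂ × ℂ) := A1 ∩ Metric.ball (TopologicalSpace.denseSeq (ℂ × ℂ) k) (δ / 2) with hA'
  have hA'm : MeasurableSet A' := hA1m.inter Metric.isOpen_ball.measurableSet
  have hA'A : ∀ p ∈ A', p ∈ A := fun p hp => hp.1.1
  have hstar : ∀ p ∈ A', ∀ γ ∈ Γ, TT97 γ 0 p ∈ A' → γ = 1 := by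
    intro p hp γ hγ hq
    refine hnear p _ hp.1.2.1 hp.1.2.2 ?_ γ hγ rfl
    have a1 := Metric.mem_ball.1 hp.2
    have a2 := Metric.mem_ball.1 hq.2
    have := dist_triangle_right (TT97 γ 0 p) p (TopologicalSpace.denseSeq (ℂ × ℂ) k)
    linarith
  obtain ⟨K, hKm, hKfin, hK⟩ := hΓ.covolume
  set m : ℕ := n0 + 1 with hm
  have hcount : Countable Γ := hΓ.countable
  -- the sets
  let S : Γ × ℕ → Set (ℂ × ℂ) := fun g =>
    TT97 (g.1 : ℂ ≃ₗ[ℝ] ℂ)⁻¹ (-((g.2 * m : ℕ) : ℝ)) ⁻¹' A'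
  have hdetinv : ∀ γ ∈ Γ, LinearMap.det ((γ⁻¹ : ℂ ≃ₗ[ℝ] ℂ) : ℂ →ₗ[ℝ] ℂ) = 1 := fun γ hγ =>
    hΓ.det _ (Γ.inv_mem hγ)
  have hSm : ∀ g, MeasurableSet (S g) := fun g =>
    (TT97_mp (hdetinv _ g.1.2) _).measurable hA'm
  -- disjointness for different times
  have hdis : ∀ g g' : Γ × ℕ, g.2 < g'.2 → volume (S g ∩ S g') = 0 := by
    intro g g' hlt
    have hn : n0 ≤ (g'.2 - g.2) * m := by
      have : 1 ≤ g'.2 - g.2 := by omega
      calc n0 ≤ 1 * m := by omega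
        _ ≤ (g'.2 - g.2) * m := Nat.mul_le_mul_right _ this
    set γ : ℂ ≃ₗ[ℝ] ℂ := (g.1 : ℂ ≃ₗ[ℝ] ℂ)⁻¹ * (g'.1 : ℂ ≃ₗ[ℝ] ℂ) with hγ
    have hγm : γ ∈ Γ := Γ.mul_mem (Γ.inv_mem g.1.2) g'.1.2
    have hz := hcon _ hn γ hγm
    have hmp := TT97_mp (hdetinv _ g'.1.2) (-((g'.2 * m : ℕ) : ℝ))
    have hmeas : MeasurableSet {p ∈ A | T γ ((g'.2 - g.2) * m) p ∈ A} :=
      hA.inter ((T_mp (hΓ.det _ hγm) _).measurable hA)
    have hz2 := hmp.measure_preimage hmeas.nullMeasurableSet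
    rw [hz] at hz2
    refine measure_mono_null ?_ hz2
    rintro q ⟨hq1, hq2⟩
    refine ⟨hA'A _ hq2, ?_⟩
    have e1 : T γ ((g'.2 - g.2) * m) (TT97 (g'.1 : ℂ ≃ₗ[ℝ] ℂ)⁻¹ (-((g'.2 * m : ℕ) : ℝ)) q) =
        TT97 (g.1 : ℂ ≃ₗ[ℝ] ℂ)⁻¹ (-((g.2 * m : ℕ) : ℝ)) q := by
      rw [T_eq_TT97, TT97_comp, hγ, mul_assoc, mul_inv_cancel, mul_one]
      congr 1
      have : g.2 ≤ g'.2 := hlt.le
      push_cast [Nat.cast_sub this]
      ring
    rw [e1]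
    exact hA'A _ hq1
  have hAE : Pairwise (Function.onFun (AEDisjoint (volume.restrict K)) S) := by
    intro g g' hne
    have key : volume (S g ∩ S g') = 0 := by
      rcases lt_trichotomy g.2 g'.2 with hlt | heq | hgt
      · exact hdis g g' hlt
      · have : S g ∩ S g' = ∅ := by
          rw [eq_empty_iff_forall_notMem]
          rintro q ⟨hq1, hq2⟩
          have e1 : TT97 ((g.1 : ℂ ≃ₗ[ℝ] ℂ)⁻¹ * (g'.1 : ℂ ≃ₗ[ℝ] ℂ)) 0
              (TT97 (g'.1 : ℂ ≃ₗ[ℝ] ℂ)⁻¹ (-((g'.2 * m : ℕ) : ℝ)) q) =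
              TT97 (g.1 : ℂ ≃ₗ[ℝ] ℂ)⁻¹ (-((g.2 * m : ℕ) : ℝ)) q := by
            rw [TT97_comp, mul_assoc, mul_inv_cancel, mul_one, zero_add, heq]
          have h3 := hstar _ hq2 _ (Γ.mul_mem (Γ.inv_mem g.1.2) g'.1.2) (by rw [e1]; exact hq1)
          apply hne
          exact Prod.ext (Subtype.ext (inv_mul_eq_one.1 h3)) heq
        rw [this, measure_empty]
      · rw [inter_comm]
        exact hdis g' g hgt
    show (volume.restrict K) (S g ∩ S g') = 0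
    exact nonpos_iff_eq_zero.1 ((Measure.restrict_apply_le _ _).trans key.le)
  have hsum := tsum_meas_le_meas_iUnion_of_disjoint₀ (volume.restrict K)
    (fun g => (hSm g).nullMeasurableSet) hAE
  have hle : (volume.restrict K) (⋃ g, S g) ≤ volume K := by
    refine (measure_mono (subset_univ _)).trans ?_
    rw [Measure.restrict_apply_univ]
  -- each time contributes at least `volume A'`
  have hcontr : ∀ j : ℕ, volume A' ≤ ∑' γ : Γ, (volume.restrict K) (S (γ, j)) := by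
    intro j
    have hcov : A' ⊆ ⋃ γ : Γ, (A' ∩ TT97 (γ : ℂ ≃ₗ[ℝ] ℂ) ((j * m : ℕ) : ℝ) ⁻¹' K) := by
      intro p hp
      have hc := hsub p (hA'A p hp)
      have hexp : Real.exp ((j * m : ℕ) : ℝ) * Real.exp (-((j * m : ℕ) : ℝ)) = 1 := by
        rw [← Real.exp_add, add_neg_cancel, Real.exp_zero]
      have hc2 : cr ((Real.exp ((j * m : ℕ) : ℝ) : ℂ) * p.1)
          ((Real.exp (-((j * m : ℕ) : ℝ)) : ℂ) * p.2) = cr p.1 p.2 := by
        rw [cr_mul_left, cr_mul_right, ← mul_assoc, hexp, one_mul]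
      obtain ⟨B, hB, hBK⟩ := hK _ _ (by rw [hc2]; exact hc.1) (by rw [hc2]; exact hc.2)
      refine mem_iUnion.2 ⟨⟨B, hB⟩, hp, ?_⟩
      show TT97 B ((j * m : ℕ) : ℝ) p ∈ K
      rw [map_real_mul97, map_real_mul97] at hBK
      exact hBK
    refine (measure_mono hcov).trans ((measure_iUnion_le _).trans ?_)
    apply ENNReal.tsum_le_tsum
    intro γ
    have hmp := TT97_mp (hdetinv _ γ.2) (-((j * m : ℕ) : ℝ))
    have hmK := (TT97_mp (hΓ.det _ γ.2) ((j * m : ℕ) : ℝ)).measurable hKm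
    rw [← hmp.measure_preimage (hA'm.inter hmK).nullMeasurableSet, Measure.restrict_apply (hSm _)]
    apply measure_mono
    rintro q ⟨hq1, hq2⟩
    refine ⟨hq1, ?_⟩
    rw [mem_preimage, TT97_inv'] at hq2
    exact hq2
  have htop : ∑' g : Γ × ℕ, (volume.restrict K) (S g) = ⊤ := by
    rw [ENNReal.tsum_prod', ENNReal.tsum_comm]
    have : (∑' _ : ℕ, volume A') = ⊤ := ENNReal.tsum_const_eq_top_of_ne_zero hk.ne'
    rw [eq_top_iff, ← this]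
    exact ENNReal.tsum_le_tsum hcontr
  rw [htop] at hsum
  exact absurd (hsum.trans hle) (not_le.2 hKfin)

end Pool.Agent.Helper87.LS
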