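import Pool.Agent.Helper87.LS.Grid

/-!
BLOCK LS-U. Averages over time shifts of the correlation function are small.

Let `M = μ univ`. Choose `K ≥ 1` with `M / K ≤ ε/2`, then `ε' = ε/(2K)`, `δ` from `near_id` for `ε'`, and
`h > 0` with `K h < δ`. Grid mesh `h/2`, `P = grid (h/2)`. For a unit vector `u`, `t ≥ K h` and `k < K` let
`A k = {x | P (F ((t - k h) u) x) = P x}`. For `k < k' < K`, `j = k' - k`: for a.e. `x ∈ A k ∩ A k'`, with
`y = F ((t - k' h) u) x`, `F_comp_ae` gives `F (j h u) y = F ((t - k h) u) x`, so `P (F (j h u) y) = P y`.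
As `F` preserves `μ`, `μ (A k ∩ A k') ≤ μ {y | P (F (j h u) y) = P y} ≤ μ {y | F (j h u) y ≠ y + j h u} ≤ ε'`
(if `F w y = y + w`, a.e. `y, y + w ∈ D`, `‖w‖ = j h ≥ h = 2 (h/2)`, then `grid_ne`).
Pointwise `∑ 1_{A k} ≤ 1 + ∑_{k<k'} 1_{A k ∩ A k'}` (`c ≤ 1 + c(c-1)/2`), so
`∑ μ (A k) ≤ M + K² ε' ≤ K ε/2 + K ε/2`.
(`A k` is measurable: `measurable_F`, `grid_part`.)
-/

open MeasureTheory Set

namespace Pool.Agent.Helper87.LS

namespace Surf

variable (S : Surf)

/-- Bonferroni inequality -/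
theorem bonf87 (A : ℕ → Set ℂ) (hA : ∀ k, MeasurableSet (A k)) (n : ℕ) :
    ∑ k ∈ Finset.range n, S.μ.real (A k) ≤ S.μ.real (⋃ k ∈ Finset.range n, A k) +
      ∑ k' ∈ Finset.range n, ∑ k ∈ Finset.range k', S.μ.real (A k ∩ A k') := by
  induction n with
  | zero => simp
  | succ n ih =>
    rw [Finset.sum_range_succ, Finset.sum_range_succ]
    have hU : (⋃ k ∈ Finset.range (n + 1), A k) = (⋃ k ∈ Finset.range n, A k) ∪ A n := by
      rw [Finset.range_add_one, Finset.set_biUnion_insert, union_comm]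
    have h1 := measureReal_union_add_inter (μ := S.μ) (s := ⋃ k ∈ Finset.range n, A k) (hA n)
      (measure_ne_top _ _) (measure_ne_top _ _)
    have h2 : S.μ.real ((⋃ k ∈ Finset.range n, A k) ∩ A n) ≤
        ∑ k ∈ Finset.range n, S.μ.real (A k ∩ A n) := by
      have h3 : (⋃ k ∈ Finset.range n, A k) ∩ A n = ⋃ k ∈ Finset.range n, (A k ∩ A n) := by
        ext x
        simp only [mem_inter_iff, mem_iUnion, exists_prop]
        constructor
        · rintro ⟨⟨k, hk, hx⟩, hn⟩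
          exact ⟨k, hk, hx, hn⟩
        · rintro ⟨k, hk, hx, hn⟩
          exact ⟨⟨k, hk, hx⟩, hn⟩
      rw [h3]
      exact measureReal_biUnion_finset_le _ _
    rw [hU]
    linarith

/-- one pair -/
theorem pair87 {h δ ε' : ℝ} (hh : 0 < h)
    (hδ : ∀ w : ℂ, ‖w‖ < δ → S.μ.real {x | S.F w x ≠ x + w} ≤ ε') {u : ℂ} (hu : ‖u‖ = 1)
    {a b : ℝ} (ha : 0 < a) (hb : h ≤ b) (hbδ : b < δ) :
    S.μ.real ({x | S.grid (h / 2) (S.F (((a + b : ℝ) : ℂ) * u) x) = S.grid (h / 2) x} ∩
      {x | S.grid (h / 2) (S.F ((a : ℂ) * u) x) = S.grid (h / 2) x}) ≤ ε' := by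
  have hb0 : 0 < b := lt_of_lt_of_le hh hb
  have hnorm : ‖(b : ℂ) * u‖ = b := by
    rw [norm_mul, hu, mul_one, Complex.norm_real, Real.norm_of_nonneg hb0.le]
  have hm : Measurable (S.grid (h / 2)) := (S.grid_part (by positivity)).1
  have hmB : MeasurableSet {y | S.grid (h / 2) (S.F ((b : ℂ) * u) y) = S.grid (h / 2) y} :=
    measurableSet_eq_fun (hm.comp (S.measurable_F _)) hm
  have h1 : S.μ.real ({x | S.grid (h / 2) (S.F (((a + b : ℝ) : ℂ) * u) x) = S.grid (h / 2) x} ∩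
      {x | S.grid (h / 2) (S.F ((a : ℂ) * u) x) = S.grid (h / 2) x}) ≤
      S.μ.real (S.F ((a : ℂ) * u) ⁻¹' {y | S.grid (h / 2) (S.F ((b : ℂ) * u) y) = S.grid (h / 2) y}) := by
    refine ENNReal.toReal_mono (measure_ne_top _ _) (measure_mono_ae ?_)
    filter_upwards [S.F_comp_ae u ha hb0] with x hx hx2
    obtain ⟨e1, e2⟩ := hx2
    change S.grid (h / 2) (S.F ((b : ℂ) * u) (S.F ((a : ℂ) * u) x)) =
      S.grid (h / 2) (S.F ((a : ℂ) * u) x)
    rw [hx]
    exact e1.trans e2.symm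
  refine h1.trans ?_
  rw [(S.measurePreserving_F _).measureReal_preimage hmB.nullMeasurableSet]
  have h2 : S.μ.real {y | S.grid (h / 2) (S.F ((b : ℂ) * u) y) = S.grid (h / 2) y} ≤
      S.μ.real {x | S.F ((b : ℂ) * u) x ≠ x + (b : ℂ) * u} := by
    refine ENNReal.toReal_mono (measure_ne_top _ _) (measure_mono_ae ?_)
    have hD : ∀ᵐ x ∂S.μ, x ∈ S.D := ae_restrict_mem S.measurableSet_D
    filter_upwards [hD, S.ae_straight ((b : ℂ) * u)] with y hyD hys hy
    change S.F ((b : ℂ) * u) y ≠ y + (b : ℂ) * u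
    intro heq
    have hy2 : y + (b : ℂ) * u ∈ S.D := by
      rw [← heq]; exact straight_right hys
    have h3 := S.grid_ne (h := h / 2) (by positivity) hyD hy2 (by rw [hnorm]; linarith)
    apply h3
    rw [← heq]
    exact hy
  exact h2.trans (hδ _ (by rw [hnorm]; exact hbδ))

theorem lemU {ε : ℝ} (hε : 0 < ε) :
    ∃ (K : ℕ) (h : ℝ), 0 < K ∧ 0 < h ∧ ∀ u : ℂ, ‖u‖ = 1 → ∀ t : ℝ, K * h ≤ t →
      ∑ k ∈ Finset.range K, S.Dq (S.grid (h / 2)) (((t - k * h : ℝ) : ℂ) * u) ≤ ε * K := by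
  set M := S.μ.real univ with hM
  have hM0 : 0 ≤ M := measureReal_nonneg
  obtain ⟨K, hK⟩ := exists_nat_gt (2 * M / ε)
  have hK0 : (0 : ℝ) < K := lt_of_le_of_lt (by positivity) hK
  have hKn : 0 < K := by exact_mod_cast hK0
  have hMK : M ≤ K * ε / 2 := by
    rw [div_lt_iff₀ hε] at hK
    linarith
  obtain ⟨δ, hδ, hnear⟩ := S.near_id (ε := ε / (2 * K)) (by positivity)
  set h : ℝ := δ / (K + 1) with hh
  have hh0 : 0 < h := by positivity
  have hKh : K * h < δ := by
    rw [hh, mul_div_assoc', div_lt_iff₀ (by positivity)]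
    nlinarith
  refine ⟨K, h, hKn, hh0, fun u hu t ht => ?_⟩
  set A : ℕ → Set ℂ := fun k =>
    {x | S.grid (h / 2) (S.F (((t - k * h : ℝ) : ℂ) * u) x) = S.grid (h / 2) x} with hA
  have hm : Measurable (S.grid (h / 2)) := (S.grid_part (by positivity)).1
  have hAm : ∀ k, MeasurableSet (A k) := fun k =>
    measurableSet_eq_fun (hm.comp (S.measurable_F _)) hm
  have hb := S.bonf87 A hAm K
  have hU : S.μ.real (⋃ k ∈ Finset.range K, A k) ≤ M := measureReal_mono (subset_univ _)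
  have hpair : ∑ k' ∈ Finset.range K, ∑ k ∈ Finset.range k', S.μ.real (A k ∩ A k') ≤
      ∑ k' ∈ Finset.range K, (K : ℝ) * (ε / (2 * K)) := by
    refine Finset.sum_le_sum fun k' hk' => ?_
    have hk'K : k' < K := Finset.mem_range.mp hk'
    calc ∑ k ∈ Finset.range k', S.μ.real (A k ∩ A k')
        ≤ ∑ k ∈ Finset.range k', (ε / (2 * K)) := by
          refine Finset.sum_le_sum fun k hk => ?_
          have hkk : k < k' := Finset.mem_range.mp hk
          have c1 : (k' : ℝ) + 1 ≤ K := by exact_mod_cast hk'K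
          have c2 : (k : ℝ) + 1 ≤ k' := by exact_mod_cast hkk
          have c3 : (0 : ℝ) ≤ k := Nat.cast_nonneg k
          have ha : 0 < t - k' * h := by nlinarith
          have hb1 : h ≤ (k' - k) * h := by nlinarith
          have hb2 : (k' - k) * h < δ := by nlinarith
          have := S.pair87 hh0 hnear hu ha hb1 hb2
          have e1 : t - k' * h + (k' - k) * h = t - k * h := by ring
          rw [e1] at this
          exact this
      _ = k' * (ε / (2 * K)) := by rw [Finset.sum_const, Finset.card_range, nsmul_eq_mul]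
      _ ≤ K * (ε / (2 * K)) := by
          refine mul_le_mul_of_nonneg_right ?_ (by positivity)
          exact_mod_cast hk'K.le
  rw [Finset.sum_const, Finset.card_range, nsmul_eq_mul] at hpair
  have e2 : (K : ℝ) * (K * (ε / (2 * K))) = K * ε / 2 := by field_simp
  rw [e2] at hpair
  change ∑ k ∈ Finset.range K, S.μ.real (A k) ≤ ε * K
  linarith

end Surf

end Pool.Agent.Helper87.LS
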