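import Pool.Agent.Helper87.LS.Geo

/-!
BLOCK LS-N. The map `u ↦ ‖A u‖/‖u‖` is nonsingular if `A` has determinant one and is not an isometry.

(1) `{θ : ℝ | Real.cos θ ∈ N}` is null if `N ⊆ ℝ` is null: up to the countable set `{cos θ = ±1}` it is the
union over `k ∈ ℤ` of `2πk ± arccos '' (N ∩ (-1,1))`, and the image of a null set under a function which is
differentiable on it is null (`MeasureTheory.addHaar_image_eq_zero_of_differentiableOn_of_addHaar_eq_zero`).
(2) `‖A e^{iθ}‖² = p + q cos (2θ) + r sin (2θ) = p + ρ cos (2θ - φ)` with `ρ = √(q²+r²)`. Here `ρ ≠ 0`: otherwise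
`‖A v‖ = √p ‖v‖` for all `v`, the determinant has absolute value `p`, so `p = 1`, against `‖A u1‖ < ‖u1‖`.
(3) So `{θ | ‖A e^{iθ}‖ ∈ N}` is null: it is contained in the set where `cos (2θ - φ)` is in the null set
`{(s² - p)/ρ | s ∈ N}` (image of a null set under a smooth function), and `θ ↦ 2θ - φ` is affine.
(4) Polar coordinates (`Complex.lintegral_comp_polarCoord_symm` or `MeasureTheory` polar coordinates):
`‖A u‖/‖u‖` depends only on the argument. (Replace `N` by a measurable null superset first.)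
-/

open MeasureTheory Set Filter

namespace Pool.Agent.Helper87.LS

/-- The preimage of a null set under the cosine is null. -/
theorem volume_cos_preimage {N : Set ℝ} (hN : volume N = 0) :
    volume {θ : ℝ | Real.cos θ ∈ N} = 0 := by
  set M : Set ℝ := N ∩ Ioo (-1) 1 with hM
  have hM0 : volume M = 0 := measure_mono_null inter_subset_left hN
  have h1 : volume (Real.arccos '' M) = 0 := by
    apply addHaar_image_eq_zero_of_differentiableOn_of_addHaar_eq_zero volume _ hM0
    intro x hx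
    exact (Real.differentiableAt_arccos.mpr ⟨hx.2.1.ne', hx.2.2.ne⟩).differentiableWithinAt
  have h2 : ∀ k : ℤ, volume ((fun x : ℝ => 2 * k * Real.pi + x) '' (Real.arccos '' M)) = 0 := by
    intro k
    apply addHaar_image_eq_zero_of_differentiableOn_of_addHaar_eq_zero volume _ h1
    exact Differentiable.differentiableOn (by fun_prop)
  have h3 : ∀ k : ℤ, volume ((fun x : ℝ => 2 * k * Real.pi - x) '' (Real.arccos '' M)) = 0 := by
    intro k
    apply addHaar_image_eq_zero_of_differentiableOn_of_addHaar_eq_zero volume _ h1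
    exact Differentiable.differentiableOn (by fun_prop)
  have h4 : volume (⋃ k : ℤ, ((fun x : ℝ => 2 * k * Real.pi + x) '' (Real.arccos '' M)) ∪
      ((fun x : ℝ => 2 * k * Real.pi - x) '' (Real.arccos '' M))) = 0 :=
    measure_iUnion_null fun k => measure_union_null (h2 k) (h3 k)
  have h5 : volume (range (fun k : ℤ => (k : ℝ) * Real.pi)) = 0 :=
    (countable_range _).measure_zero _
  refine measure_mono_null ?_ (measure_union_null h4 h5)
  intro θ hθ
  simp only [mem_ofPred_eq] at hθ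
  by_cases hs : Real.sin θ = 0
  · right
    rw [Real.sin_eq_zero_iff] at hs
    obtain ⟨k, hk⟩ := hs
    exact ⟨k, hk⟩
  · left
    have hc : Real.cos θ ∈ M := by
      refine ⟨hθ, ?_, ?_⟩
      · refine lt_of_le_of_ne (Real.neg_one_le_cos θ) fun h => hs ?_
        have := Real.sin_sq_add_cos_sq θ
        rw [← h] at this
        have : Real.sin θ ^ 2 = 0 := by linarith
        exact pow_eq_zero_iff (two_ne_zero) |>.mp this
      · refine lt_of_le_of_ne (Real.cos_le_one θ) fun h => hs ?_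
        have := Real.sin_sq_add_cos_sq θ
        rw [h] at this
        have : Real.sin θ ^ 2 = 0 := by linarith
        exact pow_eq_zero_iff (two_ne_zero) |>.mp this
    have h6 : Real.cos (Real.arccos (Real.cos θ)) = Real.cos θ :=
      Real.cos_arccos (Real.neg_one_le_cos θ) (Real.cos_le_one θ)
    rw [Real.cos_eq_cos_iff] at h6
    obtain ⟨k, hk⟩ := h6
    refine mem_iUnion.mpr ⟨k, ?_⟩
    rcases hk with hk | hk
    · exact Or.inl ⟨_, ⟨_, hc, rfl⟩, hk.symm⟩
    · exact Or.inr ⟨_, ⟨_, hc, rfl⟩, hk.symm⟩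

/-- The norm of `A e^{iθ}`. -/
theorem norm_sq_exp (A : ℂ ≃ₗ[ℝ] ℂ) (hdet : LinearMap.det (A : ℂ →ₗ[ℝ] ℂ) = 1) {u1 : ℂ}
    (h1 : ‖A u1‖ < ‖u1‖) : ∃ p ρ φ : ℝ, ρ ≠ 0 ∧
      ∀ θ : ℝ, ‖A (Real.cos θ + Real.sin θ * Complex.I)‖ ^ 2 = p + ρ * Real.cos (2 * θ - φ) := by
  set x := (A 1).re with hx
  set y := (A 1).im with hy
  set z := (A Complex.I).re with hz
  set w := (A Complex.I).im with hw
  have hA : ∀ a b : ℝ, A (a + b * Complex.I) = (a : ℂ) * A 1 + b * A Complex.I := by
    intro a b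
    have h2 : (a : ℂ) + b * Complex.I = a • (1 : ℂ) + b • Complex.I := by
      simp
    rw [h2, map_add, map_smul, map_smul]
    simp
  have hN : ∀ a b : ℝ, ‖A (a + b * Complex.I)‖ ^ 2 = (a * x + b * z) ^ 2 + (a * y + b * w) ^ 2 := by
    intro a b
    rw [hA, ← Complex.normSq_eq_norm_sq, Complex.normSq_apply]
    simp [hx, hy, hz, hw]
    ring
  have hd : x * w - z * y = 1 := by
    rw [← LinearMap.det_toMatrix Complex.basisOneI, Matrix.det_fin_two] at hdet
    simp only [LinearMap.toMatrix_apply, Complex.coe_basisOneI, LinearEquiv.coe_coe,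
      Complex.coe_basisOneI_repr, Matrix.cons_val_zero, Matrix.cons_val_one] at hdet
    simpa [hx, hy, hz, hw] using hdet
  set q : ℝ := ((x ^ 2 + y ^ 2) - (z ^ 2 + w ^ 2)) / 2 with hq
  set r : ℝ := x * z + y * w with hr
  set ζ : ℂ := ⟨q, r⟩ with hζ
  refine ⟨((x ^ 2 + y ^ 2) + (z ^ 2 + w ^ 2)) / 2, ‖ζ‖, Complex.arg ζ, ?_, ?_⟩
  · intro h0
    rw [norm_eq_zero] at h0
    have hq0 : q = 0 := by
      have := congrArg Complex.re h0
      simpa [hζ] using this
    have hr0 : r = 0 := by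
      have := congrArg Complex.im h0
      simpa [hζ] using this
    have h2 : x ^ 2 + y ^ 2 = z ^ 2 + w ^ 2 := by
      have : (x ^ 2 + y ^ 2) - (z ^ 2 + w ^ 2) = 0 := by
        have h3 : ((x ^ 2 + y ^ 2) - (z ^ 2 + w ^ 2)) / 2 = 0 := hq0
        linarith
      linarith
    have h3 : (x ^ 2 + y ^ 2) * (z ^ 2 + w ^ 2) = (x * w - z * y) ^ 2 + (x * z + y * w) ^ 2 := by
      ring
    have h3' : x * z + y * w = 0 := hr0
    rw [hd, h3', ← h2] at h3
    have h4 : x ^ 2 + y ^ 2 = 1 := by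
      nlinarith [sq_nonneg x, sq_nonneg y]
    have h5 := hN u1.re u1.im
    rw [Complex.re_add_im] at h5
    have h6 : ‖u1‖ ^ 2 = u1.re ^ 2 + u1.im ^ 2 := by
      rw [← Complex.normSq_eq_norm_sq, Complex.normSq_apply]; ring
    have h7 : ‖A u1‖ ^ 2 = ‖u1‖ ^ 2 := by
      rw [h5, h6]
      have : (u1.re * x + u1.im * z) ^ 2 + (u1.re * y + u1.im * w) ^ 2
        = u1.re ^ 2 * (x ^ 2 + y ^ 2) + u1.im ^ 2 * (z ^ 2 + w ^ 2)
          + 2 * u1.re * u1.im * (x * z + y * w) := by ring
      rw [this, h3', ← h2, h4]; ring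
    have h8 : ‖A u1‖ ^ 2 < ‖u1‖ ^ 2 := by
      have := norm_nonneg (A u1)
      nlinarith
    linarith
  · intro θ
    rw [hN, Real.cos_sub]
    have hre : ‖ζ‖ * Real.cos (Complex.arg ζ) = q := by
      rw [Complex.norm_mul_cos_arg]
    have him : ‖ζ‖ * Real.sin (Complex.arg ζ) = r := by
      rw [Complex.norm_mul_sin_arg]
    have h2 : ‖ζ‖ * (Real.cos (2 * θ) * Real.cos (Complex.arg ζ) + Real.sin (2 * θ) *
        Real.sin (Complex.arg ζ)) = q * Real.cos (2 * θ) + r * Real.sin (2 * θ) := by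
      rw [← hre, ← him]; ring
    rw [h2, Real.cos_two_mul, Real.sin_two_mul, hq, hr]
    have h3 := Real.sin_sq_add_cos_sq θ
    have h4 : Real.cos θ ^ 2 = 1 - Real.sin θ ^ 2 := by linarith
    ring_nf
    rw [h4]
    ring

theorem nonsing (A : ℂ ≃ₗ[ℝ] ℂ) (hdet : LinearMap.det (A : ℂ →ₗ[ℝ] ℂ) = 1) {u1 : ℂ}
    (h1 : ‖A u1‖ < ‖u1‖) {N : Set ℝ} (hN : volume N = 0) :
    volume {u : ℂ | ‖A u‖ / ‖u‖ ∈ N} = 0 := by
  classical
  obtain ⟨p, ρ, φ, hρ, hA⟩ := norm_sq_exp A hdet h1
  -- replace `N` by a measurable null set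
  set N' := toMeasurable volume N with hN'
  have hN0 : volume N' = 0 := by rw [hN', measure_toMeasurable, hN]
  have hNm : MeasurableSet N' := measurableSet_toMeasurable _ _
  have hNN : N ⊆ N' := subset_toMeasurable _ _
  refine measure_mono_null (t := {u : ℂ | ‖A u‖ / ‖u‖ ∈ N'}) (fun u hu => hNN hu) ?_
  -- the set of angles is null
  have hang : volume {θ : ℝ | ‖A (Real.cos θ + Real.sin θ * Complex.I)‖ ∈ N'} = 0 := by
    have h2 : volume ((fun s : ℝ => (s ^ 2 - p) / ρ) '' N') = 0 := by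
      apply addHaar_image_eq_zero_of_differentiableOn_of_addHaar_eq_zero volume _ hN0
      exact Differentiable.differentiableOn (by fun_prop)
    have h3 := volume_cos_preimage h2
    have h4 : volume ((fun t : ℝ => (t + φ) / 2) '' {t : ℝ | Real.cos t ∈
        ((fun s : ℝ => (s ^ 2 - p) / ρ) '' N')}) = 0 := by
      apply addHaar_image_eq_zero_of_differentiableOn_of_addHaar_eq_zero volume _ h3
      exact Differentiable.differentiableOn (by fun_prop)
    refine measure_mono_null ?_ h4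
    intro θ hθ
    refine ⟨2 * θ - φ, ⟨_, hθ, ?_⟩, by ring⟩
    simp only
    rw [hA θ]
    field_simp
    ring
  have hmA : Measurable fun u : ℂ => A u :=
    (LinearMap.continuous_of_finiteDimensional (A : ℂ →ₗ[ℝ] ℂ)).measurable
  have hm : MeasurableSet {u : ℂ | ‖A u‖ / ‖u‖ ∈ N'} := by
    have : Measurable fun u : ℂ => ‖A u‖ / ‖u‖ := hmA.norm.div measurable_norm
    exact this hNm
  have key := Complex.lintegral_comp_polarCoord_symm
    ({u : ℂ | ‖A u‖ / ‖u‖ ∈ N'}.indicator (fun _ => (1 : ENNReal)))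
  rw [lintegral_indicator hm, lintegral_one, Measure.restrict_apply_univ] at key
  rw [← key]
  -- the integrand vanishes almost everywhere on the target
  have hnull : volume ((univ : Set ℝ) ×ˢ
      {θ : ℝ | ‖A (Real.cos θ + Real.sin θ * Complex.I)‖ ∈ N'}) = 0 := by
    rw [Measure.volume_eq_prod, Measure.prod_prod, hang, mul_zero]
  have hae : ∀ᵐ q : ℝ × ℝ ∂(volume.restrict polarCoord.target),
      ENNReal.ofReal q.1 • ({u : ℂ | ‖A u‖ / ‖u‖ ∈ N'}.indicator (fun _ => (1 : ENNReal)))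
        (Complex.polarCoord.symm q) = 0 := by
    rw [ae_restrict_iff' polarCoord.open_target.measurableSet]
    have h5 : ∀ᵐ q : ℝ × ℝ, q ∉ (univ : Set ℝ) ×ˢ
      {θ : ℝ | ‖A (Real.cos θ + Real.sin θ * Complex.I)‖ ∈ N'} := by
      rw [ae_iff]
      simp only [not_not]
      exact hnull
    filter_upwards [h5] with q hq hqt
    have h0 : 0 < q.1 := by
      rw [polarCoord_target] at hqt
      exact hqt.1
    rw [indicator_of_notMem, smul_zero]
    intro h6
    apply hq
    refine ⟨mem_univ _, ?_⟩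
    simp only [mem_ofPred_eq] at h6 ⊢
    rw [Complex.polarCoord_symm_apply] at h6
    have h7 : A ((q.1 : ℂ) * (Real.cos q.2 + Real.sin q.2 * Complex.I))
        = (q.1 : ℂ) * A (Real.cos q.2 + Real.sin q.2 * Complex.I) := by
      rw [← Complex.real_smul, map_smul, Complex.real_smul]
    have h9 : ‖(Real.cos q.2 : ℂ) + Real.sin q.2 * Complex.I‖ = 1 := by
      rw [Complex.ofReal_cos, Complex.ofReal_sin, Complex.norm_cos_add_sin_mul_I]
    rw [h7, norm_mul, norm_mul, h9, mul_one, mul_div_cancel_left₀] at h6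
    · exact h6
    · simp [h0.ne']
  rw [lintegral_congr_ae hae, lintegral_zero]

end Pool.Agent.Helper87.LS
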