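import Mathlib

/-!
BLOCK LS-V. One-dimensional lemma (helper20).

Suppose `volume S ≠ 0`. Put `S_N = {s ∈ S | ∀ n ≥ N, 3m/4 ≤ g (t n * s)}`; `S = ⋃ S_N`, so some `S_N` has
positive outer measure. By the Lebesgue density theorem (`Besicovitch.ae_tendsto_measure_inter_div`) there
are `x > r > 0` with `volume (S_N ∩ [x-r, x+r]) > (1/2) volume [x-r, x+r]`. For `n ≥ N` with `T = t n > 0`:
`∫_J g (T s) ds ≥ (3m/8) |J|` by Markov's inequality.
On the other hand (`oneD_avg`), with `α = T a`, `β = T b`, `J = [a, b]`: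
`K ∫_α^β g = ∑_{k<K} ∫_{α+kh}^{β+kh} g (τ - k h) dτ ≤ ∫_{α}^{β+Kh} ∑_k g (τ - k h) dτ ≤ (m/4) K (β - α + K h)`.
-/

open MeasureTheory Set Filter

namespace Pool.Agent.Helper87.LS

theorem oneD_avg0 {g : ℝ → ℝ} (hg : Continuous g) (h0 : ∀ t, 0 ≤ g t)
    {K : ℕ} {h : ℝ} (hK : 0 < K) (hh : 0 < h) {m : ℝ}
    (hU : ∀ t : ℝ, K * h ≤ t → ∑ k ∈ Finset.range K, g (t - k * h) ≤ m / 4 * K)
    {α β : ℝ} (hα : K * h ≤ α) (hαβ : α ≤ β) :
    ∫ τ in α..β, g τ ≤ m / 4 * (β - α + K * h) := by
  have hKh : 0 < (K : ℝ) * h := by positivity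
  have hKpos : (0 : ℝ) < K := by exact_mod_cast hK
  have h1 : ∀ k ∈ Finset.range K, ∫ τ in α..β, g τ ≤ ∫ τ in α..(β + K * h), g (τ - k * h) := by
    intro k hk
    have hkK : (k : ℝ) ≤ K := by exact_mod_cast (Finset.mem_range.1 hk).le
    have hkh : 0 ≤ (k : ℝ) * h := by positivity
    have hkh2 : (k : ℝ) * h ≤ K * h := by gcongr
    have h2 : ∫ τ in (α + k * h)..(β + k * h), g (τ - k * h) = ∫ τ in α..β, g τ := by
      rw [intervalIntegral.integral_comp_sub_right (fun x => g x) ((k : ℝ) * h)]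
      simp
    rw [← h2]
    have hc : Continuous (fun τ : ℝ => g (τ - k * h)) := hg.comp (continuous_id.sub continuous_const)
    apply intervalIntegral.integral_mono_interval
    · linarith
    · linarith
    · linarith
    · exact Eventually.of_forall (fun x => h0 _)
    · exact hc.intervalIntegrable _ _
  have h3 : (K : ℝ) * ∫ τ in α..β, g τ ≤ ∑ k ∈ Finset.range K,
      ∫ τ in α..(β + K * h), g (τ - k * h) := by
    calc (K : ℝ) * ∫ τ in α..β, g τ = ∑ k ∈ Finset.range K, ∫ τ in α..β, g τ := by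
          rw [Finset.sum_const, Finset.card_range, nsmul_eq_mul]
      _ ≤ _ := Finset.sum_le_sum h1
  have h4 : ∑ k ∈ Finset.range K, ∫ τ in α..(β + K * h), g (τ - k * h)
      = ∫ τ in α..(β + K * h), ∑ k ∈ Finset.range K, g (τ - k * h) := by
    rw [intervalIntegral.integral_finset_sum]
    intro k _
    exact (hg.comp (continuous_id.sub continuous_const)).intervalIntegrable _ _
  have h5 : ∫ τ in α..(β + K * h), ∑ k ∈ Finset.range K, g (τ - k * h)
      ≤ ∫ τ in α..(β + K * h), m / 4 * K := by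
    apply intervalIntegral.integral_mono_on (by linarith)
    · apply Continuous.intervalIntegrable
      exact continuous_finset_sum _ (fun k _ => hg.comp (continuous_id.sub continuous_const))
    · exact intervalIntegrable_const
    · intro x hx
      exact hU x (le_trans hα hx.1)
  rw [intervalIntegral.integral_const, smul_eq_mul] at h5
  have h6 : (K : ℝ) * ∫ τ in α..β, g τ ≤ K * (m / 4 * (β - α + K * h)) := by
    calc (K : ℝ) * ∫ τ in α..β, g τ ≤ (β + K * h - α) * (m / 4 * K) := by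
          rw [h4] at h3; exact h3.trans h5
      _ = K * (m / 4 * (β - α + K * h)) := by ring
  exact le_of_mul_le_mul_left h6 hKpos

theorem oneD_avg {g : ℝ → ℝ} (hg : Continuous g) (h0 : ∀ t, 0 ≤ g t)
    {K : ℕ} {h : ℝ} (hK : 0 < K) (hh : 0 < h) {m : ℝ}
    (hU : ∀ t : ℝ, K * h ≤ t → ∑ k ∈ Finset.range K, g (t - k * h) ≤ m / 4 * K)
    {T a b : ℝ} (hT : 0 < T) (hα : K * h ≤ T * a) (hab : a ≤ b) :
    ∫ s in a..b, g (T * s) ≤ m / 4 * (b - a + K * h / T) := by
  rw [intervalIntegral.integral_comp_mul_left (fun x => g x) hT.ne', smul_eq_mul]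
  have h1 := oneD_avg0 hg h0 hK hh hU (α := T * a) (β := T * b) hα (by gcongr)
  calc T⁻¹ * ∫ x in T * a..T * b, g x ≤ T⁻¹ * (m / 4 * (T * b - T * a + K * h)) := by
        apply mul_le_mul_of_nonneg_left h1 (by positivity)
    _ = m / 4 * (b - a + K * h / T) := by field_simp

theorem oneD {g : ℝ → ℝ} (hg : Continuous g) (h0 : ∀ t, 0 ≤ g t) {M : ℝ} (hM : ∀ t, g t ≤ M)
    {K : ℕ} {h : ℝ} (hK : 0 < K) (hh : 0 < h) {m : ℝ} (hm : 0 < m)
    (hU : ∀ t : ℝ, K * h ≤ t → ∑ k ∈ Finset.range K, g (t - k * h) ≤ m / 4 * K)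
    {t : ℕ → ℝ} (ht : Tendsto t atTop atTop) {S : Set ℝ} (hS : MeasurableSet S)
    (hS0 : S ⊆ Ioi 0) (hSm : ∀ s ∈ S, ∀ᶠ n in atTop, 3 * m / 4 ≤ g (t n * s)) :
    volume S = 0 := by
  by_contra hSpos
  set SN : ℕ → Set ℝ := fun N => {s ∈ S | ∀ n ≥ N, 3 * m / 4 ≤ g (t n * s)} with hSN
  have hcover : S ⊆ ⋃ N, SN N := by
    intro s hs
    obtain ⟨N, hN⟩ := eventually_atTop.1 (hSm s hs)
    exact mem_iUnion.2 ⟨N, hs, hN⟩
  have hex : ∃ N, volume (SN N) ≠ 0 := by
    by_contra hno
    push Not at hno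
    exact hSpos (measure_mono_null hcover (measure_iUnion_null hno))
  obtain ⟨N, hN⟩ := hex
  have hae := Besicovitch.ae_tendsto_measure_inter_div (volume : Measure ℝ) (SN N)
  -- a density point
  have hpt : ∃ x ∈ SN N, Tendsto (fun r => volume (SN N ∩ Metric.closedBall x r)
      / volume (Metric.closedBall x r)) (nhdsWithin 0 (Ioi 0)) (nhds 1) := by
    by_contra hno
    push Not at hno
    rw [ae_iff] at hae
    have h1 : volume.restrict (SN N) (SN N) ≤ 0 := by
      refine le_trans (measure_mono ?_) (le_of_eq hae)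
      intro x hx
      exact hno x hx
    have h2 : volume (SN N) ≤ volume.restrict (SN N) (SN N) := by
      have := Measure.le_restrict_apply (μ := (volume : Measure ℝ)) (SN N) (SN N)
      simpa using this
    exact hN (le_antisymm (h2.trans h1) bot_le)
  obtain ⟨x, hx, hxt⟩ := hpt
  have hx0 : 0 < x := hS0 hx.1
  have hev : ∀ᶠ r in nhdsWithin (0 : ℝ) (Ioi 0), (1 / 2 : ENNReal) < volume (SN N ∩ Metric.closedBall x r)
      / volume (Metric.closedBall x r) := by
    apply hxt.eventually (lt_mem_nhds _)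
    exact ENNReal.half_lt_self one_ne_zero ENNReal.one_ne_top
  have hev2 : ∀ᶠ r in nhdsWithin (0 : ℝ) (Ioi 0), r < x :=
    (eventually_lt_nhds hx0).filter_mono nhdsWithin_le_nhds
  have hev3 : ∀ᶠ r in nhdsWithin (0 : ℝ) (Ioi 0), 0 < r := self_mem_nhdsWithin
  obtain ⟨r, hr1, hrx, hr0⟩ := (hev.and (hev2.and hev3)).exists
  rw [Real.closedBall_eq_Icc] at hr1
  set a := x - r with ha
  set b := x + r with hb
  have ha0 : 0 < a := by rw [ha]; linarith
  have hab : a < b := by rw [ha, hb]; linarith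
  have hvol : volume (Icc a b) = ENNReal.ofReal (b - a) := Real.volume_Icc
  have hr2 : (b - a) / 2 ≤ volume.real (SN N ∩ Icc a b) := by
    have h1 : (1 / 2 : ENNReal) * volume (Icc a b) ≤ volume (SN N ∩ Icc a b) := by
      have := hr1.le
      rw [ENNReal.le_div_iff_mul_le] at this
      · exact this
      · left; rw [hvol]; simp [hab]
      · left; rw [hvol]; simp
    have h2 : volume (SN N ∩ Icc a b) ≠ ⊤ := by
      refine ne_top_of_le_ne_top ?_ (measure_mono inter_subset_right)
      rw [hvol]; simp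
    have h3 := (ENNReal.toReal_le_toReal (ENNReal.mul_ne_top (by norm_num) (by rw [hvol]; simp)) h2).2 h1
    rw [ENNReal.toReal_mul, hvol, ENNReal.toReal_ofReal (by linarith)] at h3
    have h4 : (1 / 2 : ENNReal).toReal = 1 / 2 := by simp
    rw [h4] at h3
    have : (b - a) / 2 = 1 / 2 * (b - a) := by ring
    rw [this]
    exact h3
  -- choose n
  have hn1 : ∀ᶠ n in atTop, max (K * h / a) (4 * (K * h) / (b - a)) < t n := ht.eventually_gt_atTop _
  obtain ⟨n, hn, hnN⟩ := (hn1.and (eventually_ge_atTop N)).exists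
  have hKh : 0 < (K : ℝ) * h := by
    have : (0 : ℝ) < K := by exact_mod_cast hK
    positivity
  set T := t n with hT
  have hT1 : K * h / a < T := lt_of_le_of_lt (le_max_left _ _) hn
  have hT2 : 4 * (K * h) / (b - a) < T := lt_of_le_of_lt (le_max_right _ _) hn
  have hTpos : 0 < T := lt_trans (by positivity) hT1
  have hba : 0 < b - a := by linarith
  have hTa : K * h ≤ T * a := by
    rw [div_lt_iff₀ ha0] at hT1
    exact hT1.le
  have hup := oneD_avg hg h0 hK hh hU hTpos hTa hab.le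
  have hcT : Continuous (fun s : ℝ => g (T * s)) := hg.comp (continuous_const.mul continuous_id)
  have hlow : 3 * m / 4 * ((b - a) / 2) ≤ ∫ s in a..b, g (T * s) := by
    rw [intervalIntegral.integral_of_le hab.le, ← integral_Icc_eq_integral_Ioc]
    have hint : IntegrableOn (fun s : ℝ => g (T * s)) (Icc a b) := hcT.integrableOn_Icc
    have hmk := mul_meas_ge_le_integral_of_nonneg (μ := volume.restrict (Icc a b))
      (f := fun s : ℝ => g (T * s)) (Eventually.of_forall (fun s => h0 _)) hint (3 * m / 4)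
    refine le_trans ?_ hmk
    apply mul_le_mul_of_nonneg_left _ (by positivity)
    refine hr2.trans ?_
    have hms : MeasurableSet {s : ℝ | 3 * m / 4 ≤ g (T * s)} :=
      (isClosed_le continuous_const hcT).measurableSet
    rw [measureReal_restrict_apply hms]
    apply measureReal_mono
    · rintro s ⟨hs, hs2⟩
      exact ⟨hs.2 n hnN, hs2⟩
    · refine ne_top_of_le_ne_top ?_ (measure_mono inter_subset_right)
      rw [hvol]; simp
  have hfin : K * h / T < (b - a) / 4 := by
    rw [div_lt_iff₀ hba] at hT2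
    rw [div_lt_div_iff₀ hTpos (by norm_num)]
    nlinarith
  have : 3 * m / 4 * ((b - a) / 2) ≤ m / 4 * (b - a + (b - a) / 4) := by
    refine hlow.trans (hup.trans ?_)
    apply mul_le_mul_of_nonneg_left _ (by positivity)
    linarith
  nlinarith [mul_pos hm hba]

end Pool.Agent.Helper87.LS
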