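import Pool.Agent.Helper87.LS.Defs

/-!
BLOCK LS-O. A set of angles is null if its cone is null.

Let `Z ⊇ cone E` be measurable and null. By polar coordinates
(`Complex.lintegral_comp_polarCoord_symm` applied to the indicator of `Z`), for a.e. `θ ∈ (-π, π)` the set
`{r > 0 | r e^{iθ} ∈ Z}` is null; for `θ ∈ E` it is all of `(0, ∞)`. So `E ∩ (-π, π)` is null. For `k : ℤ`,
`E_k = {θ | θ + 2πk ∈ E}` has the same cone, so `E_k ∩ (-π,π)` is null; `E` is contained in the union of the
translates of these sets and the countable set `{π + 2πk}`.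
-/

open MeasureTheory Set Filter

namespace Pool.Agent.Helper87.LS

/-- The cone over a set of directions. -/
def cone (E : Set ℝ) : Set ℂ := {z | z ≠ 0 ∧ ∃ θ ∈ E, z = ‖z‖ * Complex.exp (θ * Complex.I)}

/-- The preimage of a null set under polar coordinates is null. -/
theorem volume_polar_preimage {Z : Set ℂ} (h : volume Z = 0) :
    volume {p : ℝ × ℝ | p ∈ polarCoord.target ∧ Complex.polarCoord.symm p ∈ Z} = 0 := by
  classical
  have hZ' : volume (toMeasurable volume Z) = 0 := by rw [measure_toMeasurable, h]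
  set Z' := toMeasurable volume Z with hZ'def
  have hm : MeasurableSet Z' := measurableSet_toMeasurable _ _
  have hsub : Z ⊆ Z' := subset_toMeasurable _ _
  have key := Complex.lintegral_comp_polarCoord_symm (Z'.indicator (fun _ => (1 : ENNReal)))
  rw [lintegral_indicator hm, lintegral_one, Measure.restrict_apply_univ, hZ'] at key
  have hmeas : Measurable (fun p : ℝ × ℝ => ENNReal.ofReal p.1 •
      (Z'.indicator (fun _ => (1 : ENNReal)) (Complex.polarCoord.symm p))) := by
    have h1 : Measurable (fun p : ℝ × ℝ => Complex.polarCoord.symm p) := by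
      have : (fun p : ℝ × ℝ => Complex.polarCoord.symm p)
          = fun p => (p.1 : ℂ) * (Real.cos p.2 + Real.sin p.2 * Complex.I) := by
        ext p; rw [Complex.polarCoord_symm_apply]
      rw [this]
      fun_prop
    have h2 : Measurable (fun p : ℝ × ℝ => ENNReal.ofReal p.1) :=
      ENNReal.measurable_ofReal.comp measurable_fst
    exact h2.smul ((measurable_const.indicator hm).comp h1)
  rw [lintegral_eq_zero_iff hmeas] at key
  rw [Filter.EventuallyEq, ae_restrict_iff' polarCoord.open_target.measurableSet] at key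
  have : {p : ℝ × ℝ | p ∈ polarCoord.target ∧ Complex.polarCoord.symm p ∈ Z}
      ⊆ {p | ¬ (p ∈ polarCoord.target → ENNReal.ofReal p.1 •
      (Z'.indicator (fun _ => (1 : ENNReal)) (Complex.polarCoord.symm p)) = (0 : ℝ × ℝ → ENNReal) p)} := by
    rintro p ⟨hp, hpZ⟩
    simp only [mem_ofPred_eq, Classical.not_imp]
    refine ⟨hp, ?_⟩
    rw [indicator_of_mem (hsub hpZ)]
    have h0 : 0 < p.1 := by
      rw [polarCoord_target] at hp
      exact hp.1
    simp [h0]
  exact measure_mono_null this key

theorem volume_of_cone_Ioo {E : Set ℝ} (h : volume (cone E) = 0) :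
    volume (E ∩ Ioo (-Real.pi) Real.pi) = 0 := by
  have key := volume_polar_preimage h
  have hsub : (Ioi (0 : ℝ)) ×ˢ (E ∩ Ioo (-Real.pi) Real.pi) ⊆
      {p : ℝ × ℝ | p ∈ polarCoord.target ∧ Complex.polarCoord.symm p ∈ cone E} := by
    rintro ⟨r, θ⟩ ⟨hr, hθE, hθ⟩
    simp only [mem_Ioi] at hr hθE hθ
    refine ⟨?_, ?_, θ, hθE, ?_⟩
    · rw [polarCoord_target]; exact ⟨hr, hθ⟩
    · rw [Complex.polarCoord_symm_apply]
      intro h0
      have : ‖(r : ℂ) * (Real.cos θ + Real.sin θ * Complex.I)‖ = 0 := by rw [h0, norm_zero]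
      rw [norm_mul, Complex.ofReal_cos, Complex.ofReal_sin, Complex.norm_cos_add_sin_mul_I] at this
      simp at this
      exact hr.ne' this
    · rw [Complex.polarCoord_symm_apply, norm_mul, Complex.ofReal_cos, Complex.ofReal_sin,
        Complex.norm_cos_add_sin_mul_I, Complex.exp_mul_I]
      simp [abs_of_pos hr]
  have h2 := measure_mono_null hsub key
  rw [Measure.volume_eq_prod, Measure.prod_prod] at h2
  rcases mul_eq_zero.mp h2 with h3 | h3
  · simp at h3
  · exact h3

theorem volume_of_cone {E : Set ℝ} (h : volume (cone E) = 0) : volume E = 0 := by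
  have hk : ∀ k : ℤ, volume ({θ : ℝ | θ + k * (2 * Real.pi) ∈ E} ∩ Ioc (-Real.pi) Real.pi) = 0 := by
    intro k
    have h1 : cone {θ : ℝ | θ + k * (2 * Real.pi) ∈ E} ⊆ cone E := by
      rintro z ⟨hz, θ, hθ, hzθ⟩
      refine ⟨hz, θ + k * (2 * Real.pi), hθ, ?_⟩
      have : Complex.exp (((θ + k * (2 * Real.pi) : ℝ) : ℂ) * Complex.I)
          = Complex.exp (θ * Complex.I) := by
        rw [Complex.exp_eq_exp_iff_exists_int]
        exact ⟨k, by push_cast; ring⟩
      rw [this]
      exact hzθ
    have h2 := volume_of_cone_Ioo (measure_mono_null h1 h)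
    refine measure_mono_null (t := ({θ : ℝ | θ + k * (2 * Real.pi) ∈ E} ∩ Ioo (-Real.pi) Real.pi)
      ∪ {Real.pi}) ?_ (measure_union_null h2 (by simp))
    rintro θ ⟨hθ, h3, h4⟩
    rcases h4.lt_or_eq with h5 | h5
    · exact Or.inl ⟨hθ, h3, h5⟩
    · exact Or.inr h5
  have hsub : E ⊆ ⋃ k : ℤ, (fun θ : ℝ => θ + (-(k * (2 * Real.pi)))) ⁻¹'
      ({θ : ℝ | θ + k * (2 * Real.pi) ∈ E} ∩ Ioc (-Real.pi) Real.pi) := by
    intro θ hθ
    refine mem_iUnion.mpr ⟨toIocDiv Real.two_pi_pos (-Real.pi) θ, ?_⟩
    have h1 := toIocMod_mem_Ioc Real.two_pi_pos (-Real.pi) θ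
    rw [toIocMod] at h1
    simp only [zsmul_eq_mul] at h1
    refine ⟨?_, ?_, ?_⟩
    · simp only [mem_ofPred_eq]
      convert hθ using 1
      ring
    · have := h1.1
      simp only
      linarith
    · have := h1.2
      simp only
      linarith
  refine measure_mono_null hsub (measure_iUnion_null fun k => ?_)
  rw [measure_preimage_add_right]
  exact hk k

end Pool.Agent.Helper87.LS
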