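import Pool.Agent.Helper87.LS.RigidB

/-!
BLOCK LS-M. Selection of directions with almost equal correlation functions.

For `θ ∈ E` choose `Ψ_θ` (measure preserving) with `Ψ_θ ∘ F_θ0 = F_θ ∘ Ψ_θ` a.e. (from `flowIso_symm (hE θ)`,
i.e. `FlowIso θ0 θ`). By `Dq_flowIso`, `Dq Q (t e^{iθ}) = Dq (Q ∘ Ψ_θ) (t e^{iθ0})`. The functions
`x ↦ (Q (Ψ_θ x) : ℝ)` are bounded measurable, hence in `L¹(μ)`, which is separable
(`MeasureTheory.Lp.SecondCountableTopology`); countably many balls of radius `κ/4` (in `L¹`) cover, so by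
countable subadditivity of the outer measure some `E' ⊆ E` with `volume E' ≠ 0` has all its functions within
`κ/2` in `L¹`. Since the values are natural numbers, `μ {Q ∘ Ψ_θ ≠ Q ∘ Ψ_θ'} ≤ ‖Q ∘ Ψ_θ - Q ∘ Ψ_θ'‖₁ ≤ κ/2`. Finally
`|Dq Q₁ v - Dq Q₂ v| ≤ 2 μ {Q₁ ≠ Q₂}` since the symmetric difference of `{Q₁ (F v x) = Q₁ x}` and
`{Q₂ (F v x) = Q₂ x}` is inside `{Q₁ ≠ Q₂} ∪ F v ⁻¹' {Q₁ ≠ Q₂}` and `F v` preserves `μ`.
-/

open MeasureTheory Set Filter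

namespace Pool.Agent.Helper87.LS

namespace Surf

variable (S : Surf)

theorem Dq_le_add {Q₁ Q₂ : ℂ → ℕ} (h1 : Measurable Q₁) (h2 : Measurable Q₂) (v : ℂ) :
    S.Dq Q₁ v ≤ S.Dq Q₂ v + 2 * S.μ.real {x | Q₁ x ≠ Q₂ x} := by
  have hm : MeasurableSet {x | Q₁ x ≠ Q₂ x} := (measurableSet_eq_fun h1 h2).compl
  have hsub : {x | Q₁ (S.F v x) = Q₁ x} ⊆
      ({x | Q₂ (S.F v x) = Q₂ x} ∪ {x | Q₁ x ≠ Q₂ x}) ∪ S.F v ⁻¹' {x | Q₁ x ≠ Q₂ x} := by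
    intro x hx
    by_cases ha : Q₁ x = Q₂ x
    · by_cases hb : Q₁ (S.F v x) = Q₂ (S.F v x)
      · left; left
        simp only [mem_setOf_eq] at hx ⊢
        rw [← hb, ← ha, hx]
      · right; exact hb
    · left; right; exact ha
  have hpre : S.μ.real (S.F v ⁻¹' {x | Q₁ x ≠ Q₂ x}) = S.μ.real {x | Q₁ x ≠ Q₂ x} := by
    unfold Measure.real
    rw [(S.measurePreserving_F v).measure_preimage hm.nullMeasurableSet]
  unfold Dq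
  calc S.μ.real {x | Q₁ (S.F v x) = Q₁ x}
      ≤ S.μ.real (({x | Q₂ (S.F v x) = Q₂ x} ∪ {x | Q₁ x ≠ Q₂ x}) ∪
          S.F v ⁻¹' {x | Q₁ x ≠ Q₂ x}) := measureReal_mono hsub
    _ ≤ S.μ.real ({x | Q₂ (S.F v x) = Q₂ x} ∪ {x | Q₁ x ≠ Q₂ x}) +
          S.μ.real (S.F v ⁻¹' {x | Q₁ x ≠ Q₂ x}) := measureReal_union_le _ _
    _ ≤ S.μ.real {x | Q₂ (S.F v x) = Q₂ x} + S.μ.real {x | Q₁ x ≠ Q₂ x} +
          S.μ.real {x | Q₁ x ≠ Q₂ x} := by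
        rw [hpre]; gcongr; exact measureReal_union_le _ _
    _ = _ := by ring

theorem select (θ0 : ℝ) {Q : ℂ → ℕ} (hQ : Part Q) {E : Set ℝ} (hE : ∀ θ ∈ E, S.FlowIso θ θ0)
    (hpos : volume E ≠ 0) {κ : ℝ} (hκ : 0 < κ) :
    ∃ E' ⊆ E, volume E' ≠ 0 ∧ ∀ θ ∈ E', ∀ θ' ∈ E', ∀ t : ℝ,
      |S.Dq Q (t * Complex.exp (θ * Complex.I)) - S.Dq Q (t * Complex.exp (θ' * Complex.I))| ≤ κ := by
  classical
  have hch : ∀ θ : ℝ, ∃ Φ : ℂ → ℂ, Measurable Φ ∧ (θ ∈ E → MeasurePreserving Φ S.μ S.μ ∧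
      ∀ t : ℝ, ∀ᵐ x ∂S.μ, Φ (S.F (t * Complex.exp (θ0 * Complex.I)) x)
        = S.F (t * Complex.exp (θ * Complex.I)) (Φ x)) := by
    intro θ
    by_cases hθ : θ ∈ E
    · obtain ⟨Φ, Ψ, hΦ, hΨ, h1, h2, h3⟩ := S.flowIso_symm (hE θ hθ)
      exact ⟨Φ, hΦ.measurable, fun _ => ⟨hΦ, h3⟩⟩
    · exact ⟨id, measurable_id, fun h => absurd h hθ⟩
  choose Φ hΦm hΦ using hch
  obtain ⟨B, hB⟩ : ∃ B : ℕ, ∀ x, Q x ≤ B := by
    obtain ⟨B, hB⟩ := hQ.2.bddAbove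
    exact ⟨B, fun x => hB ⟨x, rfl⟩⟩
  have hmem : ∀ θ, MemLp (fun x => (Q (Φ θ x) : ℝ)) 1 S.μ := by
    intro θ
    refine MemLp.of_bound (C := B) ?_ ?_
    · exact (measurable_from_nat.comp (hQ.1.comp (hΦm θ))).aestronglyMeasurable
    · refine Eventually.of_forall fun x => ?_
      simp only [Real.norm_eq_abs, Nat.abs_cast, Nat.cast_le]
      exact hB _
  set f : ℝ → Lp ℝ 1 S.μ := fun θ => (hmem θ).toLp _ with hf
  have hsep : SecondCountableTopology (Lp ℝ 1 S.μ) := by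
    haveI : Fact ((1 : ENNReal) ≠ ⊤) := ⟨ENNReal.one_ne_top⟩
    infer_instance
  obtain ⟨n, hn⟩ : ∃ n : ℕ, volume {θ ∈ E | dist (f θ) (TopologicalSpace.denseSeq (Lp ℝ 1 S.μ) n) < κ / 4} ≠ 0 := by
    by_contra hcon
    push Not at hcon
    apply hpos
    have : E ⊆ ⋃ n, {θ ∈ E | dist (f θ) (TopologicalSpace.denseSeq (Lp ℝ 1 S.μ) n) < κ / 4} := by
      intro θ hθ
      obtain ⟨n, hn⟩ := (TopologicalSpace.denseRange_denseSeq (Lp ℝ 1 S.μ)).exists_dist_lt (f θ)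
        (show 0 < κ / 4 by positivity)
      exact mem_iUnion.2 ⟨n, hθ, hn⟩
    exact measure_mono_null this (measure_iUnion_null hcon)
  refine ⟨_, sep_subset _ _, hn, ?_⟩
  rintro θ ⟨hθE, hθ⟩ θ' ⟨hθE', hθ'⟩ t
  have hd : dist (f θ) (f θ') < κ / 2 := by
    calc dist (f θ) (f θ') ≤ dist (f θ) (TopologicalSpace.denseSeq (Lp ℝ 1 S.μ) n) +
          dist (f θ') (TopologicalSpace.denseSeq (Lp ℝ 1 S.μ) n) := dist_triangle_right _ _ _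
      _ < κ / 4 + κ / 4 := add_lt_add hθ hθ'
      _ = κ / 2 := by ring
  have hmeas : S.μ.real {x | (Q ∘ Φ θ) x ≠ (Q ∘ Φ θ') x} ≤ κ / 2 := by
    have hed : edist (f θ) (f θ') ≤ ENNReal.ofReal (κ / 2) := by
      rw [edist_dist]
      exact ENNReal.ofReal_le_ofReal hd.le
    rw [hf] at hed
    simp only [Lp.edist_toLp_toLp] at hed
    rw [eLpNorm_one_eq_lintegral_enorm] at hed
    have hset : {x | (Q ∘ Φ θ) x ≠ (Q ∘ Φ θ') x} ⊆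
        {x | (1 : ENNReal) ≤ ‖((fun x => (Q (Φ θ x) : ℝ)) - fun x => (Q (Φ θ' x) : ℝ)) x‖ₑ} := by
      intro x hx
      simp only [mem_setOf_eq, Function.comp_apply] at hx ⊢
      have h1 : (1 : ℝ) ≤ ‖(Q (Φ θ x) : ℝ) - (Q (Φ θ' x) : ℝ)‖ := by
        have h2 : (1 : ℤ) ≤ |(Q (Φ θ x) : ℤ) - (Q (Φ θ' x) : ℤ)| := by
          apply Int.one_le_abs
          intro h0
          apply hx
          have := sub_eq_zero.1 h0
          exact_mod_cast this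
        rw [Real.norm_eq_abs]
        exact_mod_cast h2
      rw [Pi.sub_apply, ← ofReal_norm, ← ENNReal.ofReal_one]
      exact ENNReal.ofReal_le_ofReal h1
    have hle : S.μ {x | (Q ∘ Φ θ) x ≠ (Q ∘ Φ θ') x} ≤ ENNReal.ofReal (κ / 2) := by
      calc S.μ {x | (Q ∘ Φ θ) x ≠ (Q ∘ Φ θ') x}
          ≤ S.μ {x | (1 : ENNReal) ≤ ‖((fun x => (Q (Φ θ x) : ℝ)) - fun x => (Q (Φ θ' x) : ℝ)) x‖ₑ} :=
            measure_mono hset
        _ = 1 * S.μ {x | (1 : ENNReal) ≤ ‖((fun x => (Q (Φ θ x) : ℝ)) - fun x => (Q (Φ θ' x) : ℝ)) x‖ₑ} := by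
            rw [one_mul]
        _ ≤ ∫⁻ x, ‖((fun x => (Q (Φ θ x) : ℝ)) - fun x => (Q (Φ θ' x) : ℝ)) x‖ₑ ∂S.μ := by
            apply mul_meas_ge_le_lintegral₀
            exact (((hmem θ).sub (hmem θ')).aestronglyMeasurable.enorm)
        _ ≤ ENNReal.ofReal (κ / 2) := hed
    unfold Measure.real
    exact ENNReal.toReal_le_of_le_ofReal (by positivity) hle
  have hmeas' : S.μ.real {x | (Q ∘ Φ θ') x ≠ (Q ∘ Φ θ) x} ≤ κ / 2 := by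
    have : {x | (Q ∘ Φ θ') x ≠ (Q ∘ Φ θ) x} = {x | (Q ∘ Φ θ) x ≠ (Q ∘ Φ θ') x} := by
      ext x; exact ne_comm
    rw [this]; exact hmeas
  obtain ⟨hp, hint⟩ := hΦ θ hθE
  obtain ⟨hp', hint'⟩ := hΦ θ' hθE'
  rw [S.Dq_flowIso hp hint hQ t, S.Dq_flowIso hp' hint' hQ t]
  have e1 := S.Dq_le_add (hQ.1.comp (hΦm θ)) (hQ.1.comp (hΦm θ')) (t * Complex.exp (θ0 * Complex.I))
  have e2 := S.Dq_le_add (hQ.1.comp (hΦm θ')) (hQ.1.comp (hΦm θ)) (t * Complex.exp (θ0 * Complex.I))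
  rw [abs_le]
  constructor <;> linarith

end Surf

end Pool.Agent.Helper87.LS
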