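import Pool.Agent.Helper87.LS.AeRec
import Pool.Agent.Helper87.LS.LemU
import Pool.Agent.Helper87.LS.Select
import Pool.Agent.Helper87.LS.Nonsing
import Pool.Agent.Helper87.LS.Polar
import Pool.Agent.Helper87.LS.OneD

/-!
Assembly: the theorem on lattice surfaces.
-/

open MeasureTheory Set Filter Topology

namespace Pool.Agent.Helper87.LS

theorem map_real_mul (A : ℂ ≃ₗ[ℝ] ℂ) (r : ℝ) (u : ℂ) : A ((r : ℂ) * u) = (r : ℂ) * A u := by
  rw [← Complex.real_smul, map_smul, Complex.real_smul]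

theorem continuous_lin (A : ℂ ≃ₗ[ℝ] ℂ) : Continuous A :=
  LinearMap.continuous_of_finiteDimensional (A : ℂ →ₗ[ℝ] ℂ)

theorem main (S : Surf) (Γ : Subgroup (ℂ ≃ₗ[ℝ] ℂ)) (hΓ : IsLattice Γ)
    (hS : ∀ A ∈ Γ, S.IsAffine A) (θ0 : ℝ) : volume {θ : ℝ | S.FlowIso θ θ0} = 0 := by
  by_contra hE0
  set E : Set ℝ := {θ : ℝ | S.FlowIso θ θ0} with hEdef
  have step0 : ∃ θ1 ∈ E, ∃ (t : ℕ → ℝ) (m : ℝ), 0 < m ∧ Tendsto t atTop atTop ∧
      S.Rigid (Complex.exp (θ1 * Complex.I)) t m := by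
    by_contra hno
    push Not at hno
    apply hE0
    apply volume_of_cone
    have hae := ae_exists_recurrent hΓ
    rw [ae_iff] at hae
    refine measure_mono_null ?_ hae
    rintro z ⟨hz0, θ, hθ, hz⟩
    simp only [mem_ofPred_eq]
    intro hgood
    obtain ⟨w, hw, hr⟩ := hgood
    obtain ⟨t, m, hm, ht, hR⟩ := S.rigid_of_recurrent hS hw hr
    have hzpos : 0 < ‖z‖ := norm_pos_iff.2 hz0
    rw [hz] at hR
    have hR' := S.rigid_scale ‖z‖ (u := Complex.exp (θ * Complex.I)) (by simpa using hR)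
    exact hno θ hθ (fun n => ‖z‖ * t n) m hm (ht.const_mul_atTop hzpos) hR'
  obtain ⟨θ1, hθ1, t, m, hm, ht, hR1⟩ := step0
  have hRE : ∀ θ ∈ E, S.Rigid (Complex.exp (θ * Complex.I)) t m := by
    intro θ hθ
    have h1 : S.FlowIso θ1 θ0 := hθ1
    have h2 : S.FlowIso θ θ0 := hθ
    exact S.rigid_flowIso (S.flowIso_symm h2) (S.rigid_flowIso h1 hR1)
  obtain ⟨K, h, hK, hh, hU⟩ := S.lemU (ε := m / 4) (by positivity)
  have hP : Part (S.grid (h / 2)) := S.grid_part (by positivity)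
  have hcont : Continuous (S.Dq (S.grid (h / 2))) := S.grid_cont (by positivity)
  set P := S.grid (h / 2) with hPdef
  obtain ⟨E', hE'E, hE'pos, hE'κ⟩ := S.select θ0 hP (E := E) (fun θ hθ => hθ) hE0
    (κ := m / 8) (by positivity)
  obtain ⟨θs, hθs⟩ : E'.Nonempty := by
    rw [nonempty_iff_ne_empty]
    rintro rfl
    simp at hE'pos
  have hCpos : volume (cone E') ≠ 0 := fun h0 => hE'pos (volume_of_cone h0)
  set H : Set ℂ := toMeasurable volume (cone E') ∩ closure (cone E') ∩ {0}ᶜ with hHdef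
  have hHm : MeasurableSet H :=
    ((measurableSet_toMeasurable _ _).inter isClosed_closure.measurableSet).inter
      (measurableSet_singleton _).compl
  have hCH : cone E' ⊆ H := fun z hz =>
    ⟨⟨subset_toMeasurable _ _ hz, subset_closure hz⟩, hz.1⟩
  have hHpos : volume H ≠ 0 := fun h0 => hCpos (measure_mono_null hCH h0)
  -- the correlation function is almost the same in all directions of `H`
  have hHκ : ∀ z ∈ H, ∀ s : ℝ, |S.Dq P ((s : ℂ) * (z / (‖z‖ : ℂ)))
      - S.Dq P (s * Complex.exp (θs * Complex.I))| ≤ m / 8 := by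
    intro z hz s
    have hz0 : z ≠ 0 := hz.2
    have hcl : z ∈ closure (cone E') := hz.1.2
    have hne : (𝓝[cone E'] z).NeBot := mem_closure_iff_nhdsWithin_neBot.1 hcl
    have hnz : (‖z‖ : ℂ) ≠ 0 := by simpa using hz0
    have hc : ContinuousAt (fun z' : ℂ => |S.Dq P ((s : ℂ) * (z' / (‖z'‖ : ℂ)))
        - S.Dq P (s * Complex.exp (θs * Complex.I))|) z := by
      have h1 : ContinuousAt (fun z' : ℂ => (s : ℂ) * (z' / (‖z'‖ : ℂ))) z := by
        apply ContinuousAt.mul continuousAt_const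
        apply ContinuousAt.div continuousAt_id
        · exact (Complex.continuous_ofReal.comp continuous_norm).continuousAt
        · exact hnz
      exact ((hcont.continuousAt.comp h1).sub continuousAt_const).abs
    haveI := hne
    refine le_of_tendsto (x := 𝓝[cone E'] z) (hc.tendsto.mono_left nhdsWithin_le_nhds) ?_
    filter_upwards [self_mem_nhdsWithin] with z' hz'
    obtain ⟨hz'0, θ, hθ, hzθ⟩ := hz'
    have hnz' : (‖z'‖ : ℂ) ≠ 0 := by simpa using hz'0
    have hq : z' / (‖z'‖ : ℂ) = Complex.exp (θ * Complex.I) := by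
      rw [div_eq_iff hnz', mul_comm]; exact hzθ
    rw [hq]
    exact hE'κ θ hθ θs hθs s
  obtain ⟨A, hAΓ, c, hc, ⟨u1, hu1⟩, hB⟩ := cons hΓ hHm hHpos
  set B : Set ℂ := {u ∈ H | (c : ℂ) * A u ∈ H} with hBdef
  have hBm : MeasurableSet B := by
    apply hHm.inter
    exact (measurable_const.mul (continuous_lin A).measurable) hHm
  have hCB : volume (cone E' ∩ B) ≠ 0 := by
    rw [← Measure.measure_toMeasurable_inter_of_sFinite hBm (cone E')]
    intro h0
    apply hB
    refine measure_mono_null ?_ h0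
    intro u hu
    exact ⟨hu.1.1.1, hu⟩
  -- the set of scales
  set g : ℝ → ℝ := fun s => S.Dq P ((s : ℂ) * Complex.exp (θs * Complex.I)) with hgdef
  have hg : Continuous g := by
    apply hcont.comp
    exact (Complex.continuous_ofReal).mul continuous_const
  set Sc : Set ℝ := {s : ℝ | 0 < s ∧ ∀ᶠ n in atTop, 3 * m / 4 ≤ g (t n * s)} with hScdef
  have hScm : MeasurableSet Sc := by
    have : Sc = Ioi 0 ∩ ⋃ N : ℕ, ⋂ n : ℕ, {s : ℝ | N ≤ n → 3 * m / 4 ≤ g (t n * s)} := by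
      ext s
      simp only [hScdef, mem_ofPred_eq, mem_inter_iff, mem_Ioi, mem_iUnion, mem_iInter,
        eventually_atTop, ge_iff_le]
    rw [this]
    apply measurableSet_Ioi.inter
    refine MeasurableSet.iUnion fun N => MeasurableSet.iInter fun n => ?_
    by_cases hNn : N ≤ n
    · have : {s : ℝ | N ≤ n → 3 * m / 4 ≤ g (t n * s)} = {s : ℝ | 3 * m / 4 ≤ g (t n * s)} := by
        ext s; simp [hNn]
      rw [this]
      exact measurableSet_le measurable_const
        (hg.measurable.comp (measurable_const.mul measurable_id))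
    · have : {s : ℝ | N ≤ n → 3 * m / 4 ≤ g (t n * s)} = univ := by
        ext s; simp [hNn]
      rw [this]; exact MeasurableSet.univ
  have hScnull : volume Sc = 0 := by
    refine oneD hg (fun s => S.Dq_nonneg _ _) (fun s => S.Dq_le _ _) hK hh hm ?_ ht hScm
      (fun s hs => hs.1) (fun s hs => hs.2)
    intro s hs
    have := hU (Complex.exp (θs * Complex.I)) (Complex.norm_exp_ofReal_mul_I θs) s hs
    simpa [hgdef] using this
  have hnull := nonsing A (hΓ.det A hAΓ) hu1 hScnull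
  apply hCB
  refine measure_mono_null ?_ hnull
  rintro u ⟨⟨hu0, θ, hθ, huθ⟩, huB⟩
  have hupos : 0 < ‖u‖ := norm_pos_iff.2 hu0
  set e : ℂ := Complex.exp (θ * Complex.I) with he
  have hAu : A u = (‖u‖ : ℂ) * A e := by
    conv_lhs => rw [huθ]
    exact map_real_mul A _ _
  have he0 : e ≠ 0 := Complex.exp_ne_zero _
  have hAe0 : A e ≠ 0 := by
    intro h0
    exact he0 (A.map_eq_zero_iff.1 h0)
  have hAepos : 0 < ‖A e‖ := norm_pos_iff.2 hAe0
  have hs : ‖A u‖ / ‖u‖ = ‖A e‖ := by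
    rw [hAu, norm_mul, Complex.norm_real, norm_norm]
    field_simp
  simp only [mem_ofPred_eq]
  rw [hs]
  refine ⟨hAepos, ?_⟩
  have hz : (c : ℂ) * A u ∈ H := huB.2
  have hzdir : ((c : ℂ) * A u) / (‖(c : ℂ) * A u‖ : ℂ) = A e / (‖A e‖ : ℂ) := by
    rw [hAu]
    have h1 : ‖(c : ℂ) * ((‖u‖ : ℂ) * A e)‖ = c * ‖u‖ * ‖A e‖ := by
      rw [norm_mul, norm_mul, Complex.norm_real, Complex.norm_real, norm_norm,
        Real.norm_of_nonneg hc.le]
      ring
    rw [h1]
    have h2 : (c : ℂ) ≠ 0 := by exact_mod_cast hc.ne'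
    have h3 : (‖u‖ : ℂ) ≠ 0 := by exact_mod_cast hupos.ne'
    have h4 : (‖A e‖ : ℂ) ≠ 0 := by exact_mod_cast hAepos.ne'
    push_cast
    field_simp
  have hR2 : S.Rigid (A e) t m := S.rigid_affine (hS A hAΓ) (hRE θ (hE'E hθ))
  filter_upwards [hR2 P hP (m / 8) (by positivity)] with n hn
  have h5 := hHκ _ hz (t n * ‖A e‖)
  rw [hzdir] at h5
  have h6 : (((t n * ‖A e‖ : ℝ) : ℂ)) * (A e / (‖A e‖ : ℂ)) = (t n : ℂ) * A e := by
    have h4 : (‖A e‖ : ℂ) ≠ 0 := by exact_mod_cast hAepos.ne'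
    push_cast
    field_simp
  rw [h6] at h5
  have h7 := (abs_le.1 h5).2
  have h8 : g (t n * ‖A e‖) = S.Dq P (((t n * ‖A e‖ : ℝ) : ℂ) * Complex.exp (θs * Complex.I)) :=
    rfl
  rw [h8]
  linarith

end Pool.Agent.Helper87.LS
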