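import Pool.Agent.Helper87.LS.Defs

/-!
BLOCK LS-P0. Two facts of plane measure theory.

`cr a y = a.re * y.im - a.im * y.re` (Defs).

(1) `line_null`: a line is Lebesgue null. (For instance: `z ↦ cr a z` is a nonzero linear form;
`MeasureTheory.Measure.addHaar_affineSubspace`, or Fubini / `par_bound` below.)

(2) `par_bound`: if `cr a b ≠ 0` then for `y = z - p` one has the identity
`cr a b * y = cr a y * b - cr b y * a`, hence `‖y‖ ≤ ε (‖a‖ + ‖b‖) / |cr a b|` on the set, which
therefore lies in a closed ball of radius `R ε`, and `Complex.volume_closedBall` gives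
`volume ≤ π R² ε²`. Take `C = π R²`.
-/

open MeasureTheory Set

namespace Pool.Agent.Helper87.LS

/-- `z ↦ cr a z` as a real linear form. -/
noncomputable def crLin5 (a : ℂ) : ℂ →ₗ[ℝ] ℝ where
  toFun z := cr a z
  map_add' x y := by simp only [cr, Complex.add_re, Complex.add_im]; ring
  map_smul' r x := by
    simp only [cr, Complex.smul_re, Complex.smul_im, smul_eq_mul, RingHom.id_apply]; ring

theorem line_null {a : ℂ} (ha : a ≠ 0) (p : ℂ) (c : ℝ) :
    volume {z : ℂ | cr a (z - p) = c} = 0 := by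
  rcases Set.eq_empty_or_nonempty {z : ℂ | cr a (z - p) = c} with h | ⟨z0, hz0⟩
  · rw [h]; exact measure_empty
  · have hset : {z : ℂ | cr a (z - p) = c}
        = (AffineSubspace.mk' z0 (LinearMap.ker (crLin5 a)) : Set ℂ) := by
      ext z
      simp only [Set.mem_ofPred_eq, SetLike.mem_coe, AffineSubspace.mem_mk', vsub_eq_sub,
        LinearMap.mem_ker] at hz0 ⊢
      have h1 : crLin5 a (z - z0) = cr a (z - p) - cr a (z0 - p) := by
        change cr a (z - z0) = _
        simp only [cr, Complex.sub_re, Complex.sub_im]; ring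
      rw [h1, hz0, sub_eq_zero]
    rw [hset]
    apply Measure.addHaar_affineSubspace
    intro htop
    have hdir : LinearMap.ker (crLin5 a) = ⊤ := by
      have := congrArg AffineSubspace.direction htop
      rwa [AffineSubspace.direction_mk', AffineSubspace.direction_top] at this
    have h0 : crLin5 a (Complex.I * a) = 0 := by
      have : Complex.I * a ∈ LinearMap.ker (crLin5 a) := by rw [hdir]; trivial
      exact this
    have h1 : crLin5 a (Complex.I * a) = Complex.normSq a := by
      change cr a (Complex.I * a) = _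
      simp only [cr, Complex.mul_re, Complex.mul_im, Complex.I_re, Complex.I_im,
        Complex.normSq_apply]
      ring
    rw [h1] at h0
    exact ha (Complex.normSq_eq_zero.mp h0)

theorem par_bound {a b : ℂ} (h : cr a b ≠ 0) :
    ∃ C : ℝ, 0 ≤ C ∧ ∀ (p : ℂ) (ε : ℝ), 0 ≤ ε →
      volume {z : ℂ | |cr a (z - p)| ≤ ε ∧ |cr b (z - p)| ≤ ε} ≤ ENNReal.ofReal (C * ε ^ 2) := by
  set R : ℝ := (‖a‖ + ‖b‖) / |cr a b| with hR
  have hR0 : 0 ≤ R := by positivity
  refine ⟨Real.pi * R ^ 2, by positivity, fun p ε hε => ?_⟩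
  have hsub : {z : ℂ | |cr a (z - p)| ≤ ε ∧ |cr b (z - p)| ≤ ε} ⊆ Metric.closedBall p (R * ε) := by
    rintro z ⟨h1, h2⟩
    rw [Metric.mem_closedBall, dist_eq_norm]
    set y : ℂ := z - p with hy
    have hid : (cr a b : ℂ) * y = (cr a y : ℂ) * b - (cr b y : ℂ) * a := by
      apply Complex.ext
      · simp only [cr, Complex.mul_re, Complex.sub_re, Complex.ofReal_re, Complex.ofReal_im]
        ring
      · simp only [cr, Complex.mul_im, Complex.sub_im, Complex.ofReal_re, Complex.ofReal_im]
        ring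
    have hn : |cr a b| * ‖y‖ ≤ ε * (‖a‖ + ‖b‖) := by
      calc |cr a b| * ‖y‖ = ‖(cr a b : ℂ) * y‖ := by
            rw [norm_mul, Complex.norm_real, Real.norm_eq_abs]
        _ = ‖(cr a y : ℂ) * b - (cr b y : ℂ) * a‖ := by rw [hid]
        _ ≤ ‖(cr a y : ℂ) * b‖ + ‖(cr b y : ℂ) * a‖ := norm_sub_le _ _
        _ = |cr a y| * ‖b‖ + |cr b y| * ‖a‖ := by
            rw [norm_mul, norm_mul, Complex.norm_real, Complex.norm_real, Real.norm_eq_abs,
              Real.norm_eq_abs]
        _ ≤ ε * ‖b‖ + ε * ‖a‖ := by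
            gcongr
        _ = ε * (‖a‖ + ‖b‖) := by ring
    have hpos : 0 < |cr a b| := abs_pos.mpr h
    have : ‖y‖ ≤ ε * (‖a‖ + ‖b‖) / |cr a b| := by
      rw [le_div_iff₀ hpos]
      linarith [hn]
    calc ‖y‖ ≤ ε * (‖a‖ + ‖b‖) / |cr a b| := this
      _ = R * ε := by rw [hR]; ring
  calc volume {z : ℂ | |cr a (z - p)| ≤ ε ∧ |cr b (z - p)| ≤ ε}
      ≤ volume (Metric.closedBall p (R * ε)) := measure_mono hsub
    _ = ENNReal.ofReal (Real.pi * R ^ 2 * ε ^ 2) := by
        rw [Complex.volume_closedBall, ← ENNReal.ofReal_pow (by positivity)]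
        have hpi : (NNReal.pi : ENNReal) = ENNReal.ofReal Real.pi := by
          rw [ENNReal.ofReal, ← NNReal.coe_real_pi, Real.toNNReal_coe]
        rw [hpi, ← ENNReal.ofReal_mul (by positivity)]
        congr 1
        ring

end Pool.Agent.Helper87.LS
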