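import Pool.Agent.Helper87.LS.AeS

/-!
BLOCK LS-J. A return of the flow in direction `u`.

Let `cr u w > 0` (so `u, w` is a real basis of `ℂ`). Take a triangle `i` (`S.pos`), a point `y₀` in it and
a small ball `U` around `y₀` with `U ⊆ tri i`, so small that for `y, y' ∈ U`, `y' - y = α u + β w` with
`|α| < 1/2` (`α = cr (y'-y) w / cr u w`). `f = F u` preserves the finite measure `μ`, `μ U > 0`; Poincaré
recurrence (`MeasurePreserving.conservative`, `Conservative.exists_gt_measure_inter_ne_zero` or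
`Conservative.frequently_measure_inter_ne_zero`) gives `m ≥ 1` with `μ (U ∩ f^[m] ⁻¹' U) ≠ 0`. For a.e. `x`,
`Straight (m u) x (f^[m] x)` (induction on `m ≥ 1`: `ae_straight` pulled back by the measure preserving `f^[m]`
and `straight_comp`). So there is `y ∈ U` with `y' = f^[m] y ∈ U` and `Straight (m u) y y'`. Write
`y' - y = α u + β w`, `z = y' - α u = y + β w`. Both `y'` and `z` are in `tri i`? (choose `U` a ball of radius
`r` and a bigger ball `B(y₀, C r) ⊆ tri i` containing all these `z`). Put `a = m - α > 0`.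
* `α = 0`: done. * `α < 0`: `Straight (m u) y y'` and the inside hop `Straight (-α u) y' z` compose.
* `α > 0`: by `straight_symm`, `Straight (m (-u)) y' y` and `Straight (α (-u)) y' z` (inside hop), `α < m`, so
  `straight_sub` gives `Straight ((m-α) (-u)) z y`, and `straight_symm` gives `Straight ((m-α) u) y z`.
-/

open MeasureTheory Set

namespace Pool.Agent.Helper87.LS

/-- Cramer's rule in the plane. -/
theorem cramer {u w : ℂ} (h : cr u w ≠ 0) (z : ℂ) :
    z = ((cr z w / cr u w : ℝ) : ℂ) * u + ((cr u z / cr u w : ℝ) : ℂ) * w := by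
  have h1 : z.re * cr u w = cr z w * u.re + cr u z * w.re := by
    simp only [cr]; ring
  have h2 : z.im * cr u w = cr z w * u.im + cr u z * w.im := by
    simp only [cr]; ring
  apply Complex.ext
  · have : z.re = (cr z w * u.re + cr u z * w.re) / cr u w := by
      rw [eq_div_iff h]; exact h1
    simp only [Complex.add_re, Complex.mul_re, Complex.ofReal_re, Complex.ofReal_im]
    rw [this]
    ring
  · have : z.im = (cr z w * u.im + cr u z * w.im) / cr u w := by
      rw [eq_div_iff h]; exact h2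
    simp only [Complex.add_im, Complex.mul_im, Complex.ofReal_re, Complex.ofReal_im]
    rw [this]
    ring

namespace Surf

variable (S : Surf)

theorem ae_straight_iterate (u : ℂ) (m : ℕ) (hm : 1 ≤ m) :
    ∀ᵐ x ∂S.μ, S.Straight ((m : ℝ) * u) x ((S.F u)^[m] x) := by
  induction m, hm using Nat.le_induction with
  | base =>
    filter_upwards [S.ae_straight u] with x hx
    simpa using hx
  | succ m hm ih =>
    have hq : MeasurePreserving ((S.F u)^[m]) S.μ S.μ := (S.measurePreserving_F u).iterate m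
    filter_upwards [ih, hq.quasiMeasurePreserving.ae (S.ae_straight u)] with x h1 h2
    rw [Function.iterate_succ_apply']
    have h3 : S.Straight (((1 : ℝ) : ℂ) * u) ((S.F u)^[m] x) (S.F u ((S.F u)^[m] x)) := by
      simpa using h2
    have h4 := straight_comp (S := S) (a := (m : ℝ)) (b := 1)
      (by exact_mod_cast hm) one_pos h1 h3
    have e : ((m + 1 : ℕ) : ℝ) = (m : ℝ) + 1 := by push_cast; ring
    rw [e]
    exact h4

theorem exists_return {u w : ℂ} (h : 0 < cr u w) :
    ∃ (a β : ℝ) (y : ℂ) (i : Fin S.n), 0 < a ∧ y ∈ tri (S.P i) ∧ y + β * w ∈ tri (S.P i) ∧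
      S.Straight (a * u) y (y + β * w) := by
  obtain ⟨i⟩ : Nonempty (Fin S.n) := ⟨⟨0, S.pos⟩⟩
  obtain ⟨y₀, hy₀⟩ := S.tri_nonempty i
  obtain ⟨R, hR, hball⟩ := Metric.isOpen_iff.1 (S.isOpen_tri i) y₀ hy₀
  set A : ℝ := ‖w‖ / cr u w with hA
  have hA0 : 0 ≤ A := div_nonneg (norm_nonneg _) h.le
  -- the radius of the small ball
  obtain ⟨r, hr, hr1, hr2⟩ : ∃ r : ℝ, 0 < r ∧ r * (1 + 2 * A * ‖u‖) < R ∧ 2 * r * A < 1 / 2 := by
    have h1 : 0 < 1 + 2 * A * ‖u‖ := by positivity
    refine ⟨min (R / (2 * (1 + 2 * A * ‖u‖))) (1 / (8 * (A + 1))), ?_, ?_, ?_⟩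
    · positivity
    · calc _ ≤ R / (2 * (1 + 2 * A * ‖u‖)) * (1 + 2 * A * ‖u‖) := by
            gcongr; exact min_le_left _ _
        _ = R / 2 := by field_simp
        _ < R := by linarith
    · calc _ ≤ 2 * (1 / (8 * (A + 1))) * A := by
            gcongr; exact min_le_right _ _
        _ = A / (4 * (A + 1)) := by field_simp; ring
        _ < 1 / 2 := by
            rw [div_lt_div_iff₀ (by positivity) (by norm_num)]
            linarith
  have hrR : r < R := by
    have : r * 1 ≤ r * (1 + 2 * A * ‖u‖) := by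
      have : 0 ≤ 2 * A * ‖u‖ := by positivity
      gcongr
      linarith
    linarith
  have hUtri : Metric.ball y₀ r ⊆ tri (S.P i) :=
    (Metric.ball_subset_ball hrR.le).trans hball
  have hUD : Metric.ball y₀ r ⊆ S.D := fun z hz => mem_iUnion.2 ⟨i, hUtri hz⟩
  have hUpos : S.μ (Metric.ball y₀ r) ≠ 0 := by
    rw [μ, Measure.restrict_apply Metric.isOpen_ball.measurableSet,
      inter_eq_self_of_subset_left hUD]
    exact (Metric.measure_ball_pos volume y₀ hr).ne'
  have hcons := (S.measurePreserving_F u).conservative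
  obtain ⟨m, hm, hmU⟩ := hcons.exists_gt_measure_inter_ne_zero
    Metric.isOpen_ball.measurableSet.nullMeasurableSet hUpos 0
  have hae := S.ae_straight_iterate u m hm
  obtain ⟨y, ⟨hyU, hy'U⟩, hst⟩ : ∃ y, y ∈ Metric.ball y₀ r ∩ (S.F u)^[m] ⁻¹' Metric.ball y₀ r ∧
      S.Straight ((m : ℝ) * u) y ((S.F u)^[m] y) := by
    by_contra hcon
    push Not at hcon
    apply hmU
    refine measure_mono_null ?_ (ae_iff.1 hae)
    intro y hy
    exact hcon y hy
  set y' := (S.F u)^[m] y with hy'
  have hy'U' : y' ∈ Metric.ball y₀ r := hy'U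
  set α : ℝ := cr (y' - y) w / cr u w with hα
  set β : ℝ := cr u (y' - y) / cr u w with hβ
  have hdec : y' - y = (α : ℂ) * u + (β : ℂ) * w := cramer h.ne' (y' - y)
  have hdist : ‖y' - y‖ ≤ 2 * r := by
    have h1 : dist y' y ≤ dist y' y₀ + dist y y₀ := dist_triangle_right _ _ _
    have h2 : dist y' y₀ < r := hy'U'
    have h3 : dist y y₀ < r := hyU
    rw [← dist_eq_norm]
    linarith
  have hαle : |α| ≤ 2 * r * A := by
    rw [hα, abs_div, abs_of_pos h, hA]
    calc |cr (y' - y) w| / cr u w ≤ ‖y' - y‖ * ‖w‖ / cr u w := by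
          gcongr; exact abs_cr_le _ _
      _ ≤ 2 * r * ‖w‖ / cr u w := by gcongr
      _ = 2 * r * (‖w‖ / cr u w) := by ring
  have hz : y + β * w = y' - α * u := by
    have : y' = y + (α * u + β * w) := by rw [← hdec]; ring
    rw [this]; ring
  have hztri : y + β * w ∈ tri (S.P i) := by
    apply hball
    rw [hz, Metric.mem_ball, dist_eq_norm]
    have h2 : ‖y' - y₀‖ < r := by
      rw [← dist_eq_norm]; exact hy'U'
    calc ‖y' - α * u - y₀‖ = ‖(y' - y₀) - α * u‖ := by congr 1; ring
      _ ≤ ‖y' - y₀‖ + ‖(α : ℂ) * u‖ := norm_sub_le _ _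
      _ = ‖y' - y₀‖ + |α| * ‖u‖ := by rw [norm_mul, Complex.norm_real, Real.norm_eq_abs]
      _ ≤ r + 2 * r * A * ‖u‖ := by gcongr
      _ = r * (1 + 2 * A * ‖u‖) := by ring
      _ < R := hr1
  have hm1 : (1 : ℝ) ≤ m := by exact_mod_cast hm
  have hαlt : |α| < 1 / 2 := lt_of_le_of_lt hαle hr2
  have hα2 := abs_lt.1 hαlt
  refine ⟨(m : ℝ) - α, β, y, i, by linarith [hα2.2], hUtri hyU, hztri, ?_⟩
  rcases lt_trichotomy α 0 with hneg | hzero | hposα
  · -- compose with an inside hop
    have h1 : S.Straight (((-α : ℝ) : ℂ) * u) y' (y + β * w) := by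
      have e1 : y + β * w = y' + (((-α : ℝ) : ℂ) * u) := by
        rw [hz]; push_cast; ring
      rw [e1] at hztri ⊢
      exact Straight.hop (hop_inside (hUtri hy'U') hztri)
    have h2 := straight_comp (S := S) (a := (m : ℝ)) (b := -α) (by linarith) (by linarith) hst h1
    have e2 : ((m : ℝ) + -α) = (m : ℝ) - α := by ring
    rw [e2] at h2
    exact h2
  · rw [hz, hzero]
    simpa using hst
  · have h1 : S.Straight ((m : ℝ) * (-u)) y' y := by
      have := straight_symm hst
      have e : ((m : ℝ) : ℂ) * (-u) = -(((m : ℝ) : ℂ) * u) := by ring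
      rw [e]; exact this
    have h2 : S.Straight ((α : ℂ) * (-u)) y' (y + β * w) := by
      have e1 : y + β * w = y' + ((α : ℂ) * (-u)) := by
        rw [hz]; ring
      rw [e1] at hztri ⊢
      exact Straight.hop (hop_inside (hUtri hy'U') hztri)
    have h3 := straight_sub (S := S) (a := α) (b := (m : ℝ)) hposα (by linarith [hα2.2]) h2 h1
    have h4 := straight_symm h3
    have e : -((((m : ℝ) - α : ℝ) : ℂ) * (-u)) = (((m : ℝ) - α : ℝ) : ℂ) * u := by ring
    rw [e] at h4
    exact h4

end Surf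

end Pool.Agent.Helper87.LS
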