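import Pool.Agent.Helper87.LS.Geo
import Pool.Agent.Helper87.LS.Plane

/-!
BLOCK LS-G5. The set of points which cannot be moved by `w` with one hop has measure `≤ C ‖w‖²`.

Let `M ≥ ‖vec e‖` for all edges and `ε = M ‖w‖`, so that `|cr (vec e) (s w)| ≤ ε` for `0 ≤ s ≤ 1`.
Let `x` be in triangle `i` (i.e. all `ell (i,k) x > 0`). Claim: if there is no `y` with `Hop w x y`
then one of the following holds.
(a) `0 < ell (i,k) x ≤ ε` and `0 < ell (i,k') x ≤ ε` for some `k ≠ k'`;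
(b) `ell (i,k) (x+w) = 0` for some `k` (a null set, `line_null`);
(c) for some `k`, with `e' = glue (i,k) = (j,l)` and `y = x + w + shift (i,k)`, some `l' ≠ l` has
    `|ell (j,l) y| ≤ ε`, `|ell (j,l') y| ≤ ε`.
Proof of the claim: if (a) fails there is `k` such that `ell (i,k') x > ε` for both `k' ≠ k`, hence
`ell (i,k') (x + s w) > 0` for `s ∈ [0,1]`. If `ell (i,k) (x+w) > 0` then `x + w` is in the triangle:
inside hop. If it is `0`: (b). If it is negative, let `s ∈ (0,1)` be the zero of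
`s ↦ ell (i,k) (x + s w)`; `z = x + s w` is in the open edge (`mem_openSegment_iff`). With
`y = x+w+shift`: `ell (j,l) y = - ell (i,k) (x+w) ∈ (0, ε]` (`ell_glue`). If both other `ell (j,l') y`
are positive then `y` is in the triangle `j` and there is a crossing hop. Otherwise
`ell (j,l') y ≤ 0` for some `l'`; the point `z + shift` is in the open edge `(j,l)` (reversed), so
`ell (j,l') (z+shift) > 0`, and `y - (z+shift) = (1-s) w`, so `ell (j,l') y > -ε`: (c).
Each of the finitely many sets in (a), (c) is a translate of a set as in `par_bound`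
(`cr (vec (i,k)) (vec (i,k')) = ± area2 i ≠ 0` for `k ≠ k'`; change the base point of the second form:
`{z : |cr a (z-p)| ≤ ε, |cr b (z-p')| ≤ ε}` with the common vertex of the two edges as base point,
since `ell (i,k') z = cr (vec (i,k')) (z - P)` for ANY point `P` on the line of the edge, in
particular for the common vertex; or use `ell` differences), so has measure `≤ C ε²`.
-/

open MeasureTheory Set

namespace Pool.Agent.Helper87.LS

namespace Surf

variable (S : Surf)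

theorem corner_succ87 (i : Fin S.n) (k : Fin 3) : ∃ C : ℝ, 0 ≤ C ∧ ∀ ε : ℝ, 0 ≤ ε →
    volume {z : ℂ | |S.ell (i, k) z| ≤ ε ∧ |S.ell (i, k + 1) z| ≤ ε}
      ≤ ENNReal.ofReal (C * ε ^ 2) := by
  have hne : cr (S.vec (i, k)) (S.vec (i, k + 1)) ≠ 0 := by
    rw [S.cr_vec_succ]; exact (S.area2_pos i).ne'
  obtain ⟨C, hC, h⟩ := par_bound hne
  refine ⟨C, hC, fun ε hε => le_trans (measure_mono ?_) (h (S.P i (k + 1)) ε hε)⟩
  rintro z ⟨h1, h2⟩
  refine ⟨?_, h2⟩
  have e1 : cr (S.vec (i, k)) (z - S.P i (k + 1)) = S.ell (i, k) z := by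
    have h3 : z - S.P i (k + 1) = (z - S.P i k) - S.vec (i, k) := by
      simp only [vec]; ring
    rw [h3, cr_sub_right, cr_self, ell, sub_zero]
  rw [e1]; exact h1

theorem corner87 (i : Fin S.n) (k k' : Fin 3) : ∃ C : ℝ, 0 ≤ C ∧ ∀ ε : ℝ, 0 ≤ ε →
    volume {z : ℂ | k' ≠ k ∧ |S.ell (i, k) z| ≤ ε ∧ |S.ell (i, k') z| ≤ ε}
      ≤ ENNReal.ofReal (C * ε ^ 2) := by
  by_cases hk : k' = k
  · refine ⟨0, le_rfl, fun ε hε => ?_⟩
    have : {z : ℂ | k' ≠ k ∧ |S.ell (i, k) z| ≤ ε ∧ |S.ell (i, k') z| ≤ ε} = ∅ := by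
      ext z; simp [hk]
    rw [this]; simp
  · have h3 : k' = k + 1 ∨ k = k' + 1 := by
      revert hk; revert k k'; decide
    rcases h3 with rfl | rfl
    · obtain ⟨C, hC, h⟩ := S.corner_succ87 i k
      refine ⟨C, hC, fun ε hε => le_trans (measure_mono ?_) (h ε hε)⟩
      rintro z ⟨-, h1, h2⟩
      exact ⟨h1, h2⟩
    · obtain ⟨C, hC, h⟩ := S.corner_succ87 i k'
      refine ⟨C, hC, fun ε hε => le_trans (measure_mono ?_) (h ε hε)⟩
      rintro z ⟨-, h1, h2⟩
      exact ⟨h2, h1⟩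

theorem open_glue87 {i : Fin S.n} {k : Fin 3} {z : ℂ}
    (hz : z ∈ openSegment ℝ (S.P i k) (S.P i (k + 1))) :
    z + S.shift (i, k) ∈ openSegment ℝ (S.P (S.glue (i, k)).1 (S.glue (i, k)).2)
      (S.P (S.glue (i, k)).1 ((S.glue (i, k)).2 + 1)) := by
  obtain ⟨a, b, ha, hb, hab, rfl⟩ := hz
  refine ⟨b, a, hb, ha, by rw [add_comm]; exact hab, ?_⟩
  have h1 := S.opp (i, k)
  simp only [shift, Complex.real_smul]
  have hab' : (a : ℂ) + b = 1 := by exact_mod_cast hab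
  linear_combination (a : ℂ) * h1 + (S.P (S.glue (i, k)).1 (S.glue (i, k)).2 - S.P i (k + 1)) * hab'

theorem bad_sub87 {M : ℝ} (hM : ∀ e, ‖S.vec e‖ ≤ M) (w : ℂ) {x : ℂ} (hx : x ∈ S.D)
    (hb : ¬ ∃ y, S.Hop w x y) :
    (∃ (e : Fin S.n × Fin 3) (l : Fin 3), l ≠ e.2 ∧ |S.ell (e.1, e.2) x| ≤ M * ‖w‖ ∧
      |S.ell (e.1, l) x| ≤ M * ‖w‖) ∨
    (∃ e : Fin S.n × Fin 3, S.ell e (x + w) = 0) ∨
    (∃ (e : Fin S.n × Fin 3) (l : Fin 3), l ≠ (S.glue e).2 ∧
      |S.ell ((S.glue e).1, (S.glue e).2) (x + (w + S.shift e))| ≤ M * ‖w‖ ∧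
      |S.ell ((S.glue e).1, l) (x + (w + S.shift e))| ≤ M * ‖w‖) := by
  set ε := M * ‖w‖ with hε
  have hcr : ∀ e, |cr (S.vec e) w| ≤ ε := fun e =>
    (abs_cr_le _ _).trans (mul_le_mul_of_nonneg_right (hM e) (norm_nonneg _))
  have hε0 : 0 ≤ ε := by
    obtain ⟨i, -⟩ := mem_iUnion.1 hx
    exact (abs_nonneg _).trans (hcr (i, 0))
  obtain ⟨i, hxi⟩ := mem_iUnion.1 hx
  rw [S.mem_tri] at hxi
  by_cases hA : ∃ k l : Fin 3, l ≠ k ∧ S.ell (i, k) x ≤ ε ∧ S.ell (i, l) x ≤ ε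
  · obtain ⟨k, l, hlk, h1, h2⟩ := hA
    exact Or.inl ⟨(i, k), l, hlk, by rw [abs_of_pos (hxi k)]; exact h1,
      by rw [abs_of_pos (hxi l)]; exact h2⟩
  have hk : ∃ k : Fin 3, ∀ l, l ≠ k → ε < S.ell (i, l) x := by
    by_cases h : ∃ k, S.ell (i, k) x ≤ ε
    · obtain ⟨k, hk⟩ := h
      refine ⟨k, fun l hl => ?_⟩
      by_contra hc
      exact hA ⟨k, l, hl, hk, not_lt.1 hc⟩
    · refine ⟨0, fun l _ => ?_⟩
      by_contra hc
      exact h ⟨l, not_lt.1 hc⟩
  obtain ⟨k, hk⟩ := hk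
  have hin : ∀ l, l ≠ k → ∀ s : ℝ, 0 ≤ s → s ≤ 1 → 0 < S.ell (i, l) (x + s * w) := by
    intro l hl s hs0 hs1
    rw [S.ell_add_mul]
    have h1 := hk l hl
    have h2 := abs_le.1 (hcr (i, l))
    nlinarith [h2.1, h2.2]
  rcases lt_trichotomy (S.ell (i, k) (x + w)) 0 with hneg | hzero | hpos
  · right; right
    have hx0 := hxi k
    have hadd := S.ell_add (i, k) x w
    set c := cr (S.vec (i, k)) w with hc
    have hc0 : c < 0 := by linarith
    set s : ℝ := S.ell (i, k) x / (-c) with hs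
    have hs0 : 0 < s := div_pos hx0 (by linarith)
    have hs1 : s < 1 := by rw [hs, div_lt_one (by linarith)]; linarith
    have hsc : s * c = - S.ell (i, k) x := by
      rw [hs, div_mul_eq_mul_div, div_neg, mul_div_cancel_right₀ _ hc0.ne]
    have hz : x + (s : ℂ) * w ∈ openSegment ℝ (S.P i k) (S.P i (k + 1)) := by
      rw [S.mem_openSegment_iff]
      refine ⟨by rw [S.ell_add_mul, ← hc, hsc]; ring, hin _ ?_ s hs0.le hs1.le,
        hin _ ?_ s hs0.le hs1.le⟩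
      · intro h; revert h; revert k; intro k; fin_cases k <;> simp
      · intro h; revert h; revert k; intro k; fin_cases k <;> simp
    have hz' := S.open_glue87 hz
    rw [S.mem_openSegment_iff] at hz'
    set j := (S.glue (i, k)).1 with hj
    set l := (S.glue (i, k)).2 with hl
    have hy1 : S.ell (j, l) (x + w + S.shift (i, k)) = - S.ell (i, k) (x + w) := by
      have := S.ell_glue (i, k) (x + w)
      rw [← this]
    have hout : (x + w + S.shift (i, k)) ∉ tri (S.P j) := by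
      intro hy
      exact hb ⟨_, i, (S.mem_tri).2 hxi, Or.inr ⟨k, hy, rfl, s, ⟨hs0, hs1⟩, hz⟩⟩
    rw [S.mem_tri] at hout
    push Not at hout
    obtain ⟨l', hl'⟩ := hout
    have hll : l' ≠ l := by
      rintro rfl
      rw [hy1] at hl'
      linarith
    have hz'' : 0 < S.ell (j, l') (x + s * w + S.shift (i, k)) := by
      have h3 : l' = l + 1 ∨ l' = l + 2 := by
        revert hll; generalize l' = a; generalize l = b; revert a b; decide
      rcases h3 with h | h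
      · rw [h]; exact hz'.2.1
      · rw [h]; exact hz'.2.2
    have hdec : x + w + S.shift (i, k)
        = (x + s * w + S.shift (i, k)) + ((1 - s : ℝ) : ℂ) * w := by
      push_cast; ring
    have hassoc : x + (w + S.shift (i, k)) = x + w + S.shift (i, k) := by ring
    refine ⟨(i, k), l', hll, ?_, ?_⟩
    · rw [hassoc]
      have h1 := abs_le.1 (hcr (i, k))
      rw [← hj, ← hl, hy1, hadd, abs_le]
      constructor
      · linarith
      · rw [hc]; rw [hc] at hc0; linarith [h1.1]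
    · rw [hassoc, ← hj, hdec, S.ell_add_mul]
      have h1 := abs_le.1 (hcr (j, l'))
      have h2 : S.ell (j, l') (x + w + S.shift (i, k)) ≤ 0 := hl'
      rw [hdec, S.ell_add_mul] at h2
      rw [abs_le]
      constructor
      · nlinarith [h1.1, h1.2, mul_nonneg (sub_nonneg.2 hs1.le) hε0]
      · linarith
  · exact Or.inr (Or.inl ⟨(i, k), hzero⟩)
  · exfalso
    apply hb
    refine ⟨x + w, S.hop_inside (i := i) ((S.mem_tri).2 hxi) ?_⟩
    rw [S.mem_tri]
    intro l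
    by_cases hl : l = k
    · rw [hl]; exact hpos
    · have := hin l hl 1 zero_le_one le_rfl
      simpa using this

theorem bad_bound : ∃ C : ℝ, 0 ≤ C ∧ ∀ w : ℂ,
    S.μ {x | ¬ ∃ y, S.Hop w x y} ≤ ENNReal.ofReal (C * ‖w‖ ^ 2) := by
  choose C hC0 hC using fun (p : (Fin S.n × Fin 3) × Fin 3) => S.corner87 p.1.1 p.1.2 p.2
  set M : ℝ := ∑ e, ‖S.vec e‖ with hM
  have hMe : ∀ e, ‖S.vec e‖ ≤ M := fun e =>
    Finset.single_le_sum (f := fun e => ‖S.vec e‖) (fun _ _ => norm_nonneg _) (Finset.mem_univ e)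
  have hM0 : 0 ≤ M := Finset.sum_nonneg fun _ _ => norm_nonneg _
  set C1 : ℝ := ∑ p : (Fin S.n × Fin 3) × Fin 3, C p with hC1
  set C2 : ℝ := ∑ p : (Fin S.n × Fin 3) × Fin 3, C (S.glue p.1, p.2) with hC2
  have hC10 : 0 ≤ C1 := Finset.sum_nonneg fun p _ => hC0 p
  have hC20 : 0 ≤ C2 := Finset.sum_nonneg fun p _ => hC0 _
  refine ⟨(C1 + C2) * M ^ 2, by positivity, fun w => ?_⟩
  set ε := M * ‖w‖ with hε
  have hε0 : 0 ≤ ε := by positivity
  let T : (Fin S.n × Fin 3) × Fin 3 → Set ℂ := fun p =>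
    {z : ℂ | p.2 ≠ p.1.2 ∧ |S.ell (p.1.1, p.1.2) z| ≤ ε ∧ |S.ell (p.1.1, p.2) z| ≤ ε}
  have hT : ∀ p, volume (T p) ≤ ENNReal.ofReal (C p * ε ^ 2) := fun p => hC p ε hε0
  have hsub : {x | ¬ ∃ y, S.Hop w x y} ∩ S.D ⊆
      ((⋃ p, T p) ∪ (⋃ e, {z | cr (S.vec e) (z - (S.P e.1 e.2 - w)) = 0})) ∪
        ⋃ p : (Fin S.n × Fin 3) × Fin 3, (fun z => z + (w + S.shift p.1)) ⁻¹' T (S.glue p.1, p.2) := by
    rintro x ⟨hb, hx⟩
    rcases S.bad_sub87 hMe w hx hb with ⟨e, l, h⟩ | ⟨e, h⟩ | ⟨e, l, h⟩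
    · exact Or.inl (Or.inl (mem_iUnion.2 ⟨(e, l), h⟩))
    · refine Or.inl (Or.inr (mem_iUnion.2 ⟨e, ?_⟩))
      have : x - (S.P e.1 e.2 - w) = x + w - S.P e.1 e.2 := by ring
      change cr (S.vec e) (x - (S.P e.1 e.2 - w)) = 0
      rw [this]; exact h
    · exact Or.inr (mem_iUnion.2 ⟨(e, l), h⟩)
  have h1 : volume (⋃ p, T p) ≤ ENNReal.ofReal (C1 * ε ^ 2) := by
    calc volume (⋃ p, T p) ≤ ∑ p, volume (T p) := by
          simpa using measure_iUnion_le (μ := volume) T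
      _ ≤ ∑ p, ENNReal.ofReal (C p * ε ^ 2) := Finset.sum_le_sum fun p _ => hT p
      _ = ENNReal.ofReal (C1 * ε ^ 2) := by
          rw [← ENNReal.ofReal_sum_of_nonneg fun p _ => mul_nonneg (hC0 p) (sq_nonneg _),
            hC1, Finset.sum_mul]
  have h2 : volume (⋃ e, {z | cr (S.vec e) (z - (S.P e.1 e.2 - w)) = 0}) = 0 :=
    measure_iUnion_null fun e => line_null (S.vec_ne_zero e) _ _
  have h3 : volume (⋃ p : (Fin S.n × Fin 3) × Fin 3,
      (fun z => z + (w + S.shift p.1)) ⁻¹' T (S.glue p.1, p.2)) ≤ ENNReal.ofReal (C2 * ε ^ 2) := by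
    calc volume (⋃ p : (Fin S.n × Fin 3) × Fin 3,
        (fun z => z + (w + S.shift p.1)) ⁻¹' T (S.glue p.1, p.2))
        ≤ ∑ p : (Fin S.n × Fin 3) × Fin 3,
          volume ((fun z => z + (w + S.shift p.1)) ⁻¹' T (S.glue p.1, p.2)) := by
          simpa using measure_iUnion_le (μ := volume) (fun p : (Fin S.n × Fin 3) × Fin 3 =>
            (fun z => z + (w + S.shift p.1)) ⁻¹' T (S.glue p.1, p.2))
      _ ≤ ∑ p : (Fin S.n × Fin 3) × Fin 3, ENNReal.ofReal (C (S.glue p.1, p.2) * ε ^ 2) := by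
          refine Finset.sum_le_sum fun p _ => ?_
          rw [measure_preimage_add_right]
          exact hT _
      _ = ENNReal.ofReal (C2 * ε ^ 2) := by
          rw [← ENNReal.ofReal_sum_of_nonneg fun p _ => mul_nonneg (hC0 _) (sq_nonneg _),
            hC2, Finset.sum_mul]
  calc S.μ {x | ¬ ∃ y, S.Hop w x y} = volume ({x | ¬ ∃ y, S.Hop w x y} ∩ S.D) := by
        rw [μ, Measure.restrict_apply' S.measurableSet_D]
    _ ≤ _ := measure_mono hsub
    _ ≤ _ := measure_union_le _ _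
    _ ≤ (volume (⋃ p, T p) + volume (⋃ e, {z | cr (S.vec e) (z - (S.P e.1 e.2 - w)) = 0}))
        + volume (⋃ p : (Fin S.n × Fin 3) × Fin 3,
      (fun z => z + (w + S.shift p.1)) ⁻¹' T (S.glue p.1, p.2)) :=
        add_le_add (measure_union_le _ _) le_rfl
    _ ≤ ENNReal.ofReal (C1 * ε ^ 2) + 0 + ENNReal.ofReal (C2 * ε ^ 2) := by
        rw [h2]; gcongr
    _ = ENNReal.ofReal ((C1 + C2) * M ^ 2 * ‖w‖ ^ 2) := by
        rw [add_zero, ← ENNReal.ofReal_add (by positivity) (by positivity), hε]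
        congr 1; ring

end Surf

end Pool.Agent.Helper87.LS
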