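import Pool.Agent.Helper87.LS.Vol
import Pool.Agent.Helper87.LS.Bad

/-!
BLOCK LS-G7. The straight line motion is defined almost everywhere and preserves the measure.

`ae_straight`: let `n ≥ 1`, `w = v/n`, `Bad = {x ∈ D | ¬ ∃ y, Hop w x y}`,
`E k = {x ∈ D | ¬ ∃ y, Straight (k w) x y}` for `1 ≤ k ≤ n`. Then `μ (E 1) ≤ μ Bad` and
`E (k+1) ⊆ E k ∪ {x | ∃ y ∈ Bad', Straight (k w) x y}` with `Bad'` a measurable superset
(`toMeasurable`) of `Bad` of the same volume (if `Straight (k w) x y` and `Hop w y z` then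
`Straight ((k+1) w) x z` by `straight_comp`). By `straight_vol_le`, `μ (E (k+1)) ≤ μ (E k) + μ Bad`,
so `μ (E n) ≤ n C ‖v/n‖² = C ‖v‖²/n` (`bad_bound`) for every `n`: `μ (E n) = 0`, where
`E n = {x ∈ D | ¬ ∃ y, Straight v x y}`. Conclude with `straight_F`.

`measurePreserving_F`: for measurable `B`, a.e. `{x ∈ D | F v x ∈ B} = {x | ∃ y ∈ B ∩ D, Straight v x y}`, so
`μ (F v ⁻¹' B) ≤ volume (B ∩ D) = μ B` by `straight_vol_le`; apply this to `B` and to `Bᶜ`; the sums are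
both `μ univ < ∞`, hence equality.

`F_comp_ae`: for a.e. `x`, `Straight (a u) x (F (a u) x)` and `Straight (b u) (F (a u) x) (F (b u) (F (a u) x))`
(quasi-measure-preserving), then `straight_comp` and `F_eq`.
-/

open MeasureTheory Set Filter

namespace Pool.Agent.Helper87.LS

namespace Surf

variable (S : Surf)

theorem ae_straight_step (w : ℂ) {k : ℕ} (hk : 0 < k) :
    S.μ {x | ¬ ∃ y, S.Straight (((k : ℝ) + 1 : ℝ) * w) x y} ≤
      S.μ {x | ¬ ∃ y, S.Straight ((k : ℝ) * w) x y} + S.μ {x | ¬ ∃ y, S.Hop w x y} := by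
  set Bad : Set ℂ := {x | ¬ ∃ y, S.Hop w x y} with hBad
  set B : Set ℂ := toMeasurable S.μ Bad ∩ S.D with hB
  have hBm : MeasurableSet B := (measurableSet_toMeasurable _ _).inter S.measurableSet_D
  have hBv : volume B = S.μ Bad := by
    rw [← measure_toMeasurable (μ := S.μ) Bad, hB]
    exact (Measure.restrict_apply' S.measurableSet_D).symm
  have hsub : {x | ¬ ∃ y, S.Straight (((k : ℝ) + 1 : ℝ) * w) x y} ∩ S.D ⊆
      ({x | ¬ ∃ y, S.Straight ((k : ℝ) * w) x y} ∩ S.D) ∪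
        {x | ∃ y ∈ B, S.Straight (((k : ℝ) : ℂ) * w) x y} := by
    rintro x ⟨hx, hxD⟩
    by_cases h : ∃ y, S.Straight (((k : ℝ) : ℂ) * w) x y
    · obtain ⟨y, hy⟩ := h
      right
      refine ⟨y, ⟨subset_toMeasurable _ _ ?_, straight_right hy⟩, hy⟩
      rintro ⟨z, hz⟩
      refine hx ⟨z, ?_⟩
      refine straight_comp (Nat.cast_pos.2 hk) one_pos hy (Straight.hop ?_)
      rw [Complex.ofReal_one, one_mul]
      exact hz
    · left
      exact ⟨h, hxD⟩
  calc S.μ {x | ¬ ∃ y, S.Straight (((k : ℝ) + 1 : ℝ) * w) x y}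
      = volume ({x | ¬ ∃ y, S.Straight (((k : ℝ) + 1 : ℝ) * w) x y} ∩ S.D) :=
        Measure.restrict_apply' S.measurableSet_D
    _ ≤ volume (({x | ¬ ∃ y, S.Straight ((k : ℝ) * w) x y} ∩ S.D) ∪
        {x | ∃ y ∈ B, S.Straight (((k : ℝ) : ℂ) * w) x y}) := measure_mono hsub
    _ ≤ volume ({x | ¬ ∃ y, S.Straight ((k : ℝ) * w) x y} ∩ S.D) +
        volume {x | ∃ y ∈ B, S.Straight (((k : ℝ) : ℂ) * w) x y} := measure_union_le _ _
    _ ≤ S.μ {x | ¬ ∃ y, S.Straight ((k : ℝ) * w) x y} + S.μ Bad := by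
        refine add_le_add (le_of_eq (Measure.restrict_apply' S.measurableSet_D).symm) ?_
        rw [← hBv]
        exact S.straight_vol_le _ hBm

theorem ae_straight_bound (w : ℂ) (k : ℕ) :
    S.μ {x | ¬ ∃ y, S.Straight (((k : ℝ) + 1 : ℝ) * w) x y} ≤
      (k + 1) * S.μ {x | ¬ ∃ y, S.Hop w x y} := by
  induction k with
  | zero =>
    have e0 : ((0 : ℕ) : ENNReal) + 1 = 1 := by simp
    rw [e0, one_mul]
    refine measure_mono ?_
    rintro x hx ⟨y, hy⟩
    refine hx ⟨y, ?_⟩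
    simp only [Nat.cast_zero, zero_add, Complex.ofReal_one, one_mul]
    exact Straight.hop hy
  | succ k ih =>
    have h := S.ae_straight_step w (k := k + 1) (Nat.succ_pos k)
    push_cast at h ih ⊢
    refine h.trans ?_
    rw [add_mul _ (1 : ENNReal), one_mul]
    exact add_le_add ih le_rfl

theorem measure_not_straight (v : ℂ) : S.μ {x | ¬ ∃ y, S.Straight v x y} = 0 := by
  obtain ⟨C, hC, hbad⟩ := S.bad_bound
  have hb : ∀ n : ℕ, S.μ {x | ¬ ∃ y, S.Straight v x y} ≤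
      ENNReal.ofReal (C * ‖v‖ ^ 2 / ((n : ℝ) + 1)) := by
    intro n
    have hn : (0 : ℝ) < (n : ℝ) + 1 := by positivity
    have h1 := S.ae_straight_bound (v / ((n : ℝ) + 1 : ℝ)) n
    have e : (((n : ℝ) + 1 : ℝ) : ℂ) * (v / ((n : ℝ) + 1 : ℝ)) = v :=
      mul_div_cancel₀ v (Complex.ofReal_ne_zero.2 hn.ne')
    rw [e] at h1
    refine h1.trans ?_
    refine (mul_le_mul_right (hbad _) _).trans ?_
    have e2 : ((n : ENNReal) + 1) = ENNReal.ofReal ((n : ℝ) + 1) := by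
      rw [ENNReal.ofReal_add (by positivity) zero_le_one, ENNReal.ofReal_natCast,
        ENNReal.ofReal_one]
    rw [e2, ← ENNReal.ofReal_mul hn.le]
    refine ENNReal.ofReal_le_ofReal (le_of_eq ?_)
    rw [norm_div, Complex.norm_real, Real.norm_of_nonneg hn.le]
    field_simp
  have ht : Tendsto (fun n : ℕ => ENNReal.ofReal (C * ‖v‖ ^ 2 / ((n : ℝ) + 1))) atTop
      (nhds 0) := by
    have h := (tendsto_const_div_atTop_nhds_zero_nat (C * ‖v‖ ^ 2)).comp (tendsto_add_atTop_nat 1)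
    have h2 := ENNReal.tendsto_ofReal h
    rw [ENNReal.ofReal_zero] at h2
    refine h2.congr fun n => ?_
    simp
  exact le_antisymm (ge_of_tendsto' ht hb) zero_le

theorem ae_straight (v : ℂ) : ∀ᵐ x ∂S.μ, S.Straight v x (S.F v x) := by
  have h := S.measure_not_straight v
  have h2 : ∀ᵐ x ∂S.μ, ∃ y, S.Straight v x y := by
    rw [ae_iff]
    exact h
  filter_upwards [h2] with x hx
  obtain ⟨y, hy⟩ := hx
  exact straight_F hy

theorem measurePreserving_F (v : ℂ) : MeasurePreserving (S.F v) S.μ S.μ := by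
  refine ⟨S.measurable_F v, ?_⟩
  have hle : Measure.map (S.F v) S.μ ≤ S.μ := by
    refine Measure.le_iff.2 fun B hB => ?_
    rw [Measure.map_apply (S.measurable_F v) hB]
    have h1 : S.F v ⁻¹' B ≤ᵐ[S.μ] {x | ∃ y ∈ B ∩ S.D, S.Straight v x y} := by
      filter_upwards [S.ae_straight v] with x hx hxB
      exact ⟨S.F v x, ⟨hxB, straight_right hx⟩, hx⟩
    calc S.μ (S.F v ⁻¹' B) ≤ S.μ {x | ∃ y ∈ B ∩ S.D, S.Straight v x y} := measure_mono_ae h1
      _ ≤ volume {x | ∃ y ∈ B ∩ S.D, S.Straight v x y} := Measure.restrict_apply_le _ _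
      _ ≤ volume (B ∩ S.D) := S.straight_vol_le v (hB.inter S.measurableSet_D)
      _ = S.μ B := (Measure.restrict_apply' S.measurableSet_D).symm
  refine Measure.eq_of_le_of_measure_univ_eq hle ?_
  rw [Measure.map_apply (S.measurable_F v) MeasurableSet.univ, preimage_univ]

theorem F_comp_ae (u : ℂ) {a b : ℝ} (ha : 0 < a) (hb : 0 < b) :
    ∀ᵐ x ∂S.μ, S.F (b * u) (S.F (a * u) x) = S.F ((a + b : ℝ) * u) x := by
  filter_upwards [S.ae_straight (a * u),
    (S.measurePreserving_F (a * u)).quasiMeasurePreserving.ae (S.ae_straight (b * u))] with x h1 h2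
  exact (F_eq (straight_comp ha hb h1 h2)).symm

end Surf

end Pool.Agent.Helper87.LS
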