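import Pool.Agent.Helper87.LS.Geo

/-!
BLOCK LS-G4. The relation `Straight` is open and locally a translation.

Induction on `Straight`. Hop inside: `tri` is open and `y + (x'-x) + (v'-v) = x' + v'`.
Hop across `k` at parameter `s`: put `L x v = - ell (i,k) x / cr (vec (i,k)) v`, which is `s`
at `(x,v)` (`ell` is affine along the segment, positive at `x`, zero at parameter `s`, hence
negative at `x+v`), is continuous at `(x, v)`; for `(x',v')` near `(x,v)` the point
`x' + L x' v' * v'` is in the open edge by `mem_openSegment_iff` (`ell k = 0` exactly, the other two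
`ell` positive by continuity), `0 < L x' v' < 1`, and `y' = x' + v' + shift` is in the open triangle.
`trans`: take the `δ`s of both pieces; `‖r v' - r v‖ ≤ ‖v' - v‖` etc.,
`‖y' - y‖ ≤ ‖x'-x‖ + ‖v'-v‖`, so `min δ₁ (δ₂/2)` works.
-/

open MeasureTheory Set

namespace Pool.Agent.Helper87.LS

namespace Surf

variable {S : Surf}

theorem hop_eventually {v x y : ℂ} (h : S.Hop v x y) :
    ∀ᶠ p : ℂ × ℂ in nhds (x, v), S.Hop p.2 p.1 (y + (p.1 - x) + (p.2 - v)) := by
  obtain ⟨i, hx, h | ⟨k, hy, hyv, s, hs, hseg⟩⟩ := h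
  · obtain ⟨hy, rfl⟩ := h
    have h1 : ∀ᶠ p : ℂ × ℂ in nhds (x, v), p.1 ∈ tri (S.P i) :=
      continuous_fst.continuousAt.eventually ((S.isOpen_tri i).mem_nhds hx)
    have h2 : ∀ᶠ p : ℂ × ℂ in nhds (x, v), p.1 + p.2 ∈ tri (S.P i) :=
      (continuous_fst.add continuous_snd).continuousAt.eventually
        ((S.isOpen_tri i).mem_nhds hy)
    filter_upwards [h1, h2] with p hp1 hp2
    have e : x + v + (p.1 - x) + (p.2 - v) = p.1 + p.2 := by ring
    rw [e]
    exact hop_inside hp1 hp2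
  · have hseg' := (S.mem_openSegment_iff i k _).1 hseg
    obtain ⟨h0, h1, h2⟩ := hseg'
    rw [ell_add_mul] at h0
    have ha : 0 < S.ell (i, k) x := (S.mem_tri.1 hx) k
    have hc : cr (S.vec (i, k)) v < 0 := by
      by_contra hcon
      push Not at hcon
      nlinarith [hs.1, mul_nonneg hs.1.le hcon]
    set L : ℂ × ℂ → ℝ := fun p => - S.ell (i, k) p.1 / cr (S.vec (i, k)) p.2 with hL
    have hcc : Continuous fun p : ℂ × ℂ => cr (S.vec (i, k)) p.2 :=
      continuous_cr.comp (continuous_const.prodMk continuous_snd)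
    have hLc : ContinuousAt L (x, v) := by
      have h3 : Continuous fun p : ℂ × ℂ => - S.ell (i, k) p.1 :=
        ((S.continuous_ell (i, k)).comp continuous_fst).neg
      exact h3.continuousAt.div hcc.continuousAt hc.ne
    have hLs : L (x, v) = s := by
      simp only [hL]
      rw [div_eq_iff hc.ne]
      linarith
    have e1 : ∀ᶠ p : ℂ × ℂ in nhds (x, v), p.1 ∈ tri (S.P i) :=
      continuous_fst.continuousAt.eventually ((S.isOpen_tri i).mem_nhds hx)
    have e2 : ∀ᶠ p : ℂ × ℂ in nhds (x, v),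
        p.1 + p.2 + S.shift (i, k) ∈ tri (S.P (S.glue (i, k)).1) := by
      have hcont : Continuous fun p : ℂ × ℂ => p.1 + p.2 + S.shift (i, k) :=
        (continuous_fst.add continuous_snd).add continuous_const
      refine hcont.continuousAt.eventually ((S.isOpen_tri _).mem_nhds ?_)
      simp only
      rw [← hyv]
      exact hy
    have e3 : ∀ᶠ p : ℂ × ℂ in nhds (x, v), cr (S.vec (i, k)) p.2 < 0 :=
      hcc.continuousAt.eventually (Iio_mem_nhds hc)
    have e4 : ∀ᶠ p : ℂ × ℂ in nhds (x, v), L p ∈ Ioo (0 : ℝ) 1 := by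
      refine hLc.eventually ?_
      rw [hLs]
      exact Ioo_mem_nhds hs.1 hs.2
    have hz : ContinuousAt (fun p : ℂ × ℂ => p.1 + (L p : ℂ) * p.2) (x, v) := by
      have h4 : ContinuousAt (fun p : ℂ × ℂ => ((L p : ℝ) : ℂ)) (x, v) :=
        Complex.continuous_ofReal.continuousAt.comp hLc
      exact continuous_fst.continuousAt.add (h4.mul continuous_snd.continuousAt)
    have e5 : ∀ j : Fin 3, 0 < S.ell (i, j) (x + (s : ℂ) * v) →
        ∀ᶠ p : ℂ × ℂ in nhds (x, v), 0 < S.ell (i, j) (p.1 + (L p : ℂ) * p.2) := by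
      intro j hj
      have hcj : ContinuousAt (fun p : ℂ × ℂ => S.ell (i, j) (p.1 + (L p : ℂ) * p.2)) (x, v) :=
        (S.continuous_ell (i, j)).continuousAt.comp hz
      refine hcj.eventually (Ioi_mem_nhds ?_)
      change 0 < S.ell (i, j) (x + (L (x, v) : ℂ) * v)
      rw [hLs]
      exact hj
    filter_upwards [e1, e2, e3, e4, e5 _ h1, e5 _ h2] with p hp1 hp2 hp3 hp4 hp5 hp6
    refine ⟨i, hp1, Or.inr ⟨k, ?_, ?_, L p, hp4, ?_⟩⟩
    · have e : y + (p.1 - x) + (p.2 - v) = p.1 + p.2 + S.shift (i, k) := by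
        rw [hyv]; ring
      rw [e]; exact hp2
    · rw [hyv]; ring
    · rw [S.mem_openSegment_iff]
      refine ⟨?_, hp5, hp6⟩
      rw [ell_add_mul]
      simp only [hL]
      field_simp [hp3.ne]
      ring

theorem straight_open {v x y : ℂ} (h : S.Straight v x y) :
    ∃ δ > 0, ∀ x' v' : ℂ, ‖x' - x‖ < δ → ‖v' - v‖ < δ →
      S.Straight v' x' (y + (x' - x) + (v' - v)) := by
  induction h with
  | hop h =>
    obtain ⟨ε, hε, H⟩ := Metric.eventually_nhds_iff.1 (hop_eventually h)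
    refine ⟨ε, hε, fun x' v' hx hv => Straight.hop ?_⟩
    refine H (y := (x', v')) ?_
    rw [Prod.dist_eq, dist_eq_norm, dist_eq_norm]
    exact max_lt hx hv
  | @trans r v x y z hr0 hr1 h1 h2 ih1 ih2 =>
    obtain ⟨δ₁, hδ₁, H1⟩ := ih1
    obtain ⟨δ₂, hδ₂, H2⟩ := ih2
    refine ⟨min δ₁ (δ₂ / 2), lt_min hδ₁ (half_pos hδ₂), fun x' v' hx hv => ?_⟩
    have hx1 : ‖x' - x‖ < δ₁ := lt_of_lt_of_le hx (min_le_left _ _)
    have hx2 : ‖x' - x‖ < δ₂ / 2 := lt_of_lt_of_le hx (min_le_right _ _)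
    have hv1 : ‖v' - v‖ < δ₁ := lt_of_lt_of_le hv (min_le_left _ _)
    have hv2 : ‖v' - v‖ < δ₂ / 2 := lt_of_lt_of_le hv (min_le_right _ _)
    have hrv : ‖(r : ℂ) * v' - r * v‖ = r * ‖v' - v‖ := by
      rw [← mul_sub, norm_mul, Complex.norm_real, Real.norm_of_nonneg hr0.le]
    have hrv1 : ‖((1 - r : ℝ) : ℂ) * v' - ((1 - r : ℝ) : ℂ) * v‖ = (1 - r) * ‖v' - v‖ := by
      rw [← mul_sub, norm_mul, Complex.norm_real, Real.norm_of_nonneg (by linarith)]
    have hn : 0 ≤ ‖v' - v‖ := norm_nonneg _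
    have A := H1 x' (r * v') hx1 (by rw [hrv]; nlinarith)
    have B := H2 (y + (x' - x) + (r * v' - r * v)) (((1 - r : ℝ) : ℂ) * v') (by
      have e : y + (x' - x) + (r * v' - r * v) - y = (x' - x) + (r * v' - r * v) := by ring
      rw [e]
      refine lt_of_le_of_lt (norm_add_le _ _) ?_
      rw [hrv]
      nlinarith) (by rw [hrv1]; nlinarith)
    have C := Straight.trans hr0 hr1 A B
    have e : z + (y + (x' - x) + (r * v' - r * v) - y) +
        (((1 - r : ℝ) : ℂ) * v' - ((1 - r : ℝ) : ℂ) * v) = z + (x' - x) + (v' - v) := by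
      push_cast
      ring
    rw [e] at C
    exact C

end Surf

end Pool.Agent.Helper87.LS
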