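import Pool.Agent.Helper87.LS.RigidB
import Pool.Agent.Helper87.LS.Return
import Pool.Agent.Helper87.LS.OpenS

/-!
BLOCK LS-K. Recurrence of the pair `(u, w)` under `Γ` and the diagonal flow gives partial rigidity.

`Recurrent Γ u w`: there are arbitrarily large `n` and `A ∈ Γ` with `e^n A u` close to `u` and
`e^{-n} A w` close to `w`.

Proof of `rigid_of_recurrent`. From `exists_return`: `a > 0`, `β`, `y`, `i` with `Straight (a u) y (y + β w)`, both
points in `tri i`; `straight_open` gives `δ > 0` with: for `‖x'-y‖ < δ`, `‖v'-a u‖ < δ`,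
`F v' x' = y + β w + (x'-y) + (v' - a u) = x' + (β w + v' - a u)` (`F_eq`). Shrink `δ` so that also
`x' ∈ tri i` and `x' + β w + ζ ∈ tri i` for `‖x'-y‖ < δ`, `‖ζ‖ < δ`. Let `m = μ (ball y δ) > 0`.
For each `k` take `n_k ≥ k`, `A_k ∈ Γ` with `‖u_k - u‖, ‖w_k - w‖ < 1/(k+1)`, `u_k = e^{n_k} A_k u`,
`w_k = e^{-n_k} A_k w`. As `(u_k, w_k) → (u, w)` and `cr u w ≠ 0`, one can write (for `k` large)
`β w - a u = - a_k u_k + b_k w_k` with real `a_k → a`, `b_k → β` (Cramer: `b_k = cr u_k (β w - a u)/cr u_k w_k`,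
`a_k = - cr (β w - a u) w_k / cr u_k w_k`). Put `T_k = a_k e^{n_k} → ∞`, `v_k = A_k (T_k u) = a_k u_k → a u`,
`z_k = b_k e^{-n_k} w → 0`. Then `A_k z_k = b_k w_k = β w - a u + a_k u_k = β w + v_k - a u`. Hence for
`x' ∈ ball y δ` and `k` large `F v_k x' = x' + A_k z_k` and `‖A_k z_k - β w‖ < δ`, so `hop_inside` gives
`F (A_k z_k) x' = x' + A_k z_k = F v_k x'`. Let `φ, ψ` belong to `A_k` (`IsAffine`). For a.e. `x` with
`φ x ∈ ball y δ`: `φ (F (T_k u) x) = F (A_k (T_k u)) (φ x) = F (A_k z_k) (φ x) = φ (F z_k x)`; apply `ψ`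
(`ψ (φ p) = p` for a.e. `p`, pulled back by `F (T_k u)` and `F z_k`): `F (T_k u) x = F z_k x`. The set of
these `x` has measure `μ (φ ⁻¹' ball) = m`. So for a partition `Q`,
`Dq Q (T_k u) ≥ m - μ {x | Q (F z_k x) ≠ Q x} ≥ m - ε` for `k` large (`small_disp`).
-/

open MeasureTheory Set Filter Topology

namespace Pool.Agent.Helper87.LS

/-- Recurrence of the pair `(u, w)`. -/
def Recurrent (Γ : Subgroup (ℂ ≃ₗ[ℝ] ℂ)) (u w : ℂ) : Prop :=
  ∀ ε > 0, ∀ n0 : ℕ, ∃ n ≥ n0, ∃ A ∈ Γ, ‖(Real.exp (n : ℝ) : ℂ) * A u - u‖ < ε ∧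
    ‖(Real.exp (-(n : ℝ)) : ℂ) * A w - w‖ < ε

/-- Expansion in a basis. -/
theorem basis_expand {p r : ℂ} (h : cr p r ≠ 0) (q : ℂ) :
    q = ((cr q r / cr p r : ℝ) : ℂ) * p + ((cr p q / cr p r : ℝ) : ℂ) * r := by
  have h1 : cr q r * p.re + cr p q * r.re = cr p r * q.re := by
    simp only [cr]; ring
  have h2 : cr q r * p.im + cr p q * r.im = cr p r * q.im := by
    simp only [cr]; ring
  apply Complex.ext
  · simp only [Complex.add_re, Complex.re_ofReal_mul]
    field_simp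
    linarith
  · simp only [Complex.add_im, Complex.im_ofReal_mul]
    field_simp
    linarith

theorem real_mul_map (A : ℂ ≃ₗ[ℝ] ℂ) (r : ℝ) (u : ℂ) : A ((r : ℂ) * u) = (r : ℂ) * A u := by
  rw [← Complex.real_smul, map_smul, Complex.real_smul]

namespace Surf

variable (S : Surf)

theorem rigid_step {A : ℂ ≃ₗ[ℝ] ℂ} (hA : S.IsAffine A) {U : Set ℂ} (hU : MeasurableSet U)
    {v z : ℂ} (h : ∀ x ∈ U, S.F (A v) x = S.F (A z) x) {Q : ℂ → ℕ} (hQ : Part Q) {ε : ℝ}
    (hz : S.μ.real {x | Q (S.F z x) ≠ Q x} ≤ ε) : S.μ.real U - ε ≤ S.Dq Q v := by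
  obtain ⟨φ, ψ, hφ, hψ, h1, h2, h3⟩ := hA
  have e1 : ∀ᵐ x ∂S.μ, ψ (φ (S.F v x)) = S.F v x :=
    (S.measurePreserving_F v).quasiMeasurePreserving.ae h1
  have e2 : ∀ᵐ x ∂S.μ, ψ (φ (S.F z x)) = S.F z x :=
    (S.measurePreserving_F z).quasiMeasurePreserving.ae h1
  have key : ∀ᵐ x ∂S.μ, φ x ∈ U → S.F v x = S.F z x := by
    filter_upwards [h3 v, h3 z, e1, e2] with x a1 a2 a3 a4 hx
    rw [← a3, ← a4, a1, a2, h _ hx]
  have hm : S.μ.real U = S.μ.real (φ ⁻¹' U) := by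
    simp only [Measure.real]
    rw [hφ.measure_preimage hU.nullMeasurableSet]
  have hle : S.μ.real (φ ⁻¹' U) ≤
      S.μ.real ({x | Q (S.F v x) = Q x} ∪ {x | Q (S.F z x) ≠ Q x}) := by
    simp only [Measure.real]
    refine ENNReal.toReal_mono (measure_ne_top _ _) (measure_mono_ae ?_)
    filter_upwards [key] with x hx hxU
    have := hx hxU
    by_cases hc : Q (S.F z x) = Q x
    · left
      show Q (S.F v x) = Q x
      rw [this, hc]
    · right; exact hc
  have hun := measureReal_union_le (μ := S.μ) {x | Q (S.F v x) = Q x} {x | Q (S.F z x) ≠ Q x}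
  have : S.Dq Q v = S.μ.real {x | Q (S.F v x) = Q x} := rfl
  linarith

theorem rigid_of_recurrent {Γ : Subgroup (ℂ ≃ₗ[ℝ] ℂ)} (hS : ∀ A ∈ Γ, S.IsAffine A) {u w : ℂ}
    (h : 0 < cr u w) (hr : Recurrent Γ u w) :
    ∃ (t : ℕ → ℝ) (m : ℝ), 0 < m ∧ Tendsto t atTop atTop ∧ S.Rigid u t m := by
  obtain ⟨a, β, y, i, ha, hy, hyw, hst⟩ := S.exists_return h
  obtain ⟨δ1, hδ1, hop⟩ := straight_open hst
  obtain ⟨δ2, hδ2, hb2⟩ := Metric.isOpen_iff.1 (S.isOpen_tri i) y hy
  obtain ⟨δ3, hδ3, hb3⟩ := Metric.isOpen_iff.1 (S.isOpen_tri i) _ hyw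
  obtain ⟨δ, hδ, hδ1', hδ2', hδ3'⟩ : ∃ δ > 0, δ ≤ δ1 ∧ δ ≤ δ2 ∧ δ ≤ δ3 / 2 :=
    ⟨min δ1 (min δ2 (δ3 / 2)), by positivity, min_le_left _ _,
      (min_le_right _ _).trans (min_le_left _ _), (min_le_right _ _).trans (min_le_right _ _)⟩
  have htri1 : ∀ x', ‖x' - y‖ < δ → x' ∈ tri (S.P i) := fun x' hx' =>
    hb2 (by rw [Metric.mem_ball, dist_eq_norm]; linarith)
  have htri2 : ∀ x' ζ : ℂ, ‖x' - y‖ < δ → ‖ζ‖ < δ → x' + (β * w + ζ) ∈ tri (S.P i) := by
    intro x' ζ h1 h2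
    apply hb3
    rw [Metric.mem_ball, dist_eq_norm]
    have : x' + (β * w + ζ) - (y + β * w) = (x' - y) + ζ := by ring
    rw [this]
    calc ‖(x' - y) + ζ‖ ≤ ‖x' - y‖ + ‖ζ‖ := norm_add_le _ _
      _ < δ3 := by linarith
  -- the mass
  have hball : Metric.ball y δ ⊆ S.D := fun x hx => by
    refine mem_iUnion.2 ⟨i, htri1 x ?_⟩
    rwa [Metric.mem_ball, dist_eq_norm] at hx
  have hmpos : 0 < S.μ.real (Metric.ball y δ) := by
    have h1 : S.μ (Metric.ball y δ) = volume (Metric.ball y δ) := by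
      rw [Surf.μ, Measure.restrict_apply Metric.isOpen_ball.measurableSet,
        inter_eq_self_of_subset_left hball]
    simp only [Measure.real]
    rw [ENNReal.toReal_pos_iff]
    refine ⟨?_, measure_lt_top _ _⟩
    rw [h1]
    exact Metric.measure_ball_pos volume y hδ
  -- the sequences
  choose n hn A hA h1 h2 using fun k : ℕ => hr (1 / ((k : ℝ) + 1)) (by positivity) k
  set U : ℕ → ℂ := fun k => (Real.exp (n k : ℝ) : ℂ) * A k u with hU
  set W : ℕ → ℂ := fun k => (Real.exp (-(n k : ℝ)) : ℂ) * A k w with hW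
  have hUt : Tendsto U atTop (𝓝 u) := by
    rw [tendsto_iff_norm_sub_tendsto_zero]
    exact squeeze_zero (fun _ => norm_nonneg _) (fun k => (h1 k).le)
      tendsto_one_div_add_atTop_nhds_zero_nat
  have hWt : Tendsto W atTop (𝓝 w) := by
    rw [tendsto_iff_norm_sub_tendsto_zero]
    exact squeeze_zero (fun _ => norm_nonneg _) (fun k => (h2 k).le)
      tendsto_one_div_add_atTop_nhds_zero_nat
  have hcr : ∀ {f g : ℕ → ℂ} {p q : ℂ}, Tendsto f atTop (𝓝 p) → Tendsto g atTop (𝓝 q) →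
      Tendsto (fun k => cr (f k) (g k)) atTop (𝓝 (cr p q)) := by
    intro f g p q hf hg
    exact (continuous_cr.tendsto (p, q)).comp (hf.prodMk_nhds hg)
  set q : ℂ := β * w - a * u with hq
  have hc : Tendsto (fun k => cr (U k) (W k)) atTop (𝓝 (cr u w)) := hcr hUt hWt
  set b : ℕ → ℝ := fun k => cr (U k) q / cr (U k) (W k) with hb
  set al : ℕ → ℝ := fun k => - (cr q (W k) / cr (U k) (W k)) with hal
  have hcne : cr u w ≠ 0 := h.ne'
  have hbt : Tendsto b atTop (𝓝 β) := by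
    have e : β = cr u q / cr u w := by
      rw [hq]; field_simp; simp [cr]; ring
    rw [e]
    exact (hcr hUt tendsto_const_nhds).div hc hcne
  have halt : Tendsto al atTop (𝓝 a) := by
    have e : a = - (cr q w / cr u w) := by
      rw [hq]; field_simp; simp [cr]; ring
    rw [e]
    exact ((hcr tendsto_const_nhds hWt).div hc hcne).neg
  have hexp : Tendsto (fun k => Real.exp (n k : ℝ)) atTop atTop := by
    apply Real.tendsto_exp_atTop.comp
    apply tendsto_natCast_atTop_atTop.comp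
    exact tendsto_atTop_mono hn tendsto_id
  refine ⟨fun k => al k * Real.exp (n k : ℝ), S.μ.real (Metric.ball y δ), hmpos,
    halt.pos_mul_atTop ha hexp, ?_⟩
  intro Q hQ ε hε
  obtain ⟨δz, hδz, hsmall⟩ := S.small_disp hQ hε
  have hexp0 : Tendsto (fun k => Real.exp (-(n k : ℝ))) atTop (𝓝 0) := by
    apply Real.tendsto_exp_neg_atTop_nhds_zero.comp
    apply tendsto_natCast_atTop_atTop.comp
    exact tendsto_atTop_mono hn tendsto_id
  have hzt : Tendsto (fun k => (((b k * Real.exp (-(n k : ℝ)) : ℝ)) : ℂ) * w) atTop (𝓝 0) := by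
    have e1 : Tendsto (fun k => b k * Real.exp (-(n k : ℝ))) atTop (𝓝 0) := by
      simpa using hbt.mul hexp0
    have e2 := ((Complex.continuous_ofReal.tendsto 0).comp e1).mul_const w
    simpa using e2
  have ht1 : Tendsto (fun k => (al k : ℂ) * U k) atTop (𝓝 ((a : ℂ) * u)) :=
    ((Complex.continuous_ofReal.tendsto a).comp halt).mul hUt
  have ht2 : Tendsto (fun k => (b k : ℂ) * W k) atTop (𝓝 ((β : ℂ) * w)) :=
    ((Complex.continuous_ofReal.tendsto β).comp hbt).mul hWt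
  have ev1 : ∀ᶠ k in atTop, cr (U k) (W k) ≠ 0 := hc.eventually_ne hcne
  have ev2 : ∀ᶠ k in atTop, ‖(al k : ℂ) * U k - a * u‖ < δ := by
    have := (tendsto_iff_norm_sub_tendsto_zero.1 ht1).eventually (gt_mem_nhds hδ)
    exact this
  have ev3 : ∀ᶠ k in atTop, ‖(b k : ℂ) * W k - β * w‖ < δ := by
    have := (tendsto_iff_norm_sub_tendsto_zero.1 ht2).eventually (gt_mem_nhds hδ)
    exact this
  have ev4 : ∀ᶠ k in atTop, ‖(((b k * Real.exp (-(n k : ℝ)) : ℝ)) : ℂ) * w‖ < δz := by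
    have := (tendsto_iff_norm_sub_tendsto_zero.1 hzt).eventually (gt_mem_nhds hδz)
    simpa using this
  filter_upwards [ev1, ev2, ev3, ev4] with k c1 c2 c3 c4
  have hAz : A k ((((b k * Real.exp (-(n k : ℝ)) : ℝ)) : ℂ) * w) = (b k : ℂ) * W k := by
    rw [real_mul_map]
    simp only [hW]
    push_cast
    ring
  have hAv : A k ((((al k * Real.exp (n k : ℝ) : ℝ)) : ℂ) * u) = (al k : ℂ) * U k := by
    rw [real_mul_map]
    simp only [hU]
    push_cast
    ring
  have hexpand : q = -((al k : ℂ) * U k) + (b k : ℂ) * W k := by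
    have := basis_expand c1 q
    rw [this]
    simp only [hal, hb]
    push_cast
    ring
  refine S.rigid_step (hS (A k) (hA k)) Metric.isOpen_ball.measurableSet
    (z := (((b k * Real.exp (-(n k : ℝ)) : ℝ)) : ℂ) * w) ?_ hQ (hsmall _ c4)
  intro x hx
  rw [Metric.mem_ball, dist_eq_norm] at hx
  rw [hAz, hAv]
  have s1 := hop x ((al k : ℂ) * U k) (by linarith) (by linarith)
  have s2 : S.Straight ((b k : ℂ) * W k) x (x + (b k : ℂ) * W k) := by
    apply Straight.hop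
    apply hop_inside (htri1 x hx)
    have := htri2 x ((b k : ℂ) * W k - β * w) hx c3
    have e : x + (β * w + ((b k : ℂ) * W k - β * w)) = x + (b k : ℂ) * W k := by ring
    rwa [e] at this
  rw [F_eq s1, F_eq s2]
  have : (b k : ℂ) * W k = (β * w - a * u) + (al k : ℂ) * U k := by
    rw [← hq, hexpand]; ring
  rw [this]
  ring

end Surf

end Pool.Agent.Helper87.LS
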