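import Pool.Agent.Helper87.LS.Rec
import Pool.Agent.Helper87.LS.RigidR

/-!
BLOCK LS-L2. Almost every pair is recurrent; conservativity of `Γ` on directions.

`ae_recurrent`: let `ε > 0`, `n0`, and `B` an open ball of `ℂ × ℂ` of diameter `< ε` (from a countable
family covering the space, e.g. radius `ε/3` around a dense sequence). The set
`N = {p ∈ B | 0 < cr p.1 p.2 ≤ 1, ∀ n ≥ n0, ∀ γ ∈ Γ, T γ n p ∉ B}` is measurable (`{p | ∃ n ≥ n0, ∃ γ ∈ Γ, T γ n p ∈ B}`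
is open), and if `volume N ≠ 0` then `rec_lemma` gives `n ≥ n0`, `γ` and a point `p ∈ N` with
`T γ n p ∈ N ⊆ B`, a contradiction. So `volume N = 0`; take the union over the balls, over `ε = 1/k`, `n0`.
`ae_exists_recurrent`: Fubini (`Measure.ae_ae_of_ae_prod`), for a.e. `u` a.e. `w` has the property; if
`u ≠ 0` the open set `{w | 0 < cr u w < 1}` is nonempty, so has positive measure.

`cons`: choose `0 < r < R` with `H' = {u ∈ H | r ≤ ‖u‖ ≤ R}` of positive measure, `n0` with `R e^{-n0} < r`. Apply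
`rec_lemma` to `{p | p.1 ∈ H', 0 < cr p.1 p.2 ≤ 1}` (positive measure by Fubini). It gives `n ≥ n0`, `γ` with
`volume {p ∈ ... | T γ n p ∈ ...} ≠ 0`; this set is contained in `B ×ˢ univ`, `B = {u ∈ H' | e^n γ u ∈ H'}`, so
`volume B ≠ 0`. Take `c = e^n`, and for `u1 ∈ B`: `e^n ‖γ u1‖ ≤ R`, so `‖γ u1‖ ≤ R e^{-n} < r ≤ ‖u1‖`.
-/

open MeasureTheory Set Filter

namespace Pool.Agent.Helper87.LS

theorem cr_cont : Continuous fun p : ℂ × ℂ => cr p.1 p.2 := by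
  unfold cr
  fun_prop

theorem cr_cont_right (u : ℂ) : Continuous fun w : ℂ => cr u w := by
  unfold cr
  fun_prop

theorem T_cont (A : ℂ ≃ₗ[ℝ] ℂ) (n : ℕ) : Continuous (T A n) := by
  have hA : Continuous A := (A : ℂ →ₗ[ℝ] ℂ).continuous_of_finiteDimensional
  unfold T
  exact ((continuous_const.mul (hA.comp continuous_fst))).prodMk
    (continuous_const.mul (hA.comp continuous_snd))

theorem slice_nonempty {u : ℂ} (hu : u ≠ 0) : {w : ℂ | 0 < cr u w ∧ cr u w < 1}.Nonempty := by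
  have h0 : 0 < u.re * u.re + u.im * u.im := by
    have := Complex.normSq_pos.mpr hu
    rwa [Complex.normSq_apply] at this
  refine ⟨⟨-(u.im / (2 * (u.re * u.re + u.im * u.im))),
    u.re / (2 * (u.re * u.re + u.im * u.im))⟩, ?_⟩
  have h1 : cr u ⟨-(u.im / (2 * (u.re * u.re + u.im * u.im))),
      u.re / (2 * (u.re * u.re + u.im * u.im))⟩ = 1 / 2 := by
    have h2 : u.re * u.re + u.im * u.im ≠ 0 := h0.ne'
    have h3 : cr u ⟨-(u.im / (2 * (u.re * u.re + u.im * u.im))),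
      u.re / (2 * (u.re * u.re + u.im * u.im))⟩ =
      (u.re * u.re + u.im * u.im) / (2 * (u.re * u.re + u.im * u.im)) := by
      unfold cr
      simp only
      ring
    rw [h3, mul_comm 2, div_mul_cancel_left₀ h2]
    norm_num
  rw [mem_ofPred_eq, h1]
  norm_num

theorem slice_open (u : ℂ) : IsOpen {w : ℂ | 0 < cr u w ∧ cr u w < 1} :=
  (isOpen_lt continuous_const (cr_cont_right u)).inter (isOpen_lt (cr_cont_right u) continuous_const)

theorem ae_recurrent {Γ : Subgroup (ℂ ≃ₗ[ℝ] ℂ)} (hΓ : IsLattice Γ) :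
    ∀ᵐ p ∂(volume : Measure (ℂ × ℂ)), 0 < cr p.1 p.2 → cr p.1 p.2 ≤ 1 → Recurrent Γ p.1 p.2 := by
  have h1 : ∀ B ∈ TopologicalSpace.countableBasis (ℂ × ℂ), ∀ n0 : ℕ,
      ∀ᵐ p ∂(volume : Measure (ℂ × ℂ)), ¬ (p ∈ B ∧ 0 < cr p.1 p.2 ∧ cr p.1 p.2 ≤ 1 ∧
        ∀ n ≥ n0, ∀ γ ∈ Γ, T γ n p ∉ B) := by
    intro B hB n0
    have hBo : IsOpen B := TopologicalSpace.isOpen_of_mem_countableBasis hB
    set N : Set (ℂ × ℂ) := {p | p ∈ B ∧ 0 < cr p.1 p.2 ∧ cr p.1 p.2 ≤ 1 ∧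
        ∀ n ≥ n0, ∀ γ ∈ Γ, T γ n p ∉ B} with hN
    have hNm : MeasurableSet N := by
      have h2 : N = (B ∩ ({p | 0 < cr p.1 p.2} ∩ {p | cr p.1 p.2 ≤ 1})) ∩
          (⋃ n : ℕ, ⋃ _ : n ≥ n0, ⋃ γ : ℂ ≃ₗ[ℝ] ℂ, ⋃ _ : γ ∈ Γ, T γ n ⁻¹' B)ᶜ := by
        ext p
        simp only [hN, mem_ofPred_eq, mem_inter_iff, mem_compl_iff, mem_iUnion, mem_preimage,
          not_exists]
        constructor
        · rintro ⟨a, b, c, d⟩
          exact ⟨⟨a, b, c⟩, fun n hn γ hγ => d n hn γ hγ⟩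
        · rintro ⟨⟨a, b, c⟩, d⟩
          exact ⟨a, b, c, fun n hn γ hγ => d n hn γ hγ⟩
      rw [h2]
      refine (hBo.measurableSet.inter ((isOpen_lt continuous_const cr_cont).measurableSet.inter
        (isClosed_le cr_cont continuous_const).measurableSet)).inter (IsOpen.measurableSet ?_).compl
      exact isOpen_iUnion fun n => isOpen_iUnion fun _ => isOpen_iUnion fun γ => isOpen_iUnion fun _ =>
        hBo.preimage (T_cont γ n)
    rw [ae_iff]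
    have h3 : {p : ℂ × ℂ | ¬¬ (p ∈ B ∧ 0 < cr p.1 p.2 ∧ cr p.1 p.2 ≤ 1 ∧
        ∀ n ≥ n0, ∀ γ ∈ Γ, T γ n p ∉ B)} = N := by
      ext p
      simp only [hN, mem_ofPred_eq, not_not]
    rw [h3]
    by_contra hne
    obtain ⟨n, hn, γ, hγ, hv⟩ := rec_lemma hΓ hNm hne (fun p hp => ⟨hp.2.1, hp.2.2.1⟩) n0
    apply hv
    have h4 : {p ∈ N | T γ n p ∈ N} = ∅ := by
      ext p
      simp only [mem_ofPred_eq, mem_empty_iff_false, iff_false, not_and]
      intro hp hq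
      exact hp.2.2.2 n hn γ hγ hq.1
    rw [h4, measure_empty]
  have h2 : ∀ᵐ p ∂(volume : Measure (ℂ × ℂ)), ∀ B ∈ TopologicalSpace.countableBasis (ℂ × ℂ),
      ∀ n0 : ℕ, ¬ (p ∈ B ∧ 0 < cr p.1 p.2 ∧ cr p.1 p.2 ≤ 1 ∧
        ∀ n ≥ n0, ∀ γ ∈ Γ, T γ n p ∉ B) := by
    rw [ae_ball_iff (TopologicalSpace.countable_countableBasis _)]
    intro B hB
    rw [ae_all_iff]
    exact h1 B hB
  filter_upwards [h2] with p hp ha hb ε hε n0
  have hU : IsOpen {q : ℂ × ℂ | ‖q.1 - p.1‖ < ε ∧ ‖q.2 - p.2‖ < ε} :=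
    (isOpen_lt (f := fun q : ℂ × ℂ => ‖q.1 - p.1‖) (by fun_prop) continuous_const).inter
      (isOpen_lt (f := fun q : ℂ × ℂ => ‖q.2 - p.2‖) (by fun_prop) continuous_const)
  have hpU : p ∈ {q : ℂ × ℂ | ‖q.1 - p.1‖ < ε ∧ ‖q.2 - p.2‖ < ε} := by
    simp [hε]
  obtain ⟨B, hB, hpB, hBU⟩ := (TopologicalSpace.isBasis_countableBasis (ℂ × ℂ)).exists_subset_of_mem_open
    hpU hU
  have h3 := hp B hB n0
  by_contra hcon
  apply h3
  refine ⟨hpB, ha, hb, fun n hn γ hγ hT => hcon ?_⟩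
  have h4 := hBU hT
  exact ⟨n, hn, γ, hγ, h4.1, h4.2⟩

theorem ae_exists_recurrent {Γ : Subgroup (ℂ ≃ₗ[ℝ] ℂ)} (hΓ : IsLattice Γ) :
    ∀ᵐ u ∂(volume : Measure ℂ), ∃ w, 0 < cr u w ∧ Recurrent Γ u w := by
  have h1 := ae_recurrent hΓ
  rw [Measure.volume_eq_prod] at h1
  have h2 := Measure.ae_ae_of_ae_prod h1
  have h3 : ∀ᵐ u : ℂ ∂(volume : Measure ℂ), u ≠ 0 := Measure.ae_ne _ 0
  filter_upwards [h2, h3] with u hu hu0
  have hd : Dense {w : ℂ | 0 < cr u w → cr u w ≤ 1 → Recurrent Γ u w} := Measure.dense_of_ae hu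
  obtain ⟨w, hw1, hw2⟩ := hd.inter_open_nonempty _ (slice_open u) (slice_nonempty hu0)
  exact ⟨w, hw1.1, hw2 hw1.1 hw1.2.le⟩

theorem cons {Γ : Subgroup (ℂ ≃ₗ[ℝ] ℂ)} (hΓ : IsLattice Γ) {H : Set ℂ} (hH : MeasurableSet H)
    (hpos : volume H ≠ 0) : ∃ A ∈ Γ, ∃ c : ℝ, 0 < c ∧ (∃ u1 : ℂ, ‖A u1‖ < ‖u1‖) ∧
      volume {u ∈ H | (c : ℂ) * A u ∈ H} ≠ 0 := by
  -- the annulus
  obtain ⟨k, hk⟩ : ∃ k : ℕ, volume (H ∩ {u : ℂ | 1 / ((k : ℝ) + 1) ≤ ‖u‖ ∧ ‖u‖ ≤ k + 1}) ≠ 0 := by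
    by_contra hcon
    push Not at hcon
    apply hpos
    have h1 : volume (⋃ k : ℕ, H ∩ {u : ℂ | 1 / ((k : ℝ) + 1) ≤ ‖u‖ ∧ ‖u‖ ≤ k + 1}) = 0 :=
      measure_iUnion_null_iff.mpr hcon
    have h2 : H ⊆ (⋃ k : ℕ, H ∩ {u : ℂ | 1 / ((k : ℝ) + 1) ≤ ‖u‖ ∧ ‖u‖ ≤ k + 1}) ∪ {0} := by
      intro u hu
      by_cases hu0 : u = 0
      · exact Or.inr hu0
      · left
        have h3 : 0 < ‖u‖ := norm_pos_iff.mpr hu0
        obtain ⟨k1, hk1⟩ := exists_nat_gt (1 / ‖u‖)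
        obtain ⟨k2, hk2⟩ := exists_nat_gt ‖u‖
        refine mem_iUnion.mpr ⟨max k1 k2, hu, ?_, ?_⟩
        · rw [div_le_iff₀ (by positivity)]
          rw [div_lt_iff₀ h3] at hk1
          have h4 : (k1 : ℝ) ≤ (max k1 k2 : ℕ) := by exact_mod_cast le_max_left _ _
          nlinarith
        · have h4 : (k2 : ℝ) ≤ (max k1 k2 : ℕ) := by exact_mod_cast le_max_right _ _
          linarith
    refine le_antisymm ((measure_mono h2).trans ((measure_union_le _ _).trans ?_)) bot_le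
    rw [h1, measure_singleton, zero_add]
  set r : ℝ := 1 / ((k : ℝ) + 1) with hr
  set R : ℝ := k + 1 with hR
  have hr0 : 0 < r := by positivity
  have hR0 : 0 < R := by positivity
  set H' : Set ℂ := H ∩ {u : ℂ | r ≤ ‖u‖ ∧ ‖u‖ ≤ R} with hH'
  have hH'm : MeasurableSet H' := hH.inter
    (((isClosed_le continuous_const continuous_norm).inter
      (isClosed_le continuous_norm continuous_const)).measurableSet)
  obtain ⟨n0, hn0⟩ : ∃ n0 : ℕ, R * Real.exp (-(n0 : ℝ)) < r := by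
    have h1 : Tendsto (fun n : ℕ => R * Real.exp (-(n : ℝ))) atTop (nhds (R * 0)) :=
      (Real.tendsto_exp_neg_atTop_nhds_zero.comp tendsto_natCast_atTop_atTop).const_mul R
    rw [mul_zero] at h1
    exact (h1.eventually (gt_mem_nhds hr0)).exists
  set A : Set (ℂ × ℂ) := {p | p.1 ∈ H' ∧ 0 < cr p.1 p.2 ∧ cr p.1 p.2 ≤ 1} with hAdef
  have hAm : MeasurableSet A := by
    have h2 : A = (Prod.fst ⁻¹' H') ∩ ({p | 0 < cr p.1 p.2} ∩ {p | cr p.1 p.2 ≤ 1}) := by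
      ext p
      simp only [hAdef, mem_ofPred_eq, mem_inter_iff, mem_preimage]
    rw [h2]
    exact (measurable_fst hH'm).inter ((isOpen_lt continuous_const cr_cont).measurableSet.inter
        (isClosed_le cr_cont continuous_const).measurableSet)
  have hApos : volume A ≠ 0 := by
    intro h0
    rw [Measure.volume_eq_prod, Measure.measure_prod_null hAm] at h0
    apply hk
    rw [measure_eq_zero_iff_ae_notMem]
    filter_upwards [h0] with u hu huH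
    have hu0 : u ≠ 0 := by
      intro h
      have := huH.2.1
      rw [h, norm_zero] at this
      linarith
    have h1 : {w : ℂ | 0 < cr u w ∧ cr u w < 1} ⊆ Prod.mk u ⁻¹' A := by
      intro w hw
      exact ⟨huH, hw.1, hw.2.le⟩
    have h2 : 0 < volume {w : ℂ | 0 < cr u w ∧ cr u w < 1} :=
      (slice_open u).measure_pos volume (slice_nonempty hu0)
    have h3 := measure_mono h1 (μ := (volume : Measure ℂ))
    rw [hu] at h3
    exact absurd (lt_of_lt_of_le h2 h3) (lt_irrefl _)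
  obtain ⟨n, hn, γ, hγ, hv⟩ := rec_lemma hΓ hAm hApos (fun p hp => hp.2) n0
  set B : Set ℂ := {u ∈ H' | ((Real.exp (n : ℝ) : ℝ) : ℂ) * γ u ∈ H'} with hB
  have hBpos : volume B ≠ 0 := by
    intro h0
    apply hv
    have h1 : {p ∈ A | T γ n p ∈ A} ⊆ B ×ˢ univ := by
      intro p hp
      refine ⟨⟨hp.1.1, ?_⟩, mem_univ _⟩
      have := hp.2.1
      exact this
    refine le_antisymm ((measure_mono h1).trans ?_) bot_le
    rw [Measure.volume_eq_prod, Measure.prod_prod, h0, zero_mul]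
  refine ⟨γ, hγ, Real.exp (n : ℝ), Real.exp_pos _, ?_, ?_⟩
  · obtain ⟨u1, hu1⟩ : B.Nonempty := nonempty_of_measure_ne_zero hBpos
    refine ⟨u1, ?_⟩
    have h1 := hu1.1.2.1
    have h2 := hu1.2.2.2
    rw [norm_mul, Complex.norm_real, Real.norm_eq_abs, abs_of_pos (Real.exp_pos _)] at h2
    have h3 : Real.exp (-(n : ℝ)) * Real.exp (n : ℝ) = 1 := by
      rw [← Real.exp_add, neg_add_cancel, Real.exp_zero]
    have h4 : ‖γ u1‖ ≤ R * Real.exp (-(n : ℝ)) := by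
      calc ‖γ u1‖ = (Real.exp (-(n : ℝ)) * Real.exp (n : ℝ)) * ‖γ u1‖ := by rw [h3, one_mul]
        _ = Real.exp (-(n : ℝ)) * (Real.exp (n : ℝ) * ‖γ u1‖) := by ring
        _ ≤ Real.exp (-(n : ℝ)) * R := mul_le_mul_of_nonneg_left h2 (Real.exp_pos _).le
        _ = R * Real.exp (-(n : ℝ)) := by ring
    have h5 : Real.exp (-(n : ℝ)) ≤ Real.exp (-(n0 : ℝ)) := by
      apply Real.exp_le_exp.mpr
      have : (n0 : ℝ) ≤ n := by exact_mod_cast hn
      linarith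
    have h6 : R * Real.exp (-(n : ℝ)) ≤ R * Real.exp (-(n0 : ℝ)) :=
      mul_le_mul_of_nonneg_left h5 hR0.le
    linarith
  · intro h0
    apply hBpos
    refine le_antisymm ((measure_mono ?_).trans h0.le) bot_le
    intro u hu
    exact ⟨hu.1.1, hu.2.1⟩

end Pool.Agent.Helper87.LS
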