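import Pool.Agent.Helper87.LS.AeS

/-!
BLOCK LS-C1. Small vectors move points very little; correlation functions of finite partitions.

`Part Q`: `Q : ℂ → ℕ` measurable with finite range. `Dq Q v = μ {x | Q (F v x) = Q x}`.

`near_id`: choose a compact `K ⊆ D` with `μ (Kᶜ) ≤ ε` (inner regularity, `D` open of finite volume); let
`δ` be such that the `δ`-thickening of `K` is inside `D`, and even such that for `x ∈ K` the ball of
radius `δ` around `x` lies in ONE triangle (Lebesgue number lemma for the cover of `K` by the open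
triangles, or: the ball is connected / `x + s w ∈ D` ...). For `x ∈ K`, `‖w‖ < δ`: `hop_inside` gives
`Straight w x (x+w)`, so `F w x = x + w` (`F_eq`).

`small_disp`: `{x | Q (F z x) ≠ Q x} ⊆ ⋃ a ∈ range Q, {x | Q x = a, Q (F z x) ≠ a}`, a finite union. For
a measurable set `B = {Q = a}` choose compact `K ⊆ B ∩ D` and an open `U ⊇ B ∩ D` with `μ (B \ K) ≤ ε`,
`μ (U \ B) ≤ ε` (regularity); for `‖z‖` small and `x ∈ K`, `x + z ∈ U` and (off a set of measure `ε`,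
`near_id`) `F z x = x + z`, so `μ (B \ F z ⁻¹' B) ≤ μ (B \ K) + ε + μ (F z ⁻¹' (U \ B)) ≤ 3 ε`.

`Dq_comp`: `Dq Q v' = μ {y | Q (F v' y) = Q y} = μ {x | Q (F v' (φ x)) = Q (φ x)}` (`φ` preserves `μ`)
`= μ {x | Q (φ (F v x)) = Q (φ x)}`.
-/

open MeasureTheory Set

namespace Pool.Agent.Helper87.LS

/-- Finite valued measurable functions (finite measurable partitions). -/
def Part (Q : ℂ → ℕ) : Prop := Measurable Q ∧ (range Q).Finite

theorem Part.comp {Q : ℂ → ℕ} (hQ : Part Q) {φ : ℂ → ℂ} (hφ : Measurable φ) : Part (Q ∘ φ) :=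
  ⟨hQ.1.comp hφ, hQ.2.subset (range_comp_subset_range φ Q)⟩

namespace Surf

variable (S : Surf)

/-- The measure of the set of points which stay in the same member of the partition. -/
noncomputable def Dq (Q : ℂ → ℕ) (v : ℂ) : ℝ := S.μ.real {x | Q (S.F v x) = Q x}

theorem Dq_nonneg (Q : ℂ → ℕ) (v : ℂ) : 0 ≤ S.Dq Q v := measureReal_nonneg

theorem Dq_le (Q : ℂ → ℕ) (v : ℂ) : S.Dq Q v ≤ S.μ.real univ :=
  measureReal_mono (subset_univ _)

theorem near_id_compact {ε : ℝ} (hε : 0 < ε) :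
    ∃ K : Set ℂ, K ⊆ S.D ∧ IsCompact K ∧ S.μ Kᶜ ≤ ENNReal.ofReal ε ∧
      ∃ δ > 0, ∀ w : ℂ, ‖w‖ < δ → ∀ x ∈ K, S.F w x = x + w := by
  obtain ⟨K, hKD, hK, hKv⟩ := S.measurableSet_D.exists_isCompact_sdiff_lt
    (μ := (volume : Measure ℂ)) S.volume_D_lt_top.ne (ENNReal.ofReal_pos.2 hε).ne'
  refine ⟨K, hKD, hK, ?_, ?_⟩
  · rw [Surf.μ, Measure.restrict_apply' S.measurableSet_D]
    refine le_trans (le_of_eq ?_) hKv.le
    congr 1
    ext x
    simp only [mem_inter_iff, mem_compl_iff, mem_sdiff]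
    tauto
  · obtain ⟨δ, hδ, h⟩ := lebesgue_number_lemma_of_metric hK (fun i => S.isOpen_tri i)
      (show K ⊆ ⋃ i, tri (S.P i) from hKD)
    refine ⟨δ, hδ, fun w hw x hx => ?_⟩
    obtain ⟨i, hi⟩ := h x hx
    refine F_eq (Straight.hop (hop_inside (i := i) (hi (Metric.mem_ball_self hδ)) (hi ?_)))
    rw [Metric.mem_ball, dist_eq_norm, add_sub_cancel_left]
    exact hw

theorem near_id {ε : ℝ} (hε : 0 < ε) :
    ∃ δ > 0, ∀ w : ℂ, ‖w‖ < δ → S.μ.real {x | S.F w x ≠ x + w} ≤ ε := by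
  obtain ⟨K, hKD, hK, hKv, δ, hδ, h⟩ := S.near_id_compact hε
  refine ⟨δ, hδ, fun w hw => ?_⟩
  refine ENNReal.toReal_le_of_le_ofReal hε.le (le_trans (measure_mono ?_) hKv)
  intro x hx hxK
  exact hx (h w hw x hxK)

theorem measurableSet_ne_F {Q : ℂ → ℕ} (hQ : Part Q) (z : ℂ) :
    MeasurableSet {x | Q (S.F z x) ≠ Q x} :=
  (measurableSet_eq_fun (hQ.1.comp (S.measurable_F z)) hQ.1).compl

theorem small_disp_set {B : Set ℂ} (hB : MeasurableSet B) {ε : ℝ} (hε : 0 < ε) :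
    ∃ δ > 0, ∀ z : ℂ, ‖z‖ < δ → S.μ (B \ S.F z ⁻¹' B) ≤ ENNReal.ofReal ε := by
  have hε3 : 0 < ε / 3 := by positivity
  have hε3' : ENNReal.ofReal (ε / 3) ≠ 0 := (ENNReal.ofReal_pos.2 hε3).ne'
  obtain ⟨K₀, -, hK₀, hK₀v, δ₀, hδ₀, h₀⟩ := S.near_id_compact hε3
  have hfin : volume (B ∩ S.D) ≠ ⊤ :=
    ((measure_mono inter_subset_right).trans_lt S.volume_D_lt_top).ne
  obtain ⟨K, hKB, hK, hKv⟩ := (hB.inter S.measurableSet_D).exists_isCompact_sdiff_lt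
    (μ := (volume : Measure ℂ)) hfin hε3'
  obtain ⟨U, hBU, hU, -, hUv⟩ := (hB.inter S.measurableSet_D).exists_isOpen_sdiff_lt
    (μ := (volume : Measure ℂ)) hfin hε3'
  obtain ⟨δ₁, hδ₁, h₁⟩ := hK.exists_thickening_subset_open hU (hKB.trans hBU)
  refine ⟨min δ₀ δ₁, lt_min hδ₀ hδ₁, fun z hz => ?_⟩
  have hz0 := hz.trans_le (min_le_left _ _)
  have hz1 := hz.trans_le (min_le_right _ _)
  have hUB : MeasurableSet (U \ B) := hU.measurableSet.diff hB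
  have hsub : B \ S.F z ⁻¹' B ⊆ (B \ K) ∪ (K₀ᶜ ∪ S.F z ⁻¹' (U \ B)) := by
    rintro x ⟨hxB, hx⟩
    by_cases hxK : x ∈ K
    · by_cases hxK₀ : x ∈ K₀
      · right
        right
        refine ⟨?_, hx⟩
        rw [h₀ z hz0 x hxK₀]
        refine h₁ (Metric.mem_thickening_iff.2 ⟨x, hxK, ?_⟩)
        rw [dist_eq_norm, add_sub_cancel_left]
        exact hz1
      · right
        left
        exact hxK₀
    · left
      exact ⟨hxB, hxK⟩
  have e1 : S.μ (B \ K) ≤ ENNReal.ofReal (ε / 3) := by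
    rw [Surf.μ, Measure.restrict_apply' S.measurableSet_D]
    refine le_trans (measure_mono ?_) hKv.le
    rintro x ⟨⟨h1, h2⟩, h3⟩
    exact ⟨⟨h1, h3⟩, h2⟩
  have e2 : S.μ (S.F z ⁻¹' (U \ B)) ≤ ENNReal.ofReal (ε / 3) := by
    rw [(S.measurePreserving_F z).measure_preimage hUB.nullMeasurableSet, Surf.μ,
      Measure.restrict_apply' S.measurableSet_D]
    refine le_trans (measure_mono ?_) hUv.le
    rintro x ⟨⟨h1, h2⟩, h3⟩
    exact ⟨h1, fun h => h2 h.1⟩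
  calc S.μ (B \ S.F z ⁻¹' B) ≤ S.μ ((B \ K) ∪ (K₀ᶜ ∪ S.F z ⁻¹' (U \ B))) := measure_mono hsub
    _ ≤ S.μ (B \ K) + (S.μ K₀ᶜ + S.μ (S.F z ⁻¹' (U \ B))) :=
        (measure_union_le _ _).trans (add_le_add le_rfl (measure_union_le _ _))
    _ ≤ ENNReal.ofReal (ε / 3) + (ENNReal.ofReal (ε / 3) + ENNReal.ofReal (ε / 3)) :=
        add_le_add e1 (add_le_add hK₀v e2)
    _ = ENNReal.ofReal ε := by
        rw [← ENNReal.ofReal_add hε3.le hε3.le, ← ENNReal.ofReal_add hε3.le (by positivity)]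
        congr 1
        ring

theorem small_disp {Q : ℂ → ℕ} (hQ : Part Q) {ε : ℝ} (hε : 0 < ε) :
    ∃ δ > 0, ∀ z : ℂ, ‖z‖ < δ → S.μ.real {x | Q (S.F z x) ≠ Q x} ≤ ε := by
  obtain ⟨A, hA⟩ : ∃ A : Finset ℕ, ∀ x, Q x ∈ A :=
    ⟨hQ.2.toFinset, fun x => by simp⟩
  have hη : 0 < ε / (A.card + 1) := by positivity
  have hset : ∀ a : ℕ, ∃ δ > 0, ∀ z : ℂ, ‖z‖ < δ →
      S.μ ((Q ⁻¹' {a}) \ S.F z ⁻¹' (Q ⁻¹' {a})) ≤ ENNReal.ofReal (ε / (A.card + 1)) :=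
    fun a => S.small_disp_set (hQ.1 (measurableSet_singleton a)) hη
  choose δ hδ h using hset
  obtain ⟨d, hd, hdA⟩ : ∃ d > 0, ∀ a ∈ A, d ≤ δ a := by
    rcases A.eq_empty_or_nonempty with hA0 | hA0
    · exact ⟨1, one_pos, by simp [hA0]⟩
    · refine ⟨A.inf' hA0 δ, ?_, fun a ha => Finset.inf'_le _ ha⟩
      exact (Finset.lt_inf'_iff hA0).2 fun a _ => hδ a
  refine ⟨d, hd, fun z hz => ?_⟩
  refine ENNReal.toReal_le_of_le_ofReal hε.le ?_
  have hsub : {x | Q (S.F z x) ≠ Q x} ⊆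
      ⋃ a ∈ A, (Q ⁻¹' {a}) \ S.F z ⁻¹' (Q ⁻¹' {a}) := by
    intro x hx
    simp only [mem_iUnion]
    exact ⟨Q x, hA x, rfl, fun h => hx h⟩
  calc S.μ {x | Q (S.F z x) ≠ Q x}
      ≤ S.μ (⋃ a ∈ A, (Q ⁻¹' {a}) \ S.F z ⁻¹' (Q ⁻¹' {a})) := measure_mono hsub
    _ ≤ ∑ a ∈ A, S.μ ((Q ⁻¹' {a}) \ S.F z ⁻¹' (Q ⁻¹' {a})) := measure_biUnion_finset_le _ _
    _ ≤ ∑ a ∈ A, ENNReal.ofReal (ε / (A.card + 1)) :=
        Finset.sum_le_sum fun a ha => h a z (hz.trans_le (hdA a ha))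
    _ = ENNReal.ofReal (A.card * (ε / (A.card + 1))) := by
        rw [Finset.sum_const, nsmul_eq_mul, ENNReal.ofReal_mul (Nat.cast_nonneg _),
          ENNReal.ofReal_natCast]
    _ ≤ ENNReal.ofReal ε := by
        refine ENNReal.ofReal_le_ofReal ?_
        rw [← mul_div_assoc, div_le_iff₀ (by positivity)]
        nlinarith

theorem Dq_comp {Q : ℂ → ℕ} (hQ : Part Q) {φ : ℂ → ℂ} (hφ : MeasurePreserving φ S.μ S.μ)
    {v v' : ℂ} (h : ∀ᵐ x ∂S.μ, φ (S.F v x) = S.F v' (φ x)) : S.Dq Q v' = S.Dq (Q ∘ φ) v := by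
  have hm : MeasurableSet {x | Q (S.F v' x) = Q x} :=
    measurableSet_eq_fun (hQ.1.comp (S.measurable_F v')) hQ.1
  unfold Dq
  rw [← hφ.measureReal_preimage hm.nullMeasurableSet]
  refine measureReal_congr ?_
  filter_upwards [h] with x hx
  refine propext ?_
  show Q (S.F v' (φ x)) = Q (φ x) ↔ Q (φ (S.F v x)) = Q (φ x)
  rw [hx]

end Surf

end Pool.Agent.Helper87.LS
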