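import Mathlib

/-!
Translation surfaces as finite families of disjoint open triangles in the plane, glued along
edges by translations; the straight line flows; affine symmetries; lattices.
-/

open MeasureTheory Set

namespace Pool.Agent.Helper87.LS

noncomputable section

/-- The cross product of two plane vectors. -/
def cr (z w : ℂ) : ℝ := z.re * w.im - z.im * w.re

/-- The open triangle with (counterclockwise) vertices `Q 0, Q 1, Q 2`. -/
def tri (Q : Fin 3 → ℂ) : Set ℂ := {z | ∀ k, 0 < cr (Q (k + 1) - Q k) (z - Q k)}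

/-- A translation surface: `n ≥ 1` pairwise disjoint open triangles in the plane whose edges are
glued in pairs by translations. The edge `(i, k)` runs from `P i k` to `P i (k + 1)` and is glued
to the edge `glue (i, k)`, which is the opposite vector. -/
structure Surf where
  n : ℕ
  pos : 0 < n
  P : Fin n → Fin 3 → ℂ
  glue : Fin n × Fin 3 → Fin n × Fin 3
  invol : ∀ e, glue (glue e) = e
  orient : ∀ i, 0 < cr (P i 1 - P i 0) (P i 2 - P i 0)
  opp : ∀ e, P (glue e).1 ((glue e).2 + 1) - P (glue e).1 (glue e).2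
    = -(P e.1 (e.2 + 1) - P e.1 e.2)
  disj : ∀ i j, i ≠ j → Disjoint (tri (P i)) (tri (P j))

namespace Surf

variable (S : Surf)

/-- The union of the open triangles. -/
def D : Set ℂ := ⋃ i, tri (S.P i)

/-- The area measure. -/
def μ : Measure ℂ := volume.restrict S.D

/-- The translation which glues the edge `e` to the edge `glue e`. -/
def shift (e : Fin S.n × Fin 3) : ℂ :=
  S.P (S.glue e).1 (S.glue e).2 - S.P e.1 (e.2 + 1)

/-- `y` is reached from `x` along the vector `v` inside a triangle, or across exactly one edge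
(at an interior point of this edge). -/
def Hop (v x y : ℂ) : Prop :=
  ∃ i, x ∈ tri (S.P i) ∧ ((y ∈ tri (S.P i) ∧ y = x + v) ∨
    ∃ k, y ∈ tri (S.P (S.glue (i, k)).1) ∧ y = x + v + S.shift (i, k) ∧
      ∃ s ∈ Ioo (0 : ℝ) 1, x + (s : ℂ) * v ∈ openSegment ℝ (S.P i k) (S.P i (k + 1)))

/-- `y` is reached from `x` by the straight segment with vector `v` on the surface. -/
inductive Straight : ℂ → ℂ → ℂ → Prop
  | hop {v x y : ℂ} : S.Hop v x y → Straight v x y
  | trans {r : ℝ} {v x y z : ℂ} : 0 < r → r < 1 → Straight (r * v) x y →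
      Straight (((1 - r : ℝ) : ℂ) * v) y z → Straight v x z

open Classical in
/-- The straight line motion by the vector `v` (defined almost everywhere by `Straight`). -/
def F (v x : ℂ) : ℂ := if h : ∃ y, S.Straight v x y then h.choose else x

/-- The flows in the directions `θ` and `θ'` are isomorphic. -/
def FlowIso (θ θ' : ℝ) : Prop :=
  ∃ Φ Ψ : ℂ → ℂ, MeasurePreserving Φ S.μ S.μ ∧ MeasurePreserving Ψ S.μ S.μ ∧
    (∀ᵐ x ∂S.μ, Ψ (Φ x) = x) ∧ (∀ᵐ x ∂S.μ, Φ (Ψ x) = x) ∧
    ∀ t : ℝ, ∀ᵐ x ∂S.μ, Φ (S.F (t * Complex.exp (θ * Complex.I)) x)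
      = S.F (t * Complex.exp (θ' * Complex.I)) (Φ x)

/-- `A` is the derivative of an affine symmetry of the surface. -/
def IsAffine (A : ℂ ≃ₗ[ℝ] ℂ) : Prop :=
  ∃ φ ψ : ℂ → ℂ, MeasurePreserving φ S.μ S.μ ∧ MeasurePreserving ψ S.μ S.μ ∧
    (∀ᵐ x ∂S.μ, ψ (φ x) = x) ∧ (∀ᵐ x ∂S.μ, φ (ψ x) = x) ∧
    ∀ v : ℂ, ∀ᵐ x ∂S.μ, φ (S.F v x) = S.F (A v) (φ x)

end Surf

/-- `Γ` is a lattice of `SL(2, ℝ)`: a discrete group of linear maps of determinant one such that
some measurable set of finite Lebesgue measure meets every `Γ`-orbit of pairs `(u, w)` with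
`0 < cr u w ≤ 1`. -/
structure IsLattice (Γ : Subgroup (ℂ ≃ₗ[ℝ] ℂ)) : Prop where
  det : ∀ A ∈ Γ, LinearMap.det (A : ℂ →ₗ[ℝ] ℂ) = 1
  discrete : ∃ ε > 0, ∀ A ∈ Γ, ‖A 1 - 1‖ < ε → ‖A Complex.I - Complex.I‖ < ε → A = 1
  covolume : ∃ K : Set (ℂ × ℂ), MeasurableSet K ∧ volume K < ⊤ ∧
    ∀ u w : ℂ, 0 < cr u w → cr u w ≤ 1 → ∃ A ∈ Γ, (A u, A w) ∈ K

end

end Pool.Agent.Helper87.LS
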