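import Pool.Agent.Helper87.LS.Defs

/-!
BLOCK LS-G1. Elementary algebra of the triangles and of the glued edges.

`vec e = P e.1 (e.2+1) - P e.1 e.2` is the edge vector, `ell e z = cr (vec e) (z - P e.1 e.2)` the
affine function which is positive to the left of the edge `e`. Everything is `cr` = bilinear,
expand `re`, `im` and use `ring` (and `fin_cases k` where `k : Fin 3`).

* `ell_glue`: `vec (glue e) = - vec e` (field `opp`) and
  `z + shift e - P (glue e) = z - P e.1 (e.2+1) = (z - P e) - vec e`.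
* `shift_glue`: `shift (glue e) = P e.1 e.2 - P (glue e).1 ((glue e).2+1)` by `invol`
  (rewriting along `invol` in dependent positions: prove a general lemma for `e' = glue e` with
  `hypothesis glue e' = e`, or `congrArg`), and `P (glue e).1 ((glue e).2+1) = P (glue e) - vec e`.
* `mem_openSegment_iff`: for `z = (1-r) P_k + r P_{k+1}`: `ell k = 0`,
  `ell (k+1) = (1-r) * area2`, `ell (k+2) = r * area2`; conversely `ell_sum` and the two
  positivity conditions give `r = ell (k+2) z / area2 ∈ (0,1)` and `z` is determined by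
  `ell k z` and `ell (k+2) z` (the linear system has determinant `area2 ≠ 0`).
* `Hop.symm`: the inside case is clear; in the crossing case use the edge `glue (i,k)`,
  the parameter `1 - s` and translate the open segment by `shift (i,k)`
  (its end points are `P (glue e)` and `P (glue e).1 ((glue e).2+1)` in the opposite order),
  or use `mem_openSegment_iff` and `ell_glue`.
* `D` is bounded (each open triangle is bounded: on it all `ell` lie in `[0, area2]`, two of them
  determine `z`), so `volume D < ∞` and `μ` is a finite measure.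
-/

open MeasureTheory Set

namespace Pool.Agent.Helper87.LS

theorem cr_add_left (a b z : ℂ) : cr (a + b) z = cr a z + cr b z := by
  simp only [cr, Complex.add_re, Complex.add_im]; ring

theorem cr_add_right (a z w : ℂ) : cr a (z + w) = cr a z + cr a w := by
  simp only [cr, Complex.add_re, Complex.add_im]; ring

theorem cr_sub_right (a z w : ℂ) : cr a (z - w) = cr a z - cr a w := by
  simp only [cr, Complex.sub_re, Complex.sub_im]; ring

theorem cr_mul_left (r : ℝ) (a z : ℂ) : cr (r * a) z = r * cr a z := by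
  simp only [cr, Complex.re_ofReal_mul, Complex.im_ofReal_mul]; ring

theorem cr_mul_right (r : ℝ) (a z : ℂ) : cr a (r * z) = r * cr a z := by
  simp only [cr, Complex.re_ofReal_mul, Complex.im_ofReal_mul]; ring

theorem cr_self (a : ℂ) : cr a a = 0 := by
  simp only [cr]; ring

theorem cr_swap (a b : ℂ) : cr a b = - cr b a := by
  simp only [cr]; ring

theorem abs_cr_le (a b : ℂ) : |cr a b| ≤ ‖a‖ * ‖b‖ := by
  have h : cr a b = ((starRingEnd ℂ) a * b).im := by
    simp only [cr, Complex.mul_im, Complex.conj_re, Complex.conj_im]; ring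
  rw [h]
  calc |((starRingEnd ℂ) a * b).im| ≤ ‖(starRingEnd ℂ) a * b‖ := Complex.abs_im_le_norm _
    _ = ‖a‖ * ‖b‖ := by rw [norm_mul, Complex.norm_conj]

theorem continuous_cr : Continuous fun p : ℂ × ℂ => cr p.1 p.2 := by
  unfold cr; fun_prop

namespace Surf

variable (S : Surf)

/-- The edge vector. -/
def vec (e : Fin S.n × Fin 3) : ℂ := S.P e.1 (e.2 + 1) - S.P e.1 e.2

/-- Positive on the left of the edge `e`. -/
noncomputable def ell (e : Fin S.n × Fin 3) (z : ℂ) : ℝ := cr (S.vec e) (z - S.P e.1 e.2)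

/-- Twice the area of the triangle `i`. -/
noncomputable def area2 (i : Fin S.n) : ℝ := cr (S.P i 1 - S.P i 0) (S.P i 2 - S.P i 0)

theorem mem_tri {i : Fin S.n} {z : ℂ} : z ∈ tri (S.P i) ↔ ∀ k, 0 < S.ell (i, k) z :=
  Iff.rfl

theorem area2_pos (i : Fin S.n) : 0 < S.area2 i := S.orient i

theorem ell_one46 (i : Fin S.n) (k : Fin 3) (z : ℂ) :
    S.ell (i, k + 1) z = cr (S.P i (k + 2) - S.P i (k + 1)) (z - S.P i (k + 1)) := by
  have h : k + 1 + 1 = k + 2 := by fin_cases k <;> rfl
  simp only [ell, vec, h]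

theorem ell_two46 (i : Fin S.n) (k : Fin 3) (z : ℂ) :
    S.ell (i, k + 2) z = cr (S.P i k - S.P i (k + 2)) (z - S.P i (k + 2)) := by
  have h : k + 2 + 1 = k := by fin_cases k <;> rfl
  simp only [ell, vec, h]

theorem area2_eq46 (i : Fin S.n) (k : Fin 3) :
    S.area2 i = cr (S.P i (k + 1) - S.P i k) (S.P i (k + 2) - S.P i k) := by
  fin_cases k
  · rfl
  · change S.area2 i = cr (S.P i 2 - S.P i 1) (S.P i 0 - S.P i 1)
    simp only [area2, cr, Complex.sub_re, Complex.sub_im]; ring
  · change S.area2 i = cr (S.P i 0 - S.P i 2) (S.P i 1 - S.P i 2)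
    simp only [area2, cr, Complex.sub_re, Complex.sub_im]; ring

theorem cr_solve46 {u v w : ℂ} (h : cr u v ≠ 0) (h1 : cr u w = 0) (h2 : cr v w = 0) : w = 0 := by
  have e1 : cr u v * w.re = cr u w * v.re - cr v w * u.re := by
    simp only [cr]; ring
  have e2 : cr u v * w.im = cr u w * v.im - cr v w * u.im := by
    simp only [cr]; ring
  rw [h1, h2] at e1 e2
  apply Complex.ext
  · simpa [h] using e1
  · simpa [h] using e2

theorem cr_vec_succ (i : Fin S.n) (k : Fin 3) :
    cr (S.vec (i, k)) (S.vec (i, k + 1)) = S.area2 i := by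
  have h : k + 1 + 1 = k + 2 := by fin_cases k <;> rfl
  rw [S.area2_eq46 i k]
  simp only [vec, h, cr, Complex.sub_re, Complex.sub_im]; ring

theorem vec_ne_zero (e : Fin S.n × Fin 3) : S.vec e ≠ 0 := by
  intro h
  have h1 := S.cr_vec_succ e.1 e.2
  have h2 := S.area2_pos e.1
  rw [Prod.mk.eta, h] at h1
  simp only [cr, Complex.zero_re, Complex.zero_im, zero_mul, sub_self] at h1
  rw [← h1] at h2
  exact lt_irrefl _ h2

theorem ell_add (e : Fin S.n × Fin 3) (z v : ℂ) :
    S.ell e (z + v) = S.ell e z + cr (S.vec e) v := by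
  have h : z + v - S.P e.1 e.2 = (z - S.P e.1 e.2) + v := by ring
  rw [ell, ell, h, cr_add_right]

theorem ell_add_mul (e : Fin S.n × Fin 3) (z v : ℂ) (s : ℝ) :
    S.ell e (z + s * v) = S.ell e z + s * cr (S.vec e) v := by
  rw [S.ell_add, cr_mul_right]

theorem ell_sum (i : Fin S.n) (k : Fin 3) (z : ℂ) :
    S.ell (i, k) z + S.ell (i, k + 1) z + S.ell (i, k + 2) z = S.area2 i := by
  rw [ell_one46, ell_two46, S.area2_eq46 i k]
  simp only [ell, vec, cr, Complex.sub_re, Complex.sub_im]; ring

theorem continuous_ell (e : Fin S.n × Fin 3) : Continuous (S.ell e) := by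
  unfold ell cr; fun_prop

theorem vec_glue (e : Fin S.n × Fin 3) : S.vec (S.glue e) = - S.vec e := by
  exact S.opp e

theorem ell_glue (e : Fin S.n × Fin 3) (z : ℂ) :
    S.ell (S.glue e) (z + S.shift e) = - S.ell e z := by
  have h : z + S.shift e - S.P (S.glue e).1 (S.glue e).2 = (z - S.P e.1 e.2) - S.vec e := by
    simp only [shift, vec]; ring
  have h2 : cr (-S.vec e) ((z - S.P e.1 e.2) - S.vec e) = - cr (S.vec e) (z - S.P e.1 e.2) := by
    simp only [cr, Complex.sub_re, Complex.sub_im, Complex.neg_re, Complex.neg_im]; ring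
  rw [ell, h, vec_glue, h2, ell]

theorem shift_glue (e : Fin S.n × Fin 3) : S.shift (S.glue e) = - S.shift e := by
  have h1 := S.opp e
  have h2 : S.P (S.glue (S.glue e)).1 (S.glue (S.glue e)).2 = S.P e.1 e.2 := by rw [S.invol e]
  simp only [shift]
  rw [h2]
  linear_combination -h1

theorem mem_openSegment_iff (i : Fin S.n) (k : Fin 3) (z : ℂ) :
    z ∈ openSegment ℝ (S.P i k) (S.P i (k + 1)) ↔
      S.ell (i, k) z = 0 ∧ 0 < S.ell (i, k + 1) z ∧ 0 < S.ell (i, k + 2) z := by
  have harea := S.area2_pos i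
  have ha0 : S.area2 i ≠ 0 := harea.ne'
  constructor
  · rintro ⟨a, b, ha, hb, hab, rfl⟩
    have e0 : S.ell (i, k) (a • S.P i k + b • S.P i (k + 1)) = 0 := by
      have ha' : a = 1 - b := by linarith
      simp only [ell, vec, cr, Complex.real_smul, Complex.sub_re, Complex.sub_im, Complex.add_re,
        Complex.add_im, Complex.re_ofReal_mul, Complex.im_ofReal_mul]
      rw [ha']; ring
    have e1 : S.ell (i, k + 1) (a • S.P i k + b • S.P i (k + 1)) = a * S.area2 i := by
      have hb' : b = 1 - a := by linarith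
      rw [ell_one46, S.area2_eq46 i k]
      simp only [cr, Complex.real_smul, Complex.sub_re, Complex.sub_im, Complex.add_re,
        Complex.add_im, Complex.re_ofReal_mul, Complex.im_ofReal_mul]
      rw [hb']; ring
    have e2 : S.ell (i, k + 2) (a • S.P i k + b • S.P i (k + 1)) = b * S.area2 i := by
      have ha' : a = 1 - b := by linarith
      rw [ell_two46, S.area2_eq46 i k]
      simp only [cr, Complex.real_smul, Complex.sub_re, Complex.sub_im, Complex.add_re,
        Complex.add_im, Complex.re_ofReal_mul, Complex.im_ofReal_mul]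
      rw [ha']; ring
    refine ⟨e0, ?_, ?_⟩
    · rw [e1]; positivity
    · rw [e2]; positivity
  · rintro ⟨h0, h1, h2⟩
    have hs := S.ell_sum i k z
    rw [h0, zero_add] at hs
    refine ⟨S.ell (i, k + 1) z / S.area2 i, S.ell (i, k + 2) z / S.area2 i, by positivity,
      by positivity, by rw [← add_div, hs, div_self ha0], ?_⟩
    have hw : z - ((S.ell (i, k + 1) z / S.area2 i) • S.P i k
        + (S.ell (i, k + 2) z / S.area2 i) • S.P i (k + 1)) = 0 := by
      set a := S.ell (i, k + 1) z / S.area2 i with hadef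
      set b := S.ell (i, k + 2) z / S.area2 i with hbdef
      have hab : a + b = 1 := by rw [hadef, hbdef, ← add_div, hs, div_self ha0]
      have ha' : a = 1 - b := by linarith
      have hb' : b = 1 - a := by linarith
      have ea : a * S.area2 i = S.ell (i, k + 1) z := by rw [hadef]; field_simp
      have hne : cr (S.P i (k + 1) - S.P i k) (S.P i (k + 2) - S.P i (k + 1)) ≠ 0 := by
        have : cr (S.P i (k + 1) - S.P i k) (S.P i (k + 2) - S.P i (k + 1)) = S.area2 i := by
          rw [S.area2_eq46 i k]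
          simp only [cr, Complex.sub_re, Complex.sub_im]; ring
        rw [this]; exact ha0
      apply cr_solve46 hne
      · have h0' : cr (S.P i (k + 1) - S.P i k) (z - S.P i k) = 0 := h0
        rw [← h0', ha']
        simp only [cr, Complex.real_smul, Complex.sub_re, Complex.sub_im, Complex.add_re,
          Complex.add_im, Complex.re_ofReal_mul, Complex.im_ofReal_mul]
        ring
      · have h1' : cr (S.P i (k + 2) - S.P i (k + 1)) (z - S.P i (k + 1)) = a * S.area2 i := by
          rw [ea, ell_one46]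
        rw [S.area2_eq46 i k] at h1'
        rw [hb']
        simp only [cr, Complex.real_smul, Complex.sub_re, Complex.sub_im, Complex.add_re,
          Complex.add_im, Complex.re_ofReal_mul, Complex.im_ofReal_mul] at h1' ⊢
        linear_combination h1'
    exact (sub_eq_zero.1 hw).symm

theorem isOpen_tri (i : Fin S.n) : IsOpen (tri (S.P i)) := by
  have h : tri (S.P i) = ⋂ k, {z | 0 < S.ell (i, k) z} := by
    ext z; simp [S.mem_tri]
  rw [h]
  exact isOpen_iInter_of_finite fun k => isOpen_lt continuous_const (S.continuous_ell _)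

theorem tri_nonempty (i : Fin S.n) : (tri (S.P i)).Nonempty := by
  refine ⟨(S.P i 0 + S.P i 1 + S.P i 2) / 3, ?_⟩
  rw [S.mem_tri]
  intro k
  have harea := S.area2_pos i
  have : S.ell (i, k) ((S.P i 0 + S.P i 1 + S.P i 2) / 3) = S.area2 i / 3 := by
    have h3 : ((S.P i 0 + S.P i 1 + S.P i 2) / 3 : ℂ)
        = ((1 / 3 : ℝ) : ℂ) * (S.P i 0 + S.P i 1 + S.P i 2) := by push_cast; ring
    rw [h3]
    fin_cases k
    · change cr (S.P i 1 - S.P i 0) (_ - S.P i 0) = _
      simp only [area2, cr, Complex.sub_re, Complex.sub_im, Complex.add_re,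
          Complex.add_im, Complex.re_ofReal_mul, Complex.im_ofReal_mul]
      ring
    · change cr (S.P i 2 - S.P i 1) (_ - S.P i 1) = _
      simp only [area2, cr, Complex.sub_re, Complex.sub_im, Complex.add_re,
          Complex.add_im, Complex.re_ofReal_mul, Complex.im_ofReal_mul]
      ring
    · change cr (S.P i 0 - S.P i 2) (_ - S.P i 2) = _
      simp only [area2, cr, Complex.sub_re, Complex.sub_im, Complex.add_re,
          Complex.add_im, Complex.re_ofReal_mul, Complex.im_ofReal_mul]
      ring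
  rw [this]; positivity

theorem tri_convex (i : Fin S.n) : Convex ℝ (tri (S.P i)) := by
  intro x hx y hy a b ha hb hab
  rw [S.mem_tri] at hx hy ⊢
  intro k
  have h : S.ell (i, k) (a • x + b • y) = a * S.ell (i, k) x + b * S.ell (i, k) y := by
    have ha' : a = 1 - b := by linarith
    simp only [ell, vec, cr, Complex.real_smul, Complex.sub_re, Complex.sub_im, Complex.add_re,
      Complex.add_im, Complex.re_ofReal_mul, Complex.im_ofReal_mul]
    rw [ha']; ring
  rw [h]
  have hx' := hx k
  have hy' := hy k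
  rcases ha.eq_or_lt with h0 | h0
  · have hb1 : b = 1 := by linarith
    rw [← h0, hb1]; simpa using hy'
  · have := mul_pos h0 hx'
    have := mul_nonneg hb hy'.le
    linarith

theorem isOpen_D : IsOpen S.D := by
  exact isOpen_iUnion fun i => S.isOpen_tri i

theorem measurableSet_D : MeasurableSet S.D := S.isOpen_D.measurableSet

theorem isBounded_D : Bornology.IsBounded S.D := by
  rw [D, Bornology.isBounded_iUnion]
  intro i
  refine (Metric.isBounded_closedBall (x := S.P i 0)
    (r := ‖S.P i 1 - S.P i 0‖ + ‖S.P i 2 - S.P i 0‖)).subset ?_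
  intro z hz
  rw [S.mem_tri] at hz
  have harea := S.area2_pos i
  have h0 := hz 0
  have h1 := hz 1
  have h2 := hz 2
  have hs : S.ell (i, 0) z + S.ell (i, 1) z + S.ell (i, 2) z = S.area2 i := S.ell_sum i 0 z
  have key : (S.area2 i : ℂ) * (z - S.P i 0) = (S.ell (i, 2) z : ℂ) * (S.P i 1 - S.P i 0)
      + (S.ell (i, 0) z : ℂ) * (S.P i 2 - S.P i 0) := by
    have e2 : S.ell (i, 2) z = cr (S.P i 0 - S.P i 2) (z - S.P i 2) := rfl
    have e0 : S.ell (i, 0) z = cr (S.P i 1 - S.P i 0) (z - S.P i 0) := rfl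
    rw [e2, e0]
    apply Complex.ext
    · simp only [area2, cr, Complex.sub_re, Complex.sub_im, Complex.add_re,
        Complex.add_im, Complex.re_ofReal_mul, Complex.im_ofReal_mul]
      ring
    · simp only [area2, cr, Complex.sub_re, Complex.sub_im, Complex.add_re,
        Complex.add_im, Complex.re_ofReal_mul, Complex.im_ofReal_mul]
      ring
  rw [Metric.mem_closedBall, dist_eq_norm]
  have hn : S.area2 i * ‖z - S.P i 0‖ ≤ S.area2 i * (‖S.P i 1 - S.P i 0‖ + ‖S.P i 2 - S.P i 0‖) := by
    calc S.area2 i * ‖z - S.P i 0‖ = ‖(S.area2 i : ℂ) * (z - S.P i 0)‖ := by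
          rw [norm_mul, Complex.norm_real, Real.norm_of_nonneg harea.le]
      _ ≤ ‖(S.ell (i, 2) z : ℂ) * (S.P i 1 - S.P i 0)‖
          + ‖(S.ell (i, 0) z : ℂ) * (S.P i 2 - S.P i 0)‖ := by rw [key]; exact norm_add_le _ _
      _ = S.ell (i, 2) z * ‖S.P i 1 - S.P i 0‖ + S.ell (i, 0) z * ‖S.P i 2 - S.P i 0‖ := by
          rw [norm_mul, norm_mul, Complex.norm_real, Complex.norm_real,
            Real.norm_of_nonneg h2.le, Real.norm_of_nonneg h0.le]
      _ ≤ S.area2 i * ‖S.P i 1 - S.P i 0‖ + S.area2 i * ‖S.P i 2 - S.P i 0‖ := by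
          gcongr <;> linarith
      _ = _ := by ring
  exact le_of_mul_le_mul_left hn harea

theorem volume_D_lt_top : volume S.D < ⊤ := by
  exact S.isBounded_D.measure_lt_top

instance instFiniteMu : IsFiniteMeasure S.μ := by
  exact isFiniteMeasure_restrict.2 S.volume_D_lt_top.ne

variable {S}

theorem Hop.left_mem {v x y : ℂ} (h : S.Hop v x y) : x ∈ S.D := by
  obtain ⟨i, hx, -⟩ := h
  exact mem_iUnion.2 ⟨i, hx⟩

theorem Hop.right_mem {v x y : ℂ} (h : S.Hop v x y) : y ∈ S.D := by
  obtain ⟨i, hx, ⟨hy, -⟩ | ⟨k, hy, -⟩⟩ := h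
  · exact mem_iUnion.2 ⟨i, hy⟩
  · exact mem_iUnion.2 ⟨_, hy⟩

theorem Hop.symm {v x y : ℂ} (h : S.Hop v x y) : S.Hop (-v) y x := by
  obtain ⟨i, hx, ⟨hy, hyx⟩ | ⟨k, hy, hyx, s, hs, hseg⟩⟩ := h
  · exact ⟨i, hy, Or.inl ⟨hx, by rw [hyx]; ring⟩⟩
  · refine ⟨(S.glue (i, k)).1, hy, Or.inr ⟨(S.glue (i, k)).2, ?_, ?_, 1 - s,
      ⟨by linarith [hs.2], by linarith [hs.1]⟩, ?_⟩⟩
    · rw [Prod.mk.eta, S.invol]; exact hx
    · rw [Prod.mk.eta, S.shift_glue, hyx]; ring
    · obtain ⟨a, b, ha, hb, hab, hz⟩ := hseg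
      refine ⟨b, a, hb, ha, by linarith, ?_⟩
      have h1 := S.opp (i, k)
      simp only at h1
      have hab' : (a : ℂ) + b = 1 := by exact_mod_cast congrArg (fun r : ℝ => (r : ℂ)) hab
      rw [hyx]
      simp only [Complex.real_smul, shift] at hz ⊢
      push_cast
      linear_combination (a : ℂ) * h1 + hz + (S.P (S.glue (i, k)).1 (S.glue (i, k)).2
        - S.P i (k + 1)) * hab'

/-- A hop inside one triangle. -/
theorem hop_inside {i : Fin S.n} {v x : ℂ} (hx : x ∈ tri (S.P i)) (hy : x + v ∈ tri (S.P i)) :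
    S.Hop v x (x + v) := ⟨i, hx, Or.inl ⟨hy, rfl⟩⟩

end Surf

end Pool.Agent.Helper87.LS
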