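import Pool.Agent.Helper87.LS.Cont

/-!
BLOCK LS-C2. The grid partition and continuity of its correlation function.

`grid h z`: `0` outside `D`, and `1 +` the code of the cell `(⌊z.re/h⌋, ⌊z.im/h⌋)` inside `D`.
* `grid_part`: measurable (floor is measurable, `ℤ × ℤ` is countable), finite range as `D` is bounded.
* `grid_ne`: if `x, x+w ∈ D` and `2h ≤ ‖w‖` then `|w.re| > h` or `|w.im| > h` (as `2 > √2`), so one of the
  floors changes; `Encodable.encode` is injective.
* `grid_cont`: continuity of `v ↦ Dq (grid h) v` at `v₀`. For a.e. `x`: `Straight v₀ x y` with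
  `y = F v₀ x ∈ D`, and `y` is not on a grid line (`{y | y.re/h ∈ ℤ}` is null, being a countable union
  of lines, and `F v₀` preserves `μ`); `grid h` is constant near such `y`; by `straight_open` and `F_eq`,
  `F v x = y + (v - v₀)` for `v` near `v₀`, so the indicator of `{x | grid (F v x) = grid x}` converges
  at `x` (it is eventually constant) when `v → v₀`. Use
  `MeasureTheory.tendsto_integral_filter_of_dominated_convergence` (or `tendsto_lintegral...`) for indicators.
-/

open MeasureTheory Set Classical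

namespace Pool.Agent.Helper87.LS

namespace Surf

variable (S : Surf)

/-- The grid partition of mesh `h`. -/
noncomputable def grid (h : ℝ) (z : ℂ) : ℕ :=
  if z ∈ S.D then Encodable.encode (⌊z.re / h⌋, ⌊z.im / h⌋) + 1 else 0

theorem grid_part {h : ℝ} (hh : 0 < h) : Part (S.grid h) := by
  constructor
  · unfold grid
    refine Measurable.ite S.measurableSet_D ?_ measurable_const
    have h1 : Measurable (fun z : ℂ => (⌊z.re / h⌋, ⌊z.im / h⌋)) :=
      (Int.measurable_floor.comp (Complex.measurable_re.div_const h)).prodMk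
        (Int.measurable_floor.comp (Complex.measurable_im.div_const h))
    exact (measurable_of_countable (fun p : ℤ × ℤ => Encodable.encode p + 1)).comp h1
  · obtain ⟨R, hR⟩ := S.isBounded_D.subset_closedBall 0
    have hfin : (Icc ⌊-R / h⌋ ⌊R / h⌋ ×ˢ Icc ⌊-R / h⌋ ⌊R / h⌋ : Set (ℤ × ℤ)).Finite :=
      (Set.finite_Icc _ _).prod (Set.finite_Icc _ _)
    refine ((hfin.image (fun p : ℤ × ℤ => Encodable.encode p + 1)).union
      (Set.finite_singleton 0)).subset ?_
    rintro _ ⟨z, rfl⟩
    unfold grid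
    by_cases hz : z ∈ S.D
    · rw [if_pos hz]
      left
      have hn : ‖z‖ ≤ R := by simpa using hR hz
      have hre := abs_le.1 ((Complex.abs_re_le_norm z).trans hn)
      have him := abs_le.1 ((Complex.abs_im_le_norm z).trans hn)
      refine ⟨(⌊z.re / h⌋, ⌊z.im / h⌋), ⟨⟨?_, ?_⟩, ⟨?_, ?_⟩⟩, rfl⟩
      · exact Int.floor_le_floor (div_le_div_of_nonneg_right hre.1 hh.le)
      · exact Int.floor_le_floor (div_le_div_of_nonneg_right hre.2 hh.le)
      · exact Int.floor_le_floor (div_le_div_of_nonneg_right him.1 hh.le)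
      · exact Int.floor_le_floor (div_le_div_of_nonneg_right him.2 hh.le)
    · rw [if_neg hz]
      right; rfl

theorem grid_ne {h : ℝ} (hh : 0 < h) {x w : ℂ} (hx : x ∈ S.D) (hxw : x + w ∈ S.D)
    (hw : 2 * h ≤ ‖w‖) : S.grid h (x + w) ≠ S.grid h x := by
  intro heq
  unfold grid at heq
  rw [if_pos hx, if_pos hxw] at heq
  have h1 := Encodable.encode_injective (Nat.succ_injective heq)
  rw [Prod.mk.injEq] at h1
  have h2 := Int.abs_sub_lt_one_of_floor_eq_floor h1.1
  have h3 := Int.abs_sub_lt_one_of_floor_eq_floor h1.2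
  have e2 : (x + w).re / h - x.re / h = w.re / h := by
    rw [Complex.add_re]; ring
  have e3 : (x + w).im / h - x.im / h = w.im / h := by
    rw [Complex.add_im]; ring
  rw [e2, abs_div, abs_of_pos hh, div_lt_one hh] at h2
  rw [e3, abs_div, abs_of_pos hh, div_lt_one hh] at h3
  have h4 := Complex.norm_le_abs_re_add_abs_im w
  linarith

/-- near a point of `D` which is not on a grid line the grid partition is constant -/
theorem grid_loc67 {h : ℝ} (hh : 0 < h) {y : ℂ} (hy : y ∈ S.D)
    (h1 : ∀ n : ℤ, y.re ≠ n * h) (h2 : ∀ n : ℤ, y.im ≠ n * h) :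
    ∀ᶠ z in nhds y, S.grid h z = S.grid h y := by
  have hD : ∀ᶠ z in nhds y, z ∈ S.D := S.isOpen_D.mem_nhds hy
  have aux : ∀ (f : ℂ → ℝ), Continuous f → (∀ n : ℤ, f y ≠ n * h) →
      ∀ᶠ z in nhds y, ⌊f z / h⌋ = ⌊f y / h⌋ := by
    intro f hf hn
    have hc : Continuous (fun z => f z / h) := hf.div_const h
    have a1 : (⌊f y / h⌋ : ℝ) < f y / h := by
      refine lt_of_le_of_ne (Int.floor_le _) (fun e => hn ⌊f y / h⌋ ?_)
      rw [e]; field_simp
    have a2 : f y / h < ⌊f y / h⌋ + 1 := Int.lt_floor_add_one _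
    filter_upwards [hc.continuousAt.eventually (lt_mem_nhds a1),
      hc.continuousAt.eventually (gt_mem_nhds a2)] with z hz1 hz2
    exact Int.floor_eq_iff.2 ⟨hz1.le, hz2⟩
  filter_upwards [hD, aux _ Complex.continuous_re h1, aux _ Complex.continuous_im h2]
    with z hz e1 e2
  unfold grid
  rw [if_pos hz, if_pos hy, e1, e2]

theorem ae_off_grid67 {h : ℝ} : ∀ᵐ y ∂S.μ, (∀ n : ℤ, y.re ≠ n * h) ∧ (∀ n : ℤ, y.im ≠ n * h) := by
  unfold μ
  refine ae_restrict_of_ae ?_
  have k1 : ∀ᵐ y : ℂ, ∀ n : ℤ, y.re ≠ n * h := by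
    refine ae_all_iff.2 (fun n => ?_)
    have := line_null (a := -Complex.I) (by simp) 0 (n * h)
    refine measure_mono_null ?_ this
    intro z hz
    simp only [ne_eq, mem_compl_iff, mem_ofPred_eq, not_not] at hz
    simp [cr, hz]
  have k2 : ∀ᵐ y : ℂ, ∀ n : ℤ, y.im ≠ n * h := by
    refine ae_all_iff.2 (fun n => ?_)
    have := line_null (a := 1) (by simp) 0 (n * h)
    refine measure_mono_null ?_ this
    intro z hz
    simp only [ne_eq, mem_compl_iff, mem_ofPred_eq, not_not] at hz
    simp [cr, hz]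
  filter_upwards [k1, k2] with y a b using ⟨a, b⟩

theorem grid_cont {h : ℝ} (hh : 0 < h) : Continuous (S.Dq (S.grid h)) := by
  rw [continuous_iff_continuousAt]
  intro v0
  have hm : Measurable (S.grid h) := (S.grid_part hh).1
  have hms : ∀ v : ℂ, MeasurableSet {x | S.grid h (S.F v x) = S.grid h x} := fun v =>
    measurableSet_eq_fun (hm.comp (S.measurePreserving_F v).measurable) hm
  have key : ∀ᵐ x ∂S.μ, ∀ᶠ v in nhds v0,
      (x ∈ {x | S.grid h (S.F v x) = S.grid h x} ↔
        x ∈ {x | S.grid h (S.F v0 x) = S.grid h x}) := by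
    have hoff := (S.measurePreserving_F v0).quasiMeasurePreserving.ae (S.ae_off_grid67 (h := h))
    filter_upwards [S.ae_straight v0, hoff] with x hx hy
    have hyD : S.F v0 x ∈ S.D := straight_right hx
    have hloc := S.grid_loc67 hh hyD hy.1 hy.2
    obtain ⟨δ, hδ, hopen⟩ := straight_open hx
    have ht : Filter.Tendsto (fun v : ℂ => S.F v0 x + (v - v0)) (nhds v0) (nhds (S.F v0 x)) := by
      have : Continuous (fun v : ℂ => S.F v0 x + (v - v0)) := by fun_prop
      have h2 := this.tendsto v0
      simpa using h2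
    have hball : ∀ᶠ v in nhds v0, ‖v - v0‖ < δ := by
      have := Metric.ball_mem_nhds v0 hδ
      filter_upwards [this] with v hv
      simpa [dist_eq_norm] using hv
    filter_upwards [ht.eventually hloc, hball] with v hv hvb
    have hs := hopen x v (by simpa using hδ) hvb
    have hF : S.F v x = S.F v0 x + (v - v0) := by
      rw [F_eq hs]; simp
    change (S.grid h (S.F v x) = S.grid h x) ↔ (S.grid h (S.F v0 x) = S.grid h x)
    rw [hF, hv]
  have hlim := tendsto_measure_of_ae_tendsto_indicator_of_isFiniteMeasure (μ := S.μ) (nhds v0)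
    (hms v0) hms key
  unfold ContinuousAt Dq Measure.real
  exact (ENNReal.tendsto_toReal (measure_ne_top _ _)).comp hlim

end Surf

end Pool.Agent.Helper87.LS
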