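import Pool.Agent.Helper87.LS.Geo

/-!
BLOCK LS-G2. Two hops from the same point in the same direction.

`hop_hop`: let `0 < a < b`, `Hop (a u) x y`, `Hop (b u) x z`. Then `Hop ((b-a) u) y z`.
The triangle `i` containing `x` is the same in both (the triangles are disjoint, `S.disj`).
Write `e = (i,k)`, `ℓ = ell e`; along the line, `s ↦ ℓ (x + s u)` is affine (`ell_add_mul`).
* (inside, inside): inside hop from `y = x + a u` to `z = y + (b-a) u`.
* (inside, cross k at s): `ℓ x > 0`, `ℓ (x + s b u) = 0` (`mem_openSegment_iff`), `ℓ y = ℓ (x + a u) > 0`,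
  so `a < s b`; crossing hop from `y` through `k` with parameter `(s b - a)/(b - a) ∈ (0,1)`.
* (cross k at s, inside): `ℓ (x + s a u) = 0`, `ℓ x > 0`, `ℓ (x + b u) > 0` with `s a < b`: impossible.
* (cross k at s, cross k' at s'): if `k ≠ k'`: at time `s a` one has `ell k = 0`, `ell k' > 0`, at time
  `s' b` one has `ell k' = 0`, `ell k > 0`; since `ell k` is positive at time 0 and zero at time
  `s a` it is negative later, so `s' b < s a`; symmetrically `s a < s' b`, contradiction. So `k = k'`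
  and `y, z` are in the same triangle with `z = y + (b-a) u`: inside hop.
`hop_unique`: the same case analysis with equal vectors: (inside, inside) and (cross k, cross k)
give `y = z`; (inside, cross) is impossible (`ell k` positive at time 0 and 1, zero at time `s`),
(cross k, cross k') with `k ≠ k'` is impossible as above.
-/

open MeasureTheory Set

namespace Pool.Agent.Helper87.LS

namespace Surf

variable {S : Surf}

theorem tri_unique {i j : Fin S.n} {x : ℂ} (hi : x ∈ tri (S.P i)) (hj : x ∈ tri (S.P j)) :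
    i = j := by
  by_contra h
  exact Set.disjoint_left.mp (S.disj i j h) hi hj

/-- at a point of an open edge the other affine functions are positive -/
theorem seg_pos {i : Fin S.n} {k k' : Fin 3} {z : ℂ} (hk : k' ≠ k)
    (hz : z ∈ openSegment ℝ (S.P i k) (S.P i (k + 1))) : 0 < S.ell (i, k') z := by
  obtain ⟨_, h1, h2⟩ := (S.mem_openSegment_iff i k z).mp hz
  have h3 : k' = k + 1 ∨ k' = k + 2 := by
    have h4 : ∀ a b : Fin 3, b ≠ a → b = a + 1 ∨ b = a + 2 := by decide
    exact h4 k k' hk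
  rcases h3 with h3 | h3
  · rw [h3]; exact h1
  · rw [h3]; exact h2

/-- at a crossing the affine function decreases -/
theorem seg_neg {i : Fin S.n} {k : Fin 3} {x u : ℂ} {t : ℝ} (ht : 0 < t) (hx : x ∈ tri (S.P i))
    (hz : x + t * u ∈ openSegment ℝ (S.P i k) (S.P i (k + 1))) :
    S.ell (i, k) x + t * cr (S.vec (i, k)) u = 0 ∧ cr (S.vec (i, k)) u < 0 := by
  have h0 := ((S.mem_openSegment_iff i k _).mp hz).1
  rw [S.ell_add_mul] at h0
  have h1 : 0 < S.ell (i, k) x := S.mem_tri.mp hx k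
  refine ⟨h0, ?_⟩
  by_contra h2
  push Not at h2
  have h3 := mul_nonneg ht.le h2
  linarith

theorem seg_edge {i : Fin S.n} {k k' : Fin 3} {x u : ℂ} {t t' : ℝ} (ht : 0 < t) (ht' : 0 < t')
    (hx : x ∈ tri (S.P i)) (hz : x + t * u ∈ openSegment ℝ (S.P i k) (S.P i (k + 1)))
    (hz' : x + t' * u ∈ openSegment ℝ (S.P i k') (S.P i (k' + 1))) : k = k' := by
  by_contra h
  obtain ⟨h1, h2⟩ := seg_neg ht hx hz
  obtain ⟨h3, h4⟩ := seg_neg ht' hx hz'
  have h5 := seg_pos h hz'
  have h6 := seg_pos (Ne.symm h) hz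
  rw [S.ell_add_mul] at h5 h6
  have h7 : t' < t := by
    by_contra h8
    push Not at h8
    have := mul_le_mul_of_nonpos_right h8 h2.le
    linarith
  have h9 : t < t' := by
    by_contra h8
    push Not at h8
    have := mul_le_mul_of_nonpos_right h8 h4.le
    linarith
  linarith

theorem seg_lt {i : Fin S.n} {k : Fin 3} {x u : ℂ} {t t' : ℝ} (ht : 0 < t)
    (hx : x ∈ tri (S.P i)) (hz : x + t * u ∈ openSegment ℝ (S.P i k) (S.P i (k + 1)))
    (hz' : x + t' * u ∈ tri (S.P i)) : t' < t := by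
  obtain ⟨h1, h2⟩ := seg_neg ht hx hz
  have h3 : 0 < S.ell (i, k) (x + t' * u) := S.mem_tri.mp hz' k
  rw [S.ell_add_mul] at h3
  by_contra h8
  push Not at h8
  have := mul_le_mul_of_nonpos_right h8 h2.le
  linarith

theorem hop_hop {u x y z : ℂ} {a b : ℝ} (ha : 0 < a) (hab : a < b)
    (h1 : S.Hop (a * u) x y) (h2 : S.Hop (b * u) x z) : S.Hop ((b - a : ℝ) * u) y z := by
  have hb : 0 < b := ha.trans hab
  have hba : 0 < b - a := sub_pos.mpr hab
  obtain ⟨i, hx, h1⟩ := h1
  obtain ⟨j, hx', h2⟩ := h2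
  obtain rfl := tri_unique hx hx'
  rcases h1 with ⟨hy, rfl⟩ | ⟨k, hy, rfl, s, hs, hseg⟩
  · rcases h2 with ⟨hz, rfl⟩ | ⟨k, hz, rfl, s, hs, hseg⟩
    · refine ⟨i, hy, Or.inl ⟨hz, ?_⟩⟩
      push_cast
      ring
    · have h3 : x + ((s * b : ℝ) : ℂ) * u ∈ openSegment ℝ (S.P i k) (S.P i (k + 1)) := by
        have h4 : x + ((s * b : ℝ) : ℂ) * u = x + (s : ℂ) * (b * u) := by push_cast; ring
        rw [h4]
        exact hseg
      have h5 : a < s * b := seg_lt (mul_pos hs.1 hb) hx h3 hy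
      refine ⟨i, hy, Or.inr ⟨k, hz, ?_, (s * b - a) / (b - a), ⟨?_, ?_⟩, ?_⟩⟩
      · push_cast
        ring
      · exact div_pos (sub_pos.mpr h5) hba
      · rw [div_lt_one hba]
        have := mul_lt_mul_of_pos_right hs.2 hb
        linarith
      · have h6 : x + (a : ℂ) * u + (((s * b - a) / (b - a) : ℝ) : ℂ) * (((b - a : ℝ) : ℂ) * u) =
            x + (s : ℂ) * (b * u) := by
          rw [← mul_assoc, ← Complex.ofReal_mul, div_mul_cancel₀ _ hba.ne']
          push_cast
          ring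
        rw [h6]
        exact hseg
  · have h3 : x + ((s * a : ℝ) : ℂ) * u ∈ openSegment ℝ (S.P i k) (S.P i (k + 1)) := by
      have h4 : x + ((s * a : ℝ) : ℂ) * u = x + (s : ℂ) * (a * u) := by push_cast; ring
      rw [h4]
      exact hseg
    have hsa : s * a < a := by
      have := mul_lt_mul_of_pos_right hs.2 ha
      linarith
    rcases h2 with ⟨hz, rfl⟩ | ⟨k', hz, rfl, s', hs', hseg'⟩
    · exfalso
      have h5 : b < s * a := seg_lt (mul_pos hs.1 ha) hx h3 hz
      linarith
    · have h3' : x + ((s' * b : ℝ) : ℂ) * u ∈ openSegment ℝ (S.P i k') (S.P i (k' + 1)) := by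
        have h4 : x + ((s' * b : ℝ) : ℂ) * u = x + (s' : ℂ) * (b * u) := by push_cast; ring
        rw [h4]
        exact hseg'
      obtain rfl := seg_edge (mul_pos hs.1 ha) (mul_pos hs'.1 hb) hx h3 h3'
      refine ⟨_, hy, Or.inl ⟨hz, ?_⟩⟩
      push_cast
      ring

theorem hop_unique {v x y z : ℂ} (h1 : S.Hop v x y) (h2 : S.Hop v x z) : y = z := by
  obtain ⟨i, hx, h1⟩ := h1
  obtain ⟨j, hx', h2⟩ := h2
  obtain rfl := tri_unique hx hx'
  have hone : x + ((1 : ℝ) : ℂ) * v = x + v := by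
    rw [Complex.ofReal_one, one_mul]
  rcases h1 with ⟨hy, rfl⟩ | ⟨k, hy, rfl, s, hs, hseg⟩
  · rcases h2 with ⟨hz, rfl⟩ | ⟨k, hz, rfl, s, hs, hseg⟩
    · rfl
    · exfalso
      have := seg_lt (t' := 1) hs.1 hx hseg (by rw [hone]; exact hy)
      linarith [hs.2]
  · rcases h2 with ⟨hz, rfl⟩ | ⟨k', hz, rfl, s', hs', hseg'⟩
    · exfalso
      have := seg_lt (t' := 1) hs.1 hx hseg (by rw [hone]; exact hz)
      linarith [hs.2]
    · obtain rfl := seg_edge hs.1 hs'.1 hx hseg hseg'
      rfl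

end Surf

end Pool.Agent.Helper87.LS
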