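import Pool.Agent.Helper87.LS.Cont

/-!
BLOCK LS-R1. Partial rigidity and its invariance.

`Rigid u t m`: along the times `t n` the flow in direction `u` keeps asymptotically at least mass `m` of
every finite partition in place. All three lemmas are direct from `Dq_comp`:
* `rigid_flowIso`: `Dq Q (t n e^{iθ'}) = Dq (Q ∘ Φ) (t n e^{iθ})` and `Part (Q ∘ Φ)` (`Part.comp`).
* `rigid_affine`: `Dq Q (t n * A u) = Dq (Q ∘ φ) (t n * u)`, as `A (t n * u) = t n * A u`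
  (`A` is real linear: `A ((r:ℂ) * u) = (r:ℂ) * A u` from `map_smul`, `Complex.real_smul`).
* `flowIso_symm`: swap `Φ` and `Ψ`: for a.e. `y`, `Φ (F_θ (Ψ y)) = F_θ' (Φ (Ψ y)) = F_θ' y`; apply `Ψ`.
* `rigid_scale`: replace `t n` by `c * t n`.
-/

open MeasureTheory Set Filter

namespace Pool.Agent.Helper87.LS

namespace Surf

variable (S : Surf)

/-- Partial rigidity of the flow in direction `u` along the times `t n` with constant `m`. -/
def Rigid (u : ℂ) (t : ℕ → ℝ) (m : ℝ) : Prop :=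
  ∀ Q, Part Q → ∀ ε > 0, ∀ᶠ n in atTop, m - ε ≤ S.Dq Q ((t n : ℂ) * u)

theorem flowIso_symm {θ θ' : ℝ} (h : S.FlowIso θ θ') : S.FlowIso θ' θ := by
  obtain ⟨Φ, Ψ, hΦ, hΨ, h1, h2, h3⟩ := h
  refine ⟨Ψ, Φ, hΨ, hΦ, h2, h1, fun t => ?_⟩
  have hF := (S.measurePreserving_F (t * Complex.exp (θ * Complex.I))).comp hΨ
  have e1 : ∀ᵐ y ∂S.μ, Φ (S.F (t * Complex.exp (θ * Complex.I)) (Ψ y))
      = S.F (t * Complex.exp (θ' * Complex.I)) (Φ (Ψ y)) :=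
    hΨ.quasiMeasurePreserving.ae (h3 t)
  have e2 : ∀ᵐ y ∂S.μ, Ψ (Φ (S.F (t * Complex.exp (θ * Complex.I)) (Ψ y)))
      = S.F (t * Complex.exp (θ * Complex.I)) (Ψ y) :=
    hF.quasiMeasurePreserving.ae h1
  filter_upwards [e1, e2, h2] with y a b c
  rw [← b, a, c]

theorem rigid_flowIso {θ θ' : ℝ} (h : S.FlowIso θ θ') {t : ℕ → ℝ} {m : ℝ}
    (hr : S.Rigid (Complex.exp (θ * Complex.I)) t m) :
    S.Rigid (Complex.exp (θ' * Complex.I)) t m := by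
  obtain ⟨Φ, Ψ, hΦ, hΨ, h1, h2, h3⟩ := h
  intro Q hQ ε hε
  filter_upwards [hr (Q ∘ Φ) (hQ.comp hΦ.measurable) ε hε] with n hn
  have := S.Dq_comp hQ hΦ (h3 (t n))
  rw [this]
  exact hn

theorem rigid_affine {A : ℂ ≃ₗ[ℝ] ℂ} (hA : S.IsAffine A) {u : ℂ} {t : ℕ → ℝ} {m : ℝ}
    (hr : S.Rigid u t m) : S.Rigid (A u) t m := by
  obtain ⟨φ, ψ, hφ, hψ, h1, h2, h3⟩ := hA
  intro Q hQ ε hε
  filter_upwards [hr (Q ∘ φ) (hQ.comp hφ.measurable) ε hε] with n hn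
  have hA' : A ((t n : ℂ) * u) = (t n : ℂ) * A u := by
    rw [← Complex.real_smul, map_smul, Complex.real_smul]
  have := S.Dq_comp hQ hφ (h3 ((t n : ℂ) * u))
  rw [hA'] at this
  rw [this]
  exact hn

theorem rigid_scale {u : ℂ} {t : ℕ → ℝ} {m : ℝ} (c : ℝ)
    (hr : S.Rigid ((c : ℂ) * u) t m) : S.Rigid u (fun n => c * t n) m := by
  intro Q hQ ε hε
  filter_upwards [hr Q hQ ε hε] with n hn
  have : ((c * t n : ℝ) : ℂ) * u = (t n : ℂ) * ((c : ℂ) * u) := by push_cast; ring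
  rw [this]
  exact hn

/-- Partial invariance of the correlation function under isomorphism. -/
theorem Dq_flowIso {θ θ' : ℝ} {Φ : ℂ → ℂ} (hΦ : MeasurePreserving Φ S.μ S.μ)
    (h : ∀ t : ℝ, ∀ᵐ x ∂S.μ, Φ (S.F (t * Complex.exp (θ * Complex.I)) x)
      = S.F (t * Complex.exp (θ' * Complex.I)) (Φ x)) {Q : ℂ → ℕ} (hQ : Part Q) (t : ℝ) :
    S.Dq Q (t * Complex.exp (θ' * Complex.I)) = S.Dq (Q ∘ Φ) (t * Complex.exp (θ * Complex.I)) :=
  S.Dq_comp hQ hΦ (h t)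

end Surf

end Pool.Agent.Helper87.LS
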