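import Pool.Agent.Helper87.LS.HopHop

/-!
BLOCK LS-G3. Straight segments: composition, reversal, uniqueness, subtraction.

Suggested auxiliary relation (direction `u` fixed, `m` hops, total time `t > 0`):
`inductive Run (S) (u) : ℕ → ℝ → ℂ → ℂ → Prop`
`| one : 0 < t → S.Hop (t * u) x y → Run 1 t x y`
`| cons : 0 < t → S.Hop (t * u) x y → Run m t' y z → Run (m+1) (t + t') x z`.
* `Straight (t*u) x y` with `t > 0` iff `∃ m, Run m t x y` (→ by induction on `Straight` for all
  `u, t` with `v = t * u`, appending runs; ← by induction with `r = t/(t+t')`).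
* Confluence: if `Run m a x y`, `Run n b x z` then: `a < b → ∃ m', Run m' (b-a) y z`,
  `a = b → y = z` and `b < a → ∃ m', Run m' (a-b) z y`; induction on `m + n`:
  compare the first hops `a₁, b₁`. If `a₁ = b₁` then same points (`hop_unique`), drop both. If
  `a₁ < b₁` then `hop_hop` gives a hop from `y₁` to `z₁` of time `b₁ - a₁`; now compare the runs
  `y₁ → y` (m-1 hops) and `y₁ → z₁ → z` (n hops). Symmetric if `b₁ < a₁`.
* `straight_unique`, `straight_sub` follow (for `v = 0` in `straight_unique` write `v = 1 * v`,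
  i.e. apply everything with `u = v`, `a = b = 1`).
* `straight_symm`: induction, `Hop.symm`, in the `trans` case swap the pieces (`r` becomes `1-r`).
* `straight_comp`: `Straight.trans` with `r = a/(a+b)`.
* `F_eq`: definition of `F` and uniqueness.
-/

open MeasureTheory Set

namespace Pool.Agent.Helper87.LS

namespace Surf

variable {S : Surf}

theorem straight_left {v x y : ℂ} (h : S.Straight v x y) : x ∈ S.D := by
  induction h with
  | hop h => exact h.left_mem
  | trans _ _ _ _ ih _ => exact ih

theorem straight_right {v x y : ℂ} (h : S.Straight v x y) : y ∈ S.D := by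
  induction h with
  | hop h => exact h.right_mem
  | trans _ _ _ _ _ ih => exact ih

theorem straight_symm {v x y : ℂ} (h : S.Straight v x y) : S.Straight (-v) y x := by
  induction h with
  | hop h => exact Straight.hop h.symm
  | @trans r v x y z h0 h1 _ _ ih1 ih2 =>
    refine Straight.trans (r := 1 - r) (by linarith) (by linarith) (y := y) ?_ ?_
    · rw [mul_neg]
      exact ih2
    · rw [mul_neg, sub_sub_cancel]
      exact ih1

theorem straight_comp {u x y z : ℂ} {a b : ℝ} (ha : 0 < a) (hb : 0 < b)
    (h1 : S.Straight (a * u) x y) (h2 : S.Straight (b * u) y z) :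
    S.Straight ((a + b : ℝ) * u) x z := by
  have hab : (a + b) ≠ 0 := by positivity
  refine Straight.trans (r := a / (a + b)) (by positivity) ?_ (y := y) ?_ ?_
  · rw [div_lt_one (by positivity)]
    linarith
  · have e : ((a / (a + b) : ℝ) : ℂ) * (((a + b : ℝ) : ℂ) * u) = (a : ℂ) * u := by
      rw [← mul_assoc, ← Complex.ofReal_mul, div_mul_cancel₀ a hab]
    rw [e]
    exact h1
  · have e : ((1 - a / (a + b) : ℝ) : ℂ) * (((a + b : ℝ) : ℂ) * u) = (b : ℂ) * u := by
      rw [← mul_assoc, ← Complex.ofReal_mul, sub_mul, div_mul_cancel₀ a hab, one_mul,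
        add_sub_cancel_left]
    rw [e]
    exact h2

/-- A run of `m` hops in the direction `u` of total time `t`. -/
inductive Run (S : Surf) (u : ℂ) : ℕ → ℝ → ℂ → ℂ → Prop
  | nil (x : ℂ) : Run S u 0 0 x x
  | cons {m : ℕ} {t t' : ℝ} {x y z : ℂ} : 0 < t → S.Hop (t * u) x y → Run S u m t' y z →
      Run S u (m + 1) (t + t') x z

theorem Run.nonneg {u x y : ℂ} {m : ℕ} {t : ℝ} (h : Run S u m t x y) : 0 ≤ t := by
  induction h with
  | nil => exact le_refl _
  | cons h _ _ ih => linarith

theorem Run.eq_of_zero {u x y : ℂ} {m : ℕ} {t : ℝ} (h : Run S u m t x y) (ht : t = 0) :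
    x = y := by
  cases h with
  | nil => rfl
  | cons h _ h' =>
    have := h'.nonneg
    linarith

theorem Run.append {u x y z : ℂ} {m n : ℕ} {t t' : ℝ} (h : Run S u m t x y)
    (h' : Run S u n t' y z) : ∃ k, Run S u k (t + t') x z := by
  induction h with
  | nil =>
    rw [zero_add]
    exact ⟨n, h'⟩
  | cons h0 h1 _ ih =>
    obtain ⟨k, hk⟩ := ih h'
    refine ⟨k + 1, ?_⟩
    rw [add_assoc]
    exact Run.cons h0 h1 hk

theorem run_of_straight {v x y : ℂ} (h : S.Straight v x y) :
    ∀ (u : ℂ) (t : ℝ), 0 < t → v = t * u → ∃ m, Run S u m t x y := by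
  induction h with
  | @hop v x y h =>
    intro u t ht hv
    subst hv
    refine ⟨1, ?_⟩
    have := Run.cons ht h (Run.nil y)
    rwa [add_zero, zero_add] at this
  | @trans r v x y z h0 h1 _ _ ih1 ih2 =>
    intro u t ht hv
    obtain ⟨m, hm⟩ := ih1 u (r * t) (mul_pos h0 ht) (by rw [hv]; push_cast; ring)
    obtain ⟨n, hn⟩ := ih2 u ((1 - r) * t) (mul_pos (by linarith) ht)
      (by rw [hv]; push_cast; ring)
    obtain ⟨k, hk⟩ := hm.append hn
    refine ⟨k, ?_⟩
    have e : r * t + (1 - r) * t = t := by ring
    rwa [e] at hk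

theorem Run.straight {u x y : ℂ} {m : ℕ} {t : ℝ} (h : Run S u m t x y) (ht : 0 < t) :
    S.Straight (t * u) x y := by
  induction h with
  | nil => exact absurd ht (lt_irrefl _)
  | @cons m t t' x y z h0 h1 h2 ih =>
    rcases h2.nonneg.lt_or_eq with h3 | h3
    · exact straight_comp h0 h3 (Straight.hop h1) (ih h3)
    · have e := h2.eq_of_zero h3.symm
      subst e
      rw [← h3, add_zero]
      exact Straight.hop h1

theorem run_confl (u : ℂ) : ∀ (N m n : ℕ) (a b : ℝ) (x y z : ℂ), m + n ≤ N →
    Run S u m a x y → Run S u n b x z → a ≤ b → ∃ k, Run S u k (b - a) y z := by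
  intro N
  induction N with
  | zero =>
    intro m n a b x y z hN h1 h2 _
    cases h1 with
    | nil =>
      rw [sub_zero]
      exact ⟨n, h2⟩
    | cons => omega
  | succ N ih =>
    intro m n a b x y z hN h1 h2 hab
    cases h1 with
    | nil =>
      rw [sub_zero]
      exact ⟨n, h2⟩
    | @cons m' a₁ a' _ y₁ _ ha₁ g1 r1 =>
      have hr1 := r1.nonneg
      cases h2 with
      | nil => linarith
      | @cons n' b₁ b' _ z₁ _ hb₁ g2 r2 =>
        rcases lt_trichotomy a₁ b₁ with hlt | heq | hgt
        · have g3 := hop_hop ha₁ hlt g1 g2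
          have r3 := Run.cons (by linarith) g3 r2
          obtain ⟨k, hk⟩ := ih m' (n' + 1) a' (b₁ - a₁ + b') y₁ y z (by omega) r1 r3
            (by linarith)
          refine ⟨k, ?_⟩
          have e : b₁ - a₁ + b' - a' = b₁ + b' - (a₁ + a') := by ring
          rwa [e] at hk
        · subst heq
          have e := hop_unique g1 g2
          subst e
          obtain ⟨k, hk⟩ := ih m' n' a' b' y₁ y z (by omega) r1 r2 (by linarith)
          refine ⟨k, ?_⟩
          have e : b' - a' = a₁ + b' - (a₁ + a') := by ring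
          rwa [e] at hk
        · have g3 := hop_hop hb₁ hgt g2 g1
          have r3 := Run.cons (by linarith) g3 r1
          obtain ⟨k, hk⟩ := ih (m' + 1) n' (a₁ - b₁ + a') b' z₁ y z (by omega) r3 r2
            (by linarith)
          refine ⟨k, ?_⟩
          have e : b' - (a₁ - b₁ + a') = b₁ + b' - (a₁ + a') := by ring
          rwa [e] at hk

theorem straight_unique {v x y z : ℂ} (h1 : S.Straight v x y) (h2 : S.Straight v x z) :
    y = z := by
  obtain ⟨m, hm⟩ := run_of_straight h1 v 1 one_pos (by simp)
  obtain ⟨n, hn⟩ := run_of_straight h2 v 1 one_pos (by simp)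
  obtain ⟨k, hk⟩ := run_confl v (m + n) m n 1 1 x y z le_rfl hm hn le_rfl
  exact hk.eq_of_zero (sub_self 1)

theorem straight_sub {u x y z : ℂ} {a b : ℝ} (ha : 0 < a) (hab : a < b)
    (h1 : S.Straight (a * u) x y) (h2 : S.Straight (b * u) x z) :
    S.Straight ((b - a : ℝ) * u) y z := by
  obtain ⟨m, hm⟩ := run_of_straight h1 u a ha rfl
  obtain ⟨n, hn⟩ := run_of_straight h2 u b (by linarith) rfl
  obtain ⟨k, hk⟩ := run_confl u (m + n) m n a b x y z le_rfl hm hn hab.le
  exact hk.straight (by linarith)

theorem F_eq {v x y : ℂ} (h : S.Straight v x y) : S.F v x = y := by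
  have hex : ∃ y, S.Straight v x y := ⟨y, h⟩
  unfold F
  rw [dif_pos hex]
  exact straight_unique hex.choose_spec h

/-- If a straight segment exists then `F` follows it. -/
theorem straight_F {v x y : ℂ} (h : S.Straight v x y) : S.Straight v x (S.F v x) := by
  rw [F_eq h]; exact h

/-- Two points with the same image are equal. -/
theorem straight_inj {v x x' y : ℂ} (h : S.Straight v x y) (h' : S.Straight v x' y) : x = x' :=
  straight_unique (straight_symm h) (straight_symm h')

end Surf

end Pool.Agent.Helper87.LS
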