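import Pool.Agent.Helper87.LS.Str
import Pool.Agent.Helper87.LS.OpenS

/-!
BLOCK LS-G6. Volume inequality and measurability for `F v`.

Let `G = {x | ∃ y, Straight v x y}`. By `straight_open` (with `v' = v`) `G` is open, and for `x ∈ G`
and `x'` near `x`, `F v x' = F v x + (x' - x)` (`F_eq`). So `F v` is continuous on `G` and has derivative
`id` at the points of `G`; it is injective on `G` (`straight_inj`); outside `G`, `F v x = x`
(definition of `F`). Hence `F v` is measurable (piecewise: continuous on the open set `G`, identity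
on the complement). For measurable `B` put `s = {x ∈ G | F v x ∈ B}` (measurable):
`MeasureTheory.lintegral_abs_det_fderiv_eq_addHaar_image` gives `volume s = volume (F v '' s)`
(the determinant of the identity of `ℂ` over `ℝ` is 1), and `F v '' s ⊆ B`.
-/

open MeasureTheory Set

namespace Pool.Agent.Helper87.LS

namespace Surf

variable (S : Surf)

theorem isOpen_straight (v : ℂ) : IsOpen {x | ∃ y, S.Straight v x y} := by
  rw [Metric.isOpen_iff]
  rintro x ⟨y, h⟩
  obtain ⟨δ, hδ, H⟩ := straight_open h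
  refine ⟨δ, hδ, fun x' hx' => ?_⟩
  exact ⟨_, H x' v (by rwa [← dist_eq_norm]) (by simpa using hδ)⟩

/-- Near a point where the motion is defined it is a translation. -/
theorem F_eventually (v : ℂ) {x : ℂ} (hx : ∃ y, S.Straight v x y) :
    ∀ᶠ x' in nhds x, S.F v x' = S.F v x + (x' - x) := by
  obtain ⟨y, h⟩ := hx
  obtain ⟨δ, hδ, H⟩ := straight_open h
  refine Metric.eventually_nhds_iff.2 ⟨δ, hδ, fun {x'} hx' => ?_⟩
  rw [F_eq h, F_eq (H x' v (by rwa [← dist_eq_norm]) (by simpa using hδ))]
  ring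

theorem F_hasFDerivAt (v : ℂ) {x : ℂ} (hx : ∃ y, S.Straight v x y) :
    HasFDerivAt (S.F v) (ContinuousLinearMap.id ℝ ℂ) x := by
  have h1 : HasFDerivAt (fun x' : ℂ => S.F v x + (x' - x)) (ContinuousLinearMap.id ℝ ℂ) x :=
    ((hasFDerivAt_id (𝕜 := ℝ) x).sub_const x).const_add (S.F v x)
  exact h1.congr_of_eventuallyEq (S.F_eventually v hx)

theorem measurableSet_straight (v : ℂ) : MeasurableSet {x | ∃ y, S.Straight v x y} :=
  (S.isOpen_straight v).measurableSet

theorem measurable_F (v : ℂ) : Measurable (S.F v) := by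
  classical
  have h1 : {x | ∃ y, S.Straight v x y}.piecewise (S.F v) id = S.F v := by
    funext x
    by_cases hx : ∃ y, S.Straight v x y
    · exact Set.piecewise_eq_of_mem _ _ _ hx
    · have hx' : x ∉ {x | ∃ y, S.Straight v x y} := hx
      rw [Set.piecewise_eq_of_notMem _ _ _ hx']
      unfold F
      rw [dif_neg hx]
      rfl
  rw [← h1]
  refine ContinuousOn.measurable_piecewise ?_ continuousOn_id (S.measurableSet_straight v)
  intro x hx
  exact (S.F_hasFDerivAt v hx).continuousAt.continuousWithinAt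

theorem straight_vol_le (v : ℂ) {B : Set ℂ} (hB : MeasurableSet B) :
    volume {x | ∃ y ∈ B, S.Straight v x y} ≤ volume B := by
  set s : Set ℂ := {x | ∃ y ∈ B, S.Straight v x y} with hs
  have e : s = {x | ∃ y, S.Straight v x y} ∩ S.F v ⁻¹' B := by
    ext x
    constructor
    · rintro ⟨y, hy, h⟩
      exact ⟨⟨y, h⟩, by rw [Set.mem_preimage, F_eq h]; exact hy⟩
    · rintro ⟨⟨y, h⟩, hB'⟩
      rw [Set.mem_preimage, F_eq h] at hB'
      exact ⟨y, hB', h⟩
  have hsm : MeasurableSet s := by
    rw [e]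
    exact (S.measurableSet_straight v).inter (S.measurable_F v hB)
  have hinj : Set.InjOn (S.F v) s := by
    rintro x ⟨y, _, h⟩ x' ⟨y', _, h'⟩ hxx
    rw [F_eq h, F_eq h'] at hxx
    subst hxx
    exact straight_inj h h'
  have h1 := MeasureTheory.lintegral_abs_det_fderiv_eq_addHaar_image volume hsm
    (f := S.F v) (f' := fun _ => ContinuousLinearMap.id ℝ ℂ)
    (fun x hx => (S.F_hasFDerivAt v (by
      obtain ⟨y, _, h⟩ := hx
      exact ⟨y, h⟩)).hasFDerivWithinAt) hinj
  have h2 : (ContinuousLinearMap.id ℝ ℂ).det = 1 := by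
    change LinearMap.det (LinearMap.id : ℂ →ₗ[ℝ] ℂ) = 1
    exact LinearMap.det_id
  simp only [h2, abs_one, ENNReal.ofReal_one, MeasureTheory.setLIntegral_const, one_mul] at h1
  rw [h1]
  refine measure_mono ?_
  rintro _ ⟨x, ⟨y, hy, h⟩, rfl⟩
  rw [F_eq h]
  exact hy

end Surf

end Pool.Agent.Helper87.LS
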